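import Pool.Agent.Lib.MP_610fe3_an.T5.Spec
import Pool.Agent.Lib.MP_610fe3_an.Gen.Norm

/-!
# Module CLO: a closed field in the tangent bundle is closed in the ambient space
-/

open Set Filter Function Bundle
open scoped Topology Manifold ContDiff

namespace Pool.Agent.Lib.MP610fe3.T5

universe u v w

theorem clo : SpecClo.{u, v} := by
  intro V _ _ _ N M _ _ _ _ e he hinj Ew hcl
  refine IsSeqClosed.isClosed ?_
  intro p p0 hp hlim
  choose v hv hvw using hp
  obtain ⟨c, C, hc, hC, hev⟩ := Gen.locD_bounds V he hinj p0.1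
  have hx : Tendsto (fun n => (p n).1) atTop (𝓝 p0.1) := (continuous_fst.tendsto p0).comp hlim
  have hw : Tendsto (fun n => (p n).2) atTop (𝓝 p0.2) := (continuous_snd.tendsto p0).comp hlim
  have hb0 : p0.1 ∈ (trivializationAt V (fun x : M => TangentSpace 𝓘(ℝ, V) x) p0.1).baseSet :=
    FiberBundle.mem_baseSet_trivializationAt' p0.1
  have hb : (trivializationAt V (fun x : M => TangentSpace 𝓘(ℝ, V) x) p0.1).baseSet
      ∈ 𝓝 p0.1 := (Trivialization.open_baseSet _).mem_nhds hb0
  let ξ : ℕ → V := fun n => (trivializationAt V (fun x : M => TangentSpace 𝓘(ℝ, V) x)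
    p0.1).continuousLinearMapAt ℝ (p n).1 (v n)
  have hloc : ∀ᶠ n in atTop, Gen.locD V e p0.1 (p n).1 (ξ n) = (p n).2 := by
    filter_upwards [hx.eventually hb] with n h2
    have h3 := Gen.mfderiv_eq_locD V (e := e) h2 (v n)
    rw [← hvw n]
    exact h3.symm
  have hbd : ∀ᶠ n in atTop, ξ n ∈ Metric.closedBall (0 : V) ((‖p0.2‖ + 1) / c) := by
    have hn : ∀ᶠ n in atTop, ‖(p n).2‖ < ‖p0.2‖ + 1 :=
      (hw.norm).eventually (gt_mem_nhds (by linarith))
    filter_upwards [hloc, hx.eventually hev, hn] with n h1 h2 h3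
    rw [mem_closedBall_zero_iff, le_div_iff₀ hc]
    have h4 := (h2 (ξ n)).1
    rw [h1] at h4
    linarith [mul_comm c ‖ξ n‖]
  obtain ⟨η, -, φ, hφ, hη⟩ :=
    (isCompact_closedBall (0 : V) ((‖p0.2‖ + 1) / c)).tendsto_subseq' hbd.frequently
  have hφt := hφ.tendsto_atTop
  -- the limit vector
  refine ⟨(trivializationAt V (fun x : M => TangentSpace 𝓘(ℝ, V) x) p0.1).symm p0.1 η, ?_, ?_⟩
  · have hc1 := (trivializationAt V (fun x : M => TangentSpace 𝓘(ℝ, V) x)
      p0.1).continuousOn_symm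
    have hmem : (p0.1, η) ∈ (trivializationAt V (fun x : M => TangentSpace 𝓘(ℝ, V) x)
      p0.1).baseSet ×ˢ (univ : Set V) := ⟨hb0, mem_univ _⟩
    have hopen : IsOpen ((trivializationAt V (fun x : M => TangentSpace 𝓘(ℝ, V) x)
      p0.1).baseSet ×ˢ (univ : Set V)) := (Trivialization.open_baseSet _).prod isOpen_univ
    have hc2 := (hc1.continuousAt (hopen.mem_nhds hmem))
    have hpair : Tendsto (fun k => ((p (φ k)).1, ξ (φ k))) atTop (𝓝 (p0.1, η)) :=
      (hx.comp hφt).prodMk_nhds hη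
    have hlim2 := hc2.tendsto.comp hpair
    have hin : ∀ᶠ k in atTop, ((fun z : M × V => TotalSpace.mk' V z.1
        ((trivializationAt V (fun x : M => TangentSpace 𝓘(ℝ, V) x) p0.1).symm z.1 z.2)) ∘
        fun k => ((p (φ k)).1, ξ (φ k))) k ∈
        {q : TangentBundle 𝓘(ℝ, V) M | q.2 ∈ Ew q.1} := by
      filter_upwards [hφt.eventually (hx.eventually hb)] with k hk
      have h1 : (trivializationAt V (fun x : M => TangentSpace 𝓘(ℝ, V) x) p0.1).symm
          (p (φ k)).1 (ξ (φ k)) = v (φ k) := by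
        have h2 := Trivialization.symmL_continuousLinearMapAt (R := ℝ)
          (trivializationAt V (fun x : M => TangentSpace 𝓘(ℝ, V) x) p0.1) hk (v (φ k))
        rw [Trivialization.symmL_apply _ hk] at h2
        exact h2
      show (trivializationAt V (fun x : M => TangentSpace 𝓘(ℝ, V) x) p0.1).symm
          (p (φ k)).1 (ξ (φ k)) ∈ Ew (p (φ k)).1
      rw [h1]
      exact hv (φ k)
    exact hcl.mem_of_tendsto hlim2 hin
  · have h1 : Tendsto (fun k => Gen.locD V e p0.1 (p (φ k)).1 (ξ (φ k))) atTop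
        (𝓝 (Gen.locD V e p0.1 p0.1 η)) := by
      have h2 : Tendsto (fun k => Gen.locD V e p0.1 (p (φ k)).1) atTop
          (𝓝 (Gen.locD V e p0.1 p0.1)) :=
        (Gen.locD_continuousAt V he p0.1).tendsto.comp (hx.comp hφt)
      have h2' := (isBoundedBilinearMap_apply (𝕜 := ℝ) (E := V)
        (F := EuclideanSpace ℝ (Fin N))).continuous.tendsto (Gen.locD V e p0.1 p0.1, η)
      exact h2'.comp (h2.prodMk_nhds hη)
    have h3 : Tendsto (fun k => Gen.locD V e p0.1 (p (φ k)).1 (ξ (φ k))) atTop (𝓝 p0.2) := by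
      refine (hw.comp hφt).congr' ?_
      filter_upwards [hφt.eventually hloc] with k hk
      exact hk.symm
    have h4 := tendsto_nhds_unique h1 h3
    have h5 := Gen.mfderiv_eq_locD V (e := e) hb0
      ((trivializationAt V (fun x : M => TangentSpace 𝓘(ℝ, V) x) p0.1).symm p0.1 η)
    have h6 : (trivializationAt V (fun x : M => TangentSpace 𝓘(ℝ, V) x)
        p0.1).continuousLinearMapAt ℝ p0.1
        ((trivializationAt V (fun x : M => TangentSpace 𝓘(ℝ, V) x) p0.1).symm p0.1 η) = η := by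
      have h7 := Trivialization.continuousLinearMapAt_symmL (R := ℝ)
        (trivializationAt V (fun x : M => TangentSpace 𝓘(ℝ, V) x) p0.1) hb0 η
      rw [Trivialization.symmL_apply _ hb0] at h7
      exact h7
    rw [h6] at h5
    exact h5.trans h4

end Pool.Agent.Lib.MP610fe3.T5
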