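import Pool.Agent.Lib.MP_610fe3_an.T5.Spec

/-!
# Module CONN: points of a plaque are joined by small steps in the plaque (helper55)
-/

open Set Filter Function
open scoped Topology

universe v

namespace Pool.Agent.Lib.MP610fe3.T5.ConnM

open Cf H6 T4

/-- Concatenation of chains. -/
theorem chain_concat {α : Type*} {Rel : α → α → Prop} {D₁ D₂ : ℕ} {p z q : α}
    (h₁ : ∃ c : ℕ → α, c 0 = p ∧ c D₁ = z ∧ ∀ i < D₁, Rel (c i) (c (i + 1)))
    (h₂ : ∃ c : ℕ → α, c 0 = z ∧ c D₂ = q ∧ ∀ i < D₂, Rel (c i) (c (i + 1))) :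
    ∃ c : ℕ → α, c 0 = p ∧ c (D₁ + D₂) = q ∧ ∀ i < D₁ + D₂, Rel (c i) (c (i + 1)) := by
  obtain ⟨c, hc0, hc1, hc⟩ := h₁
  obtain ⟨d, hd0, hd1, hd⟩ := h₂
  refine ⟨fun i => if i ≤ D₁ then c i else d (i - D₁), by simp [hc0], ?_, ?_⟩
  · by_cases h : D₁ + D₂ ≤ D₁
    · have h' : D₂ = 0 := by omega
      subst h'
      simp only [add_zero, le_refl, if_true]
      rw [hc1, ← hd0, hd1]
    · simp only [h, if_false]
      rw [Nat.add_sub_cancel_left, hd1]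
  · intro i hi
    rcases lt_trichotomy i D₁ with h | h | h
    · have h1 : i ≤ D₁ := h.le
      have h2 : i + 1 ≤ D₁ := h
      simp only [h1, h2, if_true]
      exact hc i h
    · subst h
      have h2 : ¬ (i + 1 ≤ i) := by omega
      simp only [le_refl, if_true, h2, if_false]
      have := hd 0 (by omega)
      rw [hd0] at this
      rw [hc1, Nat.add_sub_cancel_left]
      exact this
    · have h1 : ¬ i ≤ D₁ := by omega
      have h2 : ¬ i + 1 ≤ D₁ := by omega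
      simp only [h1, h2, if_false]
      have := hd (i - D₁) (by omega)
      rwa [show i + 1 - D₁ = i - D₁ + 1 by omega]

/-- Close points of a local stable set are in a small local stable set. -/
theorem wl_of_dist {M : Type v} [MetricSpace M] {f : M ≃ₜ M} {ε₀ C l ε d : ℝ}
    (hD : Dec f ε₀ C l) (hε : ε ≤ ε₀) {x z : M} (hz : z ∈ Wl f ε x) (hd : dist z x ≤ d) :
    z ∈ Wl f (C * d) x := by
  intro k
  have hC : 0 ≤ C := zero_le_one.trans hD.one_le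
  have h1 := hD.dec x z (Wl_mono hε hz) k
  have h2 : l ^ k ≤ 1 := pow_le_one₀ hD.l_pos.le hD.l_lt.le
  have h3 : 0 ≤ l ^ k := pow_nonneg hD.l_pos.le _
  calc dist (f^[k] z) (f^[k] x) ≤ C * l ^ k * dist z x := h1
    _ ≤ C * 1 * d := by gcongr
    _ = C * d := by ring

section

variable {M : Type v} [MetricSpace M] {f : M ≃ₜ M} {ε₀ C a as bs b₀ β : ℝ} {n : ℕ}
  {Mi : ℕ → Set M} {V : ℕ → M → M → ℝ → M} {R ρ K r εb δb ε L R' εh δh rB : ℝ} {idx : M → ℕ}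

theorem eps_le (h : C2 f ε₀ C a as bs b₀ β n Mi V R ρ K r εb δb ε L R' εh δh rB idx) :
    8 * R ≤ ε₀ ∧ εb ≤ ε₀ ∧ ε ≤ ε₀ ∧ εh ≤ ε ∧ 16 * ε ≤ εb ∧ 16 * εb ≤ R := by
  have h1 := h.R_le
  have h2 : 0 ≤ K * (2 * ρ) := by
    have := h.vrt.one_le
    have := h.vrt.ρ_pos
    positivity
  have h3 := h.r_le
  have h4 := h.r_pos
  have h5 := h.εb_le
  have h6 := h.δb_le
  have h7 := h.ε_le
  have h8 := h.R'_le
  have h9 := h.εh_le
  have h10 := h.ε_pos
  refine ⟨?_, ?_, ?_, ?_, ?_, ?_⟩ <;> linarith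

/-- A constant curve. -/
theorem cv_self (hε : 0 ≤ ε) (hL : 0 ≤ L) (p : M) : Cv f β ε L p p := by
  refine ⟨fun _ => p, rfl, rfl, fun t _ t' _ => ⟨mem_Wl_self hε, fun k => ?_⟩⟩
  rw [dist_self]
  have := Real.exp_pos (β * k)
  positivity

/-- A piece of a curve. -/
theorem cv_piece {γ : ℝ → M} (hL : 0 ≤ L)
    (hγ : ∀ t ∈ Icc (0 : ℝ) 1, ∀ t' ∈ Icc (0 : ℝ) 1, γ t ∈ Wl f.symm ε (γ t') ∧
      ∀ k : ℕ, dist (f^[k] (γ t)) (f^[k] (γ t')) ≤ L * Real.exp (β * k) * |t - t'|)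
    {s s' : ℝ} (hs : s ∈ Icc (0 : ℝ) 1) (hs' : s' ∈ Icc (0 : ℝ) 1) :
    Cv f β ε L (γ s) (γ s') := by
  have hmem : ∀ t ∈ Icc (0 : ℝ) 1, s + t * (s' - s) ∈ Icc (0 : ℝ) 1 := by
    intro t ht
    have : s + t * (s' - s) = (1 - t) * s + t * s' := by ring
    rw [this]
    constructor
    · have := mul_nonneg (sub_nonneg.2 ht.2) hs.1
      have := mul_nonneg ht.1 hs'.1
      linarith
    · have := mul_le_mul_of_nonneg_left hs.2 (sub_nonneg.2 ht.2)
      have := mul_le_mul_of_nonneg_left hs'.2 ht.1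
      linarith
  refine ⟨fun t => γ (s + t * (s' - s)), by simp, by simp, fun t ht t' ht' => ?_⟩
  obtain ⟨h1, h2⟩ := hγ _ (hmem t ht) _ (hmem t' ht')
  refine ⟨h1, fun k => (h2 k).trans ?_⟩
  have h3 : |s + t * (s' - s) - (s + t' * (s' - s))| ≤ |t - t'| := by
    rw [show s + t * (s' - s) - (s + t' * (s' - s)) = (t - t') * (s' - s) by ring, abs_mul]
    have h4 : |s' - s| ≤ 1 := by
      rw [abs_le]
      constructor <;> linarith [hs.1, hs.2, hs'.1, hs'.2]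
    exact mul_le_of_le_one_right (abs_nonneg _) h4
  have := Real.exp_pos (β * k)
  gcongr

end

theorem specConn : SpecConn.{v} := by
  intro M _ _ f ε₀ C a as bs b₀ β n Mi V R ρ K r εb δb ε L R' εh δh rB idx h η hη
  obtain ⟨-, -, he1, he2, he3, -⟩ := eps_le h
  have hε := h.ε_pos
  have hεh := h.εh_pos
  have hL := h.L_nonneg
  have hC : 1 ≤ C := h.hyb.fwd.one_le
  have hC0 : 0 ≤ C := zero_le_one.trans hC
  obtain ⟨Λ, hΛ, hslow⟩ := h.slow_h
  obtain ⟨δ, hδ, hδη, hδh⟩ : ∃ δ : ℝ, 0 < δ ∧ C * δ ≤ η ∧ C * δ ≤ εh := by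
    refine ⟨min η εh / C, by positivity, ?_, ?_⟩
    · rw [mul_div_cancel₀ _ (by positivity)]
      exact min_le_left _ _
    · rw [mul_div_cancel₀ _ (by positivity)]
      exact min_le_right _ _
  have hδη' : δ ≤ η := le_trans (by nlinarith) hδη
  obtain ⟨D, hD⟩ := exists_nat_gt (max (L / δ) (Λ / δ))
  have hD0 : (0 : ℝ) < D := lt_of_le_of_lt (le_max_of_le_left (by positivity)) hD
  have hDL : L * (1 / D) ≤ δ := by
    have := lt_of_le_of_lt (le_max_left (L / δ) (Λ / δ)) hD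
    rw [div_lt_iff₀ hδ] at this
    rw [mul_one_div, div_le_iff₀ hD0]
    linarith
  have hDΛ : Λ * (1 / D) ≤ δ := by
    have := lt_of_le_of_lt (le_max_right (L / δ) (Λ / δ)) hD
    rw [div_lt_iff₀ hδ] at this
    rw [mul_one_div, div_le_iff₀ hD0]
    linarith
  have hmem : ∀ i : ℕ, i ≤ D → (i : ℝ) / D ∈ Icc (0 : ℝ) 1 := fun i hi =>
    ⟨by positivity, by rw [div_le_one hD0]; exact_mod_cast hi⟩
  have hstep : ∀ i : ℕ, |((i + 1 : ℕ) : ℝ) / D - (i : ℝ) / D| = 1 / D := fun i => by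
    rw [← sub_div, abs_div, abs_of_pos hD0]
    push_cast
    simp
  refine ⟨D + D, fun p q ⟨z, hzq, hzp, γ, hγ0, hγ1, hγ⟩ => ?_⟩
  refine chain_concat (Rel := fun u w => dist u w ≤ η ∧ Erel f β εh ε L u w) (z := z)
    ⟨fun i => γ ((i : ℝ) / D), ?_, ?_, fun i hi => ?_⟩ ?_
  · simp [hγ0]
  · simp [hD0.ne', hγ1]
  · have h1 := hmem i hi.le
    have h2 := hmem (i + 1) hi
    obtain ⟨h3, h4⟩ := hγ _ h2 _ h1
    have h5 : dist (γ (((i + 1 : ℕ) : ℝ) / D)) (γ ((i : ℝ) / D)) ≤ δ := by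
      have := h4 0
      simp only [iterate_zero, id_eq, Nat.cast_zero, mul_zero, Real.exp_zero, mul_one] at this
      rw [hstep] at this
      linarith
    refine ⟨by rw [dist_comm]; linarith, γ (((i + 1 : ℕ) : ℝ) / D), mem_Wl_self hεh.le, ?_,
      cv_piece hL hγ h1 h2⟩
    exact Wl_mono hδh (wl_of_dist h.hyb.bwd he1 h3 h5)
  · obtain ⟨σ, -, hσ0, hσ1, hσ, hσ'⟩ := hslow q z hzq
    have hmem' : ∀ i : ℕ, i ≤ D → 1 - (i : ℝ) / D ∈ Icc (0 : ℝ) 1 := fun i hi => by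
      have := hmem i hi
      exact ⟨by linarith [this.2], by linarith [this.1]⟩
    refine ⟨fun i => σ (1 - (i : ℝ) / D), by simp [hσ1], by simp [hD0.ne', hσ0],
      fun i hi => ?_⟩
    have h1 := hmem' i hi.le
    have h2 := hmem' (i + 1) hi
    have h3 := hσ _ h1 _ h2
    have h4 := hσ' 0 _ h1 _ h2
    have h5 : |1 - (i : ℝ) / D - (1 - ((i + 1 : ℕ) : ℝ) / D)| = 1 / D := by
      rw [show 1 - (i : ℝ) / D - (1 - ((i + 1 : ℕ) : ℝ) / D)
        = ((i + 1 : ℕ) : ℝ) / D - (i : ℝ) / D by ring]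
      exact hstep i
    simp only [iterate_zero, id_eq, pow_zero, mul_one] at h4
    rw [h5] at h4
    refine ⟨by linarith, σ (1 - (i : ℝ) / D), ?_, mem_Wl_self hεh.le, cv_self hε.le hL _⟩
    exact Wl_mono hδh (wl_of_dist h.hyb.fwd (by linarith) h3 (h4.trans hDΛ))

end Pool.Agent.Lib.MP610fe3.T5.ConnM

/-- Module CONN. -/
theorem Pool.Agent.Lib.MP610fe3.T5.conn : Pool.Agent.Lib.MP610fe3.T5.SpecConn.{v} :=
  Pool.Agent.Lib.MP610fe3.T5.ConnM.specConn
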