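import Pool.Agent.Lib.MP_610fe3_an.T5.Spec
import Pool.Agent.Lib.MP_610fe3_an.H6.Ext
import Pool.Agent.Lib.MP_610fe3_an.Cf.H1Wl

/-!
# Module CSET: the set of cheap points (helper40)
-/

open Set Filter Function
open scoped Topology

namespace Pool.Agent.Lib.MP610fe3.T5.CsetM

open Cf H6 T4 Cf.H1

universe v

variable {M : Type v} [MetricSpace M] {f : M ≃ₜ M}

theorem chm_image {r : ℝ} {m K : ℕ} {p q : M} (h : Chm f r (m + 1) univ K (f.symm p) (f.symm q)) :
    Chm f r m univ K p q := by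
  obtain ⟨c, h0, hK, -, hs⟩ := h
  refine ⟨fun i => f (c i), ?_, ?_, fun _ _ => mem_univ _, fun i hi => ?_⟩
  · show f (c 0) = p
    rw [h0, f.apply_symm_apply]
  · show f (c K) = q
    rw [hK, f.apply_symm_apply]
  · have := hs i hi
    rwa [iterate_succ_apply, iterate_succ_apply] at this

theorem chm_preimage {r : ℝ} {m K : ℕ} {p q : M} (h : Chm f r m univ K (f p) (f q)) :
    Chm f r (m + 1) univ K p q := by
  obtain ⟨c, h0, hK, -, hs⟩ := h
  refine ⟨fun i => f.symm (c i), ?_, ?_, fun _ _ => mem_univ _, fun i hi => ?_⟩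
  · show f.symm (c 0) = p
    rw [h0, f.symm_apply_apply]
  · show f.symm (c K) = q
    rw [hK, f.symm_apply_apply]
  · show f^[m + 1] (f.symm (c (i + 1))) ∈ Wl f.symm r (f^[m + 1] (f.symm (c i)))
    rw [iterate_succ_apply, iterate_succ_apply, f.apply_symm_apply, f.apply_symm_apply]
    exact hs i hi

theorem chp_mono {β r Λ Λ' : ℝ} {p q : M} (h : Chp f β r univ Λ p q) (hΛ : Λ ≤ Λ') :
    Chp f β r univ Λ' p q := by
  intro m
  obtain ⟨K, hK, hc⟩ := h m
  refine ⟨K, hK.trans ?_, hc⟩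
  exact mul_le_mul_of_nonneg_right hΛ (Real.exp_pos _).le

/-- cheap pairs are transported along stable sets -/
theorem key [CompactSpace M] (href : SpecRef.{v}) (h0 : SpecReach0.{v}) (htrl : SpecTrl.{v})
    (ε₀ C a as bs b₀ β : ℝ) (H : Hyb f ε₀ C a as bs b₀ β) :
    ∃ rC d₀ : ℝ, 0 < rC ∧ 0 < d₀ ∧ ∀ r, 0 < r → r ≤ rC → ∀ Λ : ℝ, ∃ Λ' : ℝ,
      ∀ yh yh' y y' : M, Chp f β r univ Λ yh yh' → y ∈ Wl f d₀ yh → y' ∈ Wl f d₀ yh' →
        y' ∈ Wl f.symm d₀ y → yh' ∈ Wl f.symm d₀ yh → Chp f β r univ Λ' y y' := by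
  obtain ⟨ρ₀, hρ₀, href⟩ := href f ε₀ C a as bs b₀ β H
  obtain ⟨e₁, he₁, hR, -⟩ := h0 f ε₀ C a as bs b₀ β H
  obtain ⟨r₀, δ₀, hr₀, hδ₀, htrl⟩ := htrl f ε₀ C a as bs b₀ β H
  have hC : 1 ≤ C := H.br.one_le
  have hC0 : 0 < 2 * C := by linarith
  refine ⟨min (ρ₀ / (2 * C)) r₀, min δ₀ e₁, lt_min (div_pos hρ₀ hC0) hr₀, lt_min hδ₀ he₁,
    fun r hr hrC Λ => ?_⟩
  have h2Cr : 2 * C * r ≤ ρ₀ := by
    have := hrC.trans (min_le_left _ _)
    rw [le_div_iff₀ hC0] at this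
    linarith
  have hrr : r ≤ r₀ := hrC.trans (min_le_right _ _)
  obtain ⟨D, hD, hDr⟩ := href r hr
  obtain ⟨Λ0, hΛ0⟩ := hR r hr
  obtain ⟨m₁, hm₁⟩ := htrl r hr hrr Λ
  have hβ : 0 < β := H.a_pos.trans_le H.a_le
  refine ⟨max (D * Λ) (max Λ0 0 * Real.exp (b₀ * m₁)), fun yh yh' y y' hc hy hy' hyy hyh m => ?_⟩
  rcases le_or_gt m₁ m with hm | hm
  · obtain ⟨K, hK, hch⟩ := hc m
    have h1 := hm₁ m hm yh yh' y y' K (wl_mono hyh (min_le_left _ _))
      (wl_mono hy (min_le_left _ _)) (wl_mono hyy (min_le_left _ _))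
      (wl_mono hy' (min_le_left _ _)) hK hch
    refine ⟨D * K, ?_, hDr (2 * C * r) h2Cr m K y y' h1⟩
    push_cast
    calc (D : ℝ) * K ≤ D * (Λ * Real.exp (β * m)) := by gcongr
      _ = (D * Λ) * Real.exp (β * m) := by ring
      _ ≤ max (D * Λ) (max Λ0 0 * Real.exp (b₀ * m₁)) * Real.exp (β * m) :=
          mul_le_mul_of_nonneg_right (le_max_left _ _) (Real.exp_pos _).le
  · obtain ⟨K, x, hK, hx0, hxK, hs⟩ := hΛ0 m y (mem_univ _) y' (mem_univ _)
      (wl_mono hyy (min_le_right _ _))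
    refine ⟨K, ?_, x, hx0, hxK, fun _ _ => mem_univ _, hs⟩
    have hmm : (m : ℝ) ≤ m₁ := by exact_mod_cast hm.le
    have h1 : Real.exp (b₀ * m) ≤ Real.exp (b₀ * m₁) :=
      Real.exp_le_exp.2 (mul_le_mul_of_nonneg_left hmm H.b₀_nonneg)
    have h2 : 1 ≤ Real.exp (β * m) := Real.one_le_exp (by positivity)
    calc (K : ℝ) ≤ Λ0 * Real.exp (b₀ * m) := hK
      _ ≤ max Λ0 0 * Real.exp (b₀ * m) :=
          mul_le_mul_of_nonneg_right (le_max_left _ _) (Real.exp_pos _).le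
      _ ≤ max Λ0 0 * Real.exp (b₀ * m₁) :=
          mul_le_mul_of_nonneg_left h1 (le_max_right _ _)
      _ ≤ max (D * Λ) (max Λ0 0 * Real.exp (b₀ * m₁)) := le_max_right _ _
      _ = max (D * Λ) (max Λ0 0 * Real.exp (b₀ * m₁)) * 1 := (mul_one _).symm
      _ ≤ max (D * Λ) (max Λ0 0 * Real.exp (b₀ * m₁)) * Real.exp (β * m) := by
          refine mul_le_mul_of_nonneg_left h2 ?_
          exact (mul_nonneg (le_max_right _ _) (Real.exp_pos _).le).trans (le_max_right _ _)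

theorem inv1 {β r : ℝ} {x : M} (hx : x ∈ Cset f β r) : f x ∈ Cset f β r := by
  obtain ⟨δ, Λ, hδ, h⟩ := hx
  refine ⟨δ, Λ * Real.exp β, hδ, fun y hy y' hy' m => ?_⟩
  have e1 : ∀ y ∈ Wl f.symm δ (f x), f.symm y ∈ Wl f.symm δ x := by
    intro y hy
    have := wl_image hy
    rwa [f.symm_apply_apply] at this
  obtain ⟨K, hK, hc⟩ := h _ (e1 y hy) _ (e1 y' hy') (m + 1)
  refine ⟨K, hK.trans (le_of_eq ?_), chm_image hc⟩
  rw [mul_assoc, ← Real.exp_add]
  push_cast
  congr 2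
  ring

theorem inv2 [CompactSpace M] {β r : ℝ} (hβ : 0 ≤ β) (hr : 0 < r) {x : M}
    (hx : f x ∈ Cset f β r) : x ∈ Cset f β r := by
  obtain ⟨δ, Λ, hδ, h⟩ := hx
  obtain ⟨d, hd, hdf⟩ := Metric.uniformContinuous_iff.1
    (CompactSpace.uniformContinuous_of_continuous f.continuous) δ hδ
  refine ⟨min (min (d / 2) δ) (r / 2), max Λ 1, ?_, fun y hy y' hy' m => ?_⟩
  · exact lt_min (lt_min (by positivity) hδ) (by positivity)
  have e1 : ∀ y ∈ Wl f.symm (min (min (d / 2) δ) (r / 2)) x, f y ∈ Wl f.symm δ (f x) := by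
    intro y hy
    have h1 : min (min (d / 2) δ) (r / 2) ≤ δ := (min_le_left _ _).trans (min_le_right _ _)
    have h2 : min (min (d / 2) δ) (r / 2) ≤ d / 2 := (min_le_left _ _).trans (min_le_left _ _)
    refine wl_back (wl_mono hy h1) ?_
    have h3 := wl_dist hy
    exact (hdf (a := y) (b := x) (by linarith)).le
  cases m with
  | zero =>
    refine ⟨1, ?_, fun i => if i = 0 then y else y', ?_, ?_, fun _ _ => mem_univ _, ?_⟩
    · simp
    · simp
    · simp
    · intro i hi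
      have : i = 0 := by omega
      subst this
      have h4 : min (min (d / 2) δ) (r / 2) ≤ r / 2 := min_le_right _ _
      have h5 := wl_trans (wl_mono hy' h4) (wl_symm (wl_mono hy h4))
      simpa using h5
  | succ m =>
    obtain ⟨K, hK, hc⟩ := h _ (e1 y hy) _ (e1 y' hy') m
    refine ⟨K, hK.trans ?_, chm_preimage hc⟩
    have h6 : Real.exp (β * m) ≤ Real.exp (β * (m + 1 : ℕ)) := by
      apply Real.exp_le_exp.2
      push_cast
      nlinarith
    calc Λ * Real.exp (β * m) ≤ max Λ 1 * Real.exp (β * m) :=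
          mul_le_mul_of_nonneg_right (le_max_left _ _) (Real.exp_pos _).le
      _ ≤ max Λ 1 * Real.exp (β * (m + 1 : ℕ)) :=
          mul_le_mul_of_nonneg_left h6 (zero_le_one.trans (le_max_right _ _))

theorem cset (href : SpecRef.{v}) (h0 : SpecReach0.{v}) (htrl : SpecTrl.{v}) : SpecCset.{v} := by
  intro M _ _ f ε₀ C a as bs b₀ β H
  obtain ⟨rC, d₀, hrC, hd₀, hkey⟩ := key (f := f) href h0 htrl ε₀ C a as bs b₀ β H
  refine ⟨rC, hrC, fun r hr hrr => ?_⟩
  have hβ : 0 < β := H.a_pos.trans_le H.a_le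
  have hε₀ := H.br.ε_pos
  have hC : 1 ≤ C := H.br.one_le
  have unif : ∀ x ∈ Cset f β r, ∃ ρ Λ : ℝ, 0 < ρ ∧ ∀ y, dist y x ≤ ρ → ∀ y' ∈ Wl f.symm ρ y,
      Chp f β r univ Λ y y' := by
    rintro x ⟨δ, Λ, hδ, hx⟩
    obtain ⟨Λ', hΛ'⟩ := hkey r hr hrr Λ
    obtain ⟨e, he⟩ : ∃ e : ℝ, e = min δ (d₀ / 2) := ⟨_, rfl⟩
    have he0 : 0 < e := by rw [he]; exact lt_min hδ (by positivity)
    have he1 : e ≤ δ := by rw [he]; exact min_le_left _ _
    have he2 : e ≤ d₀ / 2 := by rw [he]; exact min_le_right _ _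
    obtain ⟨η, hη, hbr⟩ := H.br.exist e he0
    refine ⟨min (η / 3) d₀, Λ', lt_min (by positivity) hd₀, fun y hy y' hy' => ?_⟩
    have h1 : min (η / 3) d₀ ≤ η / 3 := min_le_left _ _
    have h2 := wl_dist hy'
    have h3 : dist y' x ≤ dist y' y + dist y x := dist_triangle _ _ _
    obtain ⟨yh, hs, hu⟩ := hbr y x (by linarith)
    obtain ⟨yh', hs', hu'⟩ := hbr y' x (by linarith)
    refine hΛ' yh yh' y y' (hx yh (wl_mono hu he1) yh' (wl_mono hu' he1)) ?_ ?_ ?_ ?_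
    · exact wl_symm (wl_mono hs (by linarith))
    · exact wl_symm (wl_mono hs' (by linarith))
    · exact wl_mono hy' (min_le_right _ _)
    · exact wl_mono (wl_trans hu' (wl_symm hu)) (by linarith)
  refine ⟨?_, ?_, ?_, unif⟩
  · rw [Metric.isOpen_iff]
    intro x hx
    obtain ⟨ρ, Λ, hρ, h⟩ := unif x hx
    refine ⟨ρ / 2, by positivity, fun z hz => ?_⟩
    rw [Metric.mem_ball] at hz
    refine ⟨ρ / 2, Λ, by positivity, fun y hy y' hy' => ?_⟩
    refine h y ?_ y' ?_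
    · have := wl_dist hy
      linarith [dist_triangle y z x]
    · exact wl_mono (wl_trans hy' (wl_symm hy)) (by linarith)
  · exact fun x => ⟨inv2 hβ.le hr, inv1⟩
  · obtain ⟨e, he⟩ : ∃ e : ℝ, e = min (ε₀ / 2) (d₀ / 2) := ⟨_, rfl⟩
    have he0 : 0 < e := by rw [he]; exact lt_min (by positivity) (by positivity)
    have he1 : e ≤ ε₀ / 2 := by rw [he]; exact min_le_left _ _
    have he2 : e ≤ d₀ / 2 := by rw [he]; exact min_le_right _ _
    obtain ⟨η, hη, hbr⟩ := H.br.exist e he0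
    obtain ⟨dd, hdd⟩ : ∃ dd : ℝ, dd = min (η / 2) ε₀ := ⟨_, rfl⟩
    have hdd0 : 0 < dd := by rw [hdd]; exact lt_min (by positivity) hε₀
    have hdd1 : dd ≤ η / 2 := by rw [hdd]; exact min_le_left _ _
    have hdd2 : dd ≤ ε₀ := by rw [hdd]; exact min_le_right _ _
    refine ⟨dd, hdd0, ?_⟩
    rintro x ⟨δ, Λ, hδ, hx⟩ y hy
    obtain ⟨Λ', hΛ'⟩ := hkey r hr hrr Λ
    have : Nonempty M := ⟨x⟩
    choose! g hg using fun p : M × M => hbr p.1 p.2
    have hgc : ContinuousOn g {p : M × M | dist p.1 p.2 < η} := by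
      refine br_continuousOn H.br fun p hp => ?_
      exact ⟨wl_mono (hg p hp).1 (by linarith), wl_mono (hg p hp).2 (by linarith)⟩
    have hyx : dist y x < η := by
      have := wl_dist hy
      linarith
    have hgyx : g (y, x) = x := by
      refine H.br.unique y x _ _ (wl_mono (hg (y, x) hyx).1 (by linarith))
        (wl_mono (hg (y, x) hyx).2 (by linarith)) (wl_symm (wl_mono hy hdd2)) (wl_self hε₀.le x)
    have hop : IsOpen {p : M × M | dist p.1 p.2 < η} :=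
      isOpen_lt (continuous_fst.dist continuous_snd) continuous_const
    have hcat : ContinuousAt g (y, x) := hgc.continuousAt (hop.mem_nhds hyx)
    have hc2 : ContinuousAt (fun u : M => g (u, x)) y :=
      ContinuousAt.comp (f := fun u : M => (u, x)) (g := g) hcat
        (Continuous.prodMk continuous_id continuous_const).continuousAt
    obtain ⟨s, hs, hsg⟩ := Metric.continuousAt_iff.1 hc2 (δ / C) (by positivity)
    have hgood : ∀ u, dist u y < min s (η / 2) → dist u x < η ∧ g (u, x) ∈ Wl f.symm δ x := by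
      intro u hu
      have h1 : dist u x < η := by
        have h2 := wl_dist hy
        have h3 := hu.trans_le (min_le_right _ _)
        linarith [dist_triangle u y x]
      refine ⟨h1, ?_⟩
      have h2 := hsg (hu.trans_le (min_le_left _ _))
      rw [hgyx] at h2
      intro k
      have h3 := H.bwd.dec x (g (u, x)) (wl_mono (hg (u, x) h1).2 (by linarith)) k
      have h4 : Real.exp (-a) ^ k ≤ 1 := pow_le_one₀ (Real.exp_pos _).le
        (Real.exp_le_one_iff.2 (by linarith [H.a_pos]))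
      have h5 : C * dist (g (u, x)) x ≤ δ := by
        have := (lt_div_iff₀ (by linarith : 0 < C)).1 h2
        linarith
      calc dist (f.symm^[k] (g (u, x))) (f.symm^[k] x) ≤ C * Real.exp (-a) ^ k * dist (g (u, x)) x :=
            h3
        _ ≤ C * 1 * dist (g (u, x)) x := by gcongr
        _ ≤ δ := by linarith
    obtain ⟨w, hw⟩ : ∃ w : ℝ, w = min (min s (η / 2)) d₀ / 2 := ⟨_, rfl⟩
    have hw0 : 0 < min (min s (η / 2)) d₀ := lt_min (lt_min hs (by positivity)) hd₀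
    have hw1 : min (min s (η / 2)) d₀ ≤ min s (η / 2) := min_le_left _ _
    have hw2 : min (min s (η / 2)) d₀ ≤ d₀ := min_le_right _ _
    refine ⟨w, Λ', by linarith, fun u hu u' hu' => ?_⟩
    obtain ⟨h1, h2⟩ := hgood u (by have := wl_dist hu; linarith)
    obtain ⟨h1', h2'⟩ := hgood u' (by have := wl_dist hu'; linarith)
    refine hΛ' (g (u, x)) (g (u', x)) u u' (hx _ h2 _ h2') ?_ ?_ ?_ ?_
    · exact wl_symm (wl_mono (hg (u, x) h1).1 (by linarith))
    · exact wl_symm (wl_mono (hg (u', x) h1').1 (by linarith))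
    · exact wl_mono (wl_trans hu' (wl_symm hu)) (by linarith)
    · exact wl_mono (wl_trans (hg (u', x) h1').2 (wl_symm (hg (u, x) h1).2)) (by linarith)

end Pool.Agent.Lib.MP610fe3.T5.CsetM

namespace Pool.Agent.Lib.MP610fe3.T5

universe v

/-- Module CSET -/
theorem cset (href : SpecRef.{v}) (h0 : SpecReach0.{v}) (htrl : SpecTrl.{v}) : SpecCset.{v} :=
  CsetM.cset href h0 htrl

end Pool.Agent.Lib.MP610fe3.T5
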