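import Pool.Agent.Lib.MP_610fe3_an.T5.Spec

/-!
# Modules HOLC and CVCH: brackets of chains, chains on curves (helper38)
-/

open Set Filter Function
open scoped Topology

namespace Pool.Agent.Lib.MP610fe3.T5

open Cf H6 T4

universe v

namespace CvchM

variable {M : Type*} [MetricSpace M] {f : M ≃ₜ M} {β r r' : ℝ} {m K K' : ℕ} {D D' : Set M}
  {p q z : M} {Λ Λ' : ℝ}

/-- Backward iterates of a forward iterate. -/
theorem symm_iter_of_le (f : M ≃ₜ M) {k m : ℕ} (h : k ≤ m) (x : M) :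
    f.symm^[k] (f^[m] x) = f^[m - k] x :=
  symm_iterate_iterate_of_le f h x

theorem symm_iter_of_ge (f : M ≃ₜ M) {k m : ℕ} (h : m ≤ k) (x : M) :
    f.symm^[k] (f^[m] x) = f.symm^[k - m] x := by
  obtain ⟨j, rfl⟩ := Nat.exists_eq_add_of_le h
  rw [Nat.add_comm m j, iterate_add_apply, Cf.symm_iterate_iterate, Nat.add_sub_cancel]

/-- A criterion for unstable steps at time `m`. -/
theorem step_of (h1 : ∀ k ≤ m, dist (f^[k] p) (f^[k] q) ≤ r)
    (h2 : ∀ k, dist (f.symm^[k] p) (f.symm^[k] q) ≤ r) :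
    f^[m] p ∈ Wl f.symm r (f^[m] q) := by
  intro k
  rcases le_total k m with h | h
  · rw [symm_iter_of_le f h, symm_iter_of_le f h]
    exact h1 _ (by omega)
  · rw [symm_iter_of_ge f h, symm_iter_of_ge f h]
    exact h2 _

theorem step_fwd (h : f^[m] p ∈ Wl f.symm r (f^[m] q)) {k : ℕ} (hk : k ≤ m) :
    dist (f^[k] p) (f^[k] q) ≤ r := by
  have h1 := h (m - k)
  rw [symm_iter_of_le f (Nat.sub_le _ _), symm_iter_of_le f (Nat.sub_le _ _)] at h1
  have h2 : m - (m - k) = k := by omega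
  rwa [h2] at h1

theorem step_bwd (h : f^[m] p ∈ Wl f.symm r (f^[m] q)) (k : ℕ) :
    dist (f.symm^[k] p) (f.symm^[k] q) ≤ r := by
  have h1 := h (m + k)
  rw [symm_iter_of_ge f (Nat.le_add_right _ _), symm_iter_of_ge f (Nat.le_add_right _ _),
    Nat.add_sub_cancel_left] at h1
  exact h1

theorem chm_mono (h : Chm f r m D K p q) (hD : D ⊆ D') (hr : r ≤ r') : Chm f r' m D' K p q := by
  obtain ⟨c, h0, hK, hm, hs⟩ := h
  exact ⟨c, h0, hK, fun i hi => hD (hm i hi), fun i hi => Wl_mono hr (hs i hi)⟩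

theorem chm_symm (h : Chm f r m D K p q) : Chm f r m D K q p := by
  obtain ⟨c, h0, hK, hm, hs⟩ := h
  refine ⟨fun i => c (K - i), by simpa using hK, by simpa using h0,
    fun i _ => hm _ (Nat.sub_le _ _), fun i hi => ?_⟩
  have h1 := hs (K - (i + 1)) (by omega)
  have h2 : K - (i + 1) + 1 = K - i := by omega
  rw [h2] at h1
  exact Wl_comm h1

theorem chm_trans (h : Chm f r m D K p q) (h' : Chm f r m D K' q z) :
    Chm f r m D (K + K') p z := by
  obtain ⟨c, h0, hK, hm, hs⟩ := h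
  obtain ⟨c', h0', hK', hm', hs'⟩ := h'
  refine ⟨fun i => if i ≤ K then c i else c' (i - K), by simp [h0], ?_, ?_, ?_⟩
  · show (if K + K' ≤ K then c (K + K') else c' (K + K' - K)) = z
    split_ifs with h
    · have h1 : K' = 0 := by omega
      subst h1
      rw [Nat.add_zero, hK, ← h0', hK']
    · rw [Nat.add_sub_cancel_left, hK']
  · intro i hi
    show (if i ≤ K then c i else c' (i - K)) ∈ D
    split_ifs with h
    · exact hm i h
    · exact hm' _ (by omega)
  · intro i hi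
    show f^[m] (if i + 1 ≤ K then c (i + 1) else c' (i + 1 - K)) ∈
      Wl f.symm r (f^[m] (if i ≤ K then c i else c' (i - K)))
    rcases lt_trichotomy i K with h | h | h
    · rw [if_pos (show i + 1 ≤ K by omega), if_pos h.le]
      exact hs i h
    · subst h
      rw [if_neg (show ¬ i + 1 ≤ i by omega), if_pos (le_refl i), Nat.add_sub_cancel_left, hK,
        ← h0']
      exact hs' 0 (by omega)
    · rw [if_neg (show ¬ i + 1 ≤ K by omega), if_neg (show ¬ i ≤ K by omega)]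
      have h1 := hs' (i - K) (by omega)
      have h2 : i - K + 1 = i + 1 - K := by omega
      rwa [h2] at h1

theorem chp_mono (h : Chp f β r D Λ p q) (hD : D ⊆ D') (hr : r ≤ r') (hL : Λ ≤ Λ') :
    Chp f β r' D' Λ' p q := by
  intro m
  obtain ⟨K, hK, hc⟩ := h m
  exact ⟨K, hK.trans (mul_le_mul_of_nonneg_right hL (Real.exp_pos _).le), chm_mono hc hD hr⟩

theorem chp_symm (h : Chp f β r D Λ p q) : Chp f β r D Λ q p := by
  intro m
  obtain ⟨K, hK, hc⟩ := h m
  exact ⟨K, hK, chm_symm hc⟩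

theorem chp_trans (h : Chp f β r D Λ p q) (h' : Chp f β r D Λ' q z) :
    Chp f β r D (Λ + Λ') p z := by
  intro m
  obtain ⟨K, hK, hc⟩ := h m
  obtain ⟨K', hK', hc'⟩ := h' m
  refine ⟨K + K', ?_, chm_trans hc hc'⟩
  push_cast
  linarith [add_mul Λ Λ' (Real.exp (β * m))]

end CvchM

/-- Module HOLC: transport of a chain by brackets. -/
theorem holc : SpecHolc.{v} := by
  intro M _ f ε₀ C r' εb hB hε m K D x p q p' q' hD hch hp1 hp2 hq1 hq2
  obtain ⟨c, h0, hK, hm, hs⟩ := hch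
  have h1 : ∀ i, ∃ c' : M, i ≤ K → c' ∈ Wl f εb (c i) ∧ c' ∈ Wl f.symm εb x := by
    intro i
    by_cases hi : i ≤ K
    · obtain ⟨c', h⟩ := hD _ (hm i hi)
      exact ⟨c', fun _ => h⟩
    · exact ⟨p, fun h => absurd h hi⟩
  choose c' hc' using h1
  have hu : ∀ y z z' : M, z ∈ Wl f εb y → z ∈ Wl f.symm εb x → z' ∈ Wl f εb y →
      z' ∈ Wl f.symm εb x → z = z' := fun y z z' a1 a2 a3 a4 =>
    hB.unique y x z z' (Wl_mono hε a1) (Wl_mono hε a2) (Wl_mono hε a3) (Wl_mono hε a4)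
  refine ⟨c', ?_, ?_, fun i hi => (hc' i hi).2, fun i hi => ?_⟩
  · have h2 := hc' 0 (Nat.zero_le _)
    rw [h0] at h2
    exact hu p _ _ h2.1 h2.2 hp1 hp2
  · have h2 := hc' K le_rfl
    rw [hK] at h2
    exact hu q _ _ h2.1 h2.2 hq1 hq2
  · have hst := hs i hi
    have ha := hc' (i + 1) (by omega)
    have hb := hc' i hi.le
    have hr : 0 ≤ r' := dist_nonneg.trans (hst 0)
    refine CvchM.step_of (fun k hk => ?_) fun k => ?_
    · have h3 := CvchM.step_fwd hst hk
      have h4 := ha.1 k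
      have h5 := hb.1 k
      rw [dist_comm] at h5
      linarith [dist_triangle4 (f^[k] (c' (i + 1))) (f^[k] (c (i + 1))) (f^[k] (c i))
        (f^[k] (c' i))]
    · have h4 := ha.2 k
      have h5 := hb.2 k
      linarith [dist_triangle_right (f.symm^[k] (c' (i + 1))) (f.symm^[k] (c' i))
        (f.symm^[k] x)]

/-- Module CVCH: curves give cheap chains. -/
theorem cvch : SpecCvch.{v} := by
  intro M _ f ε₀ C θ β hdec hβ ε L r' hε hL hr'
  have hC := hdec.one_le
  have hC0 : 0 ≤ C := zero_le_one.trans hC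
  refine ⟨(C + 1) * L / r' + 2, by positivity, ?_⟩
  rintro p z ⟨γ, h0, h1, hγ⟩ m
  set A : ℝ := (C + 1) * L * Real.exp (β * m) / r' with hA
  have hE1 : 1 ≤ Real.exp (β * m) := Real.one_le_exp (by positivity)
  have hA0 : 0 ≤ A := by positivity
  set K : ℕ := ⌈A⌉₊ + 1 with hK
  have hKA : A ≤ (K : ℝ) := by
    rw [hK]; push_cast
    linarith [Nat.le_ceil A]
  have hK0 : (0 : ℝ) < K := by rw [hK]; push_cast; positivity
  have hKA' : (K : ℝ) ≤ A + 2 := by
    rw [hK]; push_cast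
    linarith [Nat.ceil_lt_add_one hA0]
  have hmem : ∀ i : ℕ, i ≤ K → (i : ℝ) / K ∈ Icc (0 : ℝ) 1 := fun i hi =>
    ⟨by positivity, (div_le_one hK0).2 (by exact_mod_cast hi)⟩
  have hstep : (C + 1) * L * Real.exp (β * m) * (1 / K) ≤ r' := by
    rw [hA, div_le_iff₀ hr'] at hKA
    rw [mul_one_div, div_le_iff₀ hK0]
    linarith
  refine ⟨K, ?_, fun i => γ (i / K), ?_, ?_, fun i hi => ?_, fun i hi => ?_⟩
  · have h2 : ((C + 1) * L / r' + 2) * Real.exp (β * m) = A + 2 * Real.exp (β * m) := by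
      rw [hA]; ring
    rw [h2]
    linarith
  · simp [h0]
  · show γ ((K : ℝ) / K) = z
    rw [div_self hK0.ne', h1]
  · have h2 := (hγ _ (hmem i hi) 0 ⟨le_rfl, zero_le_one⟩).1
    rwa [h0] at h2
  · have ha := hmem (i + 1) (by omega)
    have hb := hmem i hi.le
    have hd : |(((i + 1 : ℕ) : ℝ) / K) - (i : ℝ) / K| = 1 / K := by
      rw [← sub_div]
      push_cast
      rw [add_sub_cancel_left, abs_of_pos (by positivity)]
    refine CvchM.step_of (fun k hk => ?_) fun k => ?_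
    · have h2 := (hγ _ ha _ hb).2 k
      rw [hd] at h2
      have h3 : Real.exp (β * k) ≤ Real.exp (β * m) := by
        apply Real.exp_le_exp.2
        have : (k : ℝ) ≤ m := by exact_mod_cast hk
        gcongr
      calc _ ≤ L * Real.exp (β * k) * (1 / K) := h2
        _ ≤ L * Real.exp (β * m) * (1 / K) := by gcongr
        _ ≤ (C + 1) * L * Real.exp (β * m) * (1 / K) := by
          have : L ≤ (C + 1) * L := by nlinarith
          gcongr
        _ ≤ r' := hstep
    · have h2 := hdec.dec _ _ (Wl_mono hε (hγ _ ha _ hb).1) k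
      have h3 := (hγ _ ha _ hb).2 0
      rw [hd] at h3
      simp only [Nat.cast_zero, mul_zero, Real.exp_zero, mul_one, iterate_zero, id_eq] at h3
      have h4 : θ ^ k ≤ 1 := pow_le_one₀ hdec.l_pos.le hdec.l_lt.le
      have h5 : 0 ≤ θ ^ k := pow_nonneg hdec.l_pos.le _
      calc _ ≤ C * θ ^ k * dist (γ (((i + 1 : ℕ) : ℝ) / K)) (γ ((i : ℝ) / K)) := h2
        _ ≤ C * 1 * (L * (1 / K)) := by gcongr
        _ ≤ (C + 1) * L * Real.exp (β * m) * (1 / K) := by
          have h6 : C * 1 * (L * (1 / K)) = C * L * 1 * (1 / K) := by ring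
          rw [h6]
          have h7 : C * L ≤ (C + 1) * L := by nlinarith
          gcongr
        _ ≤ r' := hstep

end Pool.Agent.Lib.MP610fe3.T5
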