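import Pool.Agent.Lib.MP_610fe3_an.T5.Defs
import Pool.Agent.Lib.MP_610fe3_an.Cf.H1Wl

/-!
# Elementary properties of chains (helper19)
-/

open Set Filter Function
open scoped Topology

namespace Pool.Agent.Lib.MP610fe3.T5.ChM

open Cf Cf.H1 H6 T4

variable {M : Type*} [MetricSpace M] {f : M ≃ₜ M}

theorem chm_mono {r r' : ℝ} {m : ℕ} {D D' : Set M} {K : ℕ} {p q : M}
    (h : Chm f r m D K p q) (hr : r ≤ r') (hD : D ⊆ D') : Chm f r' m D' K p q := by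
  obtain ⟨c, h0, hK, hc, hs⟩ := h
  exact ⟨c, h0, hK, fun i hi => hD (hc i hi), fun i hi => wl_mono (hs i hi) hr⟩

theorem chm_refl {r : ℝ} (hr : 0 ≤ r) (m : ℕ) {D : Set M} {p : M} (hp : p ∈ D) (K : ℕ) :
    Chm f r m D K p p :=
  ⟨fun _ => p, rfl, rfl, fun _ _ => hp, fun _ _ => wl_self hr _⟩

theorem chm_symm {r : ℝ} {m : ℕ} {D : Set M} {K : ℕ} {p q : M}
    (h : Chm f r m D K p q) : Chm f r m D K q p := by
  obtain ⟨c, h0, hK, hc, hs⟩ := h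
  refine ⟨fun i => c (K - i), by simpa using hK, by simpa using h0, fun i _ => hc _ (by omega),
    fun i hi => ?_⟩
  have h1 := hs (K - (i + 1)) (by omega)
  rw [show K - (i + 1) + 1 = K - i by omega] at h1
  exact wl_symm h1

theorem chm_trans {r : ℝ} {m : ℕ} {D : Set M} {K K' : ℕ} {p q s : M}
    (h : Chm f r m D K p q) (h' : Chm f r m D K' q s) : Chm f r m D (K + K') p s := by
  obtain ⟨c, h0, hK, hc, hs⟩ := h
  obtain ⟨d, d0, dK, dc, ds⟩ := h'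
  refine ⟨fun i => if i ≤ K then c i else d (i - K), ?_, ?_, ?_, ?_⟩
  · simpa using h0
  · rcases Nat.eq_zero_or_pos K' with hK' | hK'
    · subst hK'
      simp only [add_zero, le_refl, if_true]
      rw [hK, ← d0, dK]
    · simp only [show ¬ (K + K' ≤ K) by omega, if_false]
      rw [show K + K' - K = K' by omega, dK]
  · intro i hi
    by_cases hiK : i ≤ K
    · simp only [hiK, if_true]
      exact hc i hiK
    · simp only [hiK, if_false]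
      exact dc _ (by omega)
  · intro i hi
    rcases lt_trichotomy i K with hiK | hiK | hiK
    · simp only [show i ≤ K by omega, show i + 1 ≤ K by omega, if_true]
      exact hs i hiK
    · subst hiK
      simp only [le_refl, if_true, show ¬ (i + 1 ≤ i) by omega, if_false]
      rw [show i + 1 - i = 0 + 1 by omega, hK, ← d0]
      exact ds 0 (by omega)
    · simp only [show ¬ (i ≤ K) by omega, show ¬ (i + 1 ≤ K) by omega, if_false]
      rw [show i + 1 - K = (i - K) + 1 by omega]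
      exact ds (i - K) (by omega)

/-- Longer chains (constant steps at the end). -/
theorem chm_pad {r : ℝ} (hr : 0 ≤ r) {m : ℕ} {D : Set M} {K : ℕ} {p q : M}
    (h : Chm f r m D K p q) {K' : ℕ} (hK' : K ≤ K') : Chm f r m D K' p q := by
  have hq : q ∈ D := by
    obtain ⟨c, h0, hK, hc, hs⟩ := h
    rw [← hK]
    exact hc K le_rfl
  have := chm_trans h (chm_refl hr m hq (K' - K))
  rwa [show K + (K' - K) = K' by omega] at this

theorem chp_mono {β r r' : ℝ} {D D' : Set M} {Λ Λ' : ℝ} {p q : M}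
    (h : Chp f β r D Λ p q) (hr : r ≤ r') (hD : D ⊆ D') (hΛ : Λ ≤ Λ') :
    Chp f β r' D' Λ' p q := fun m => by
  obtain ⟨K, hK, hc⟩ := h m
  exact ⟨K, hK.trans (mul_le_mul_of_nonneg_right hΛ (Real.exp_pos _).le), chm_mono hc hr hD⟩

theorem chp_symm {β r : ℝ} {D : Set M} {Λ : ℝ} {p q : M}
    (h : Chp f β r D Λ p q) : Chp f β r D Λ q p := fun m => by
  obtain ⟨K, hK, hc⟩ := h m
  exact ⟨K, hK, chm_symm hc⟩

theorem chp_refl {β r : ℝ} (hr : 0 ≤ r) {D : Set M} {Λ : ℝ} (hΛ : 0 ≤ Λ) {p : M} (hp : p ∈ D) :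
    Chp f β r D Λ p p := fun m =>
  ⟨0, by push_cast; exact mul_nonneg hΛ (Real.exp_pos _).le, chm_refl hr m hp 0⟩

theorem chp_trans {β r : ℝ} {D : Set M} {Λ Λ' : ℝ} {p q s : M}
    (h : Chp f β r D Λ p q) (h' : Chp f β r D Λ' q s) : Chp f β r D (Λ + Λ') p s := fun m => by
  obtain ⟨K, hK, hc⟩ := h m
  obtain ⟨K', hK', hc'⟩ := h' m
  refine ⟨K + K', ?_, chm_trans hc hc'⟩
  push_cast
  rw [add_mul]
  exact add_le_add hK hK'

theorem cv_symm {β ε L : ℝ} {p z : M} (h : Cv f β ε L p z) : Cv f β ε L z p := by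
  obtain ⟨γ, h0, h1, hγ⟩ := h
  refine ⟨fun t => γ (1 - t), by simpa using h1, by simpa using h0, fun t ht t' ht' => ?_⟩
  have h2 := hγ (1 - t) ⟨by linarith [ht.2], by linarith [ht.1]⟩ (1 - t')
    ⟨by linarith [ht'.2], by linarith [ht'.1]⟩
  refine ⟨h2.1, fun k => (h2.2 k).trans (le_of_eq ?_)⟩
  rw [show 1 - t - (1 - t') = -(t - t') by ring, abs_neg]

theorem cv_refl {β ε L : ℝ} (hε : 0 ≤ ε) (hL : 0 ≤ L) (p : M) : Cv f β ε L p p := by
  refine ⟨fun _ => p, rfl, rfl, fun t _ t' _ => ⟨wl_self hε _, fun k => ?_⟩⟩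
  rw [dist_self]
  exact mul_nonneg (mul_nonneg hL (Real.exp_pos _).le) (abs_nonneg _)

theorem cv_wl {β ε L : ℝ} {p z : M} (h : Cv f β ε L p z) : z ∈ Wl f.symm ε p := by
  obtain ⟨γ, h0, h1, hγ⟩ := h
  have := (hγ 1 ⟨zero_le_one, le_rfl⟩ 0 ⟨le_rfl, zero_le_one⟩).1
  rwa [h0, h1] at this

theorem hgh_spec {β εh ε L ρ : ℝ} {V : ℕ → M → M → ℝ → M} {idx : M → ℕ} {x p : M}
    (h : ∃ τ, Hts f β εh ε L ρ V idx x p τ) :
    Hts f β εh ε L ρ V idx x p (Hgh f β εh ε L ρ V idx x p) := by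
  rw [Hgh, dif_pos h]
  exact h.choose_spec

theorem hgh_eq {β εh ε L ρ : ℝ} {V : ℕ → M → M → ℝ → M} {idx : M → ℕ} {x p : M} {τ : ℝ}
    (hu : ∀ τ τ', Hts f β εh ε L ρ V idx x p τ → Hts f β εh ε L ρ V idx x p τ' → τ = τ')
    (h : Hts f β εh ε L ρ V idx x p τ) : Hgh f β εh ε L ρ V idx x p = τ :=
  hu _ _ (hgh_spec ⟨τ, h⟩) h

theorem wl_sub {ε ε' : ℝ} {x y : M} (h : y ∈ Wl f ε' x) : Wl f ε y ⊆ Wl f (ε + ε') x :=
  fun _ hz => wl_trans hz h

/-! ### Scales of the second case -/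

section

variable {ε₀ C a as bs b₀ β : ℝ} {n : ℕ} {Mi : ℕ → Set M}
    {V : ℕ → M → M → ℝ → M} {R ρ K r εb δb ε L R' εh δh rB : ℝ} {idx : M → ℕ}

/-- The inequalities between the scales of the second case. -/
theorem C2.scales (h : C2 f ε₀ C a as bs b₀ β n Mi V R ρ K r εb δb ε L R' εh δh rB idx) :
    16 * rB ≤ 4 * δh ∧ δh ≤ εh ∧ εh ≤ R' ∧ R' ≤ ε ∧ 16 * ε ≤ δb ∧ δb ≤ εb ∧ 16 * εb ≤ r ∧
      r ≤ R ∧ 8 * R ≤ ε₀ ∧ 0 < rB ∧ 0 < δh ∧ 0 < εh ∧ 0 < R' ∧ 0 < ε ∧ 0 < δb ∧ 0 < εb ∧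
      0 < r ∧ 0 < R ∧ 0 < ε₀ ∧ 0 < ρ ∧ 1 ≤ K := by
  have h1 := h.vrt.ρ_pos
  have h2 := h.vrt.one_le
  have h3 : 0 ≤ K * (2 * ρ) := by positivity
  have h4 := h.R_le
  have h5 := h.rB_le
  have h6 := h.vrt.R_pos
  refine ⟨by linarith, h.δh_le, h.εh_le, h.R'_le, h.ε_le, h.δb_le, h.εb_le, h.r_le, by linarith,
    h.rB_pos, h.δh_pos, h.εh_pos, h.R'_pos, h.ε_pos, h.δb_pos, h.εb_pos, h.r_pos, h6,
    by linarith, h1, h2⟩

end

end Pool.Agent.Lib.MP610fe3.T5.ChM
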