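import Pool.Agent.Lib.MP_610fe3_an.T5.Spec
import Pool.Agent.Lib.MP_610fe3_an.T5.Ch

/-!
# Module EQUI: the heights are equicontinuous (helper19)
-/

open Set Filter Function
open scoped Topology

namespace Pool.Agent.Lib.MP610fe3.T5

open Cf Cf.H1 H6 T4 ChM

universe v

namespace EquiM

/-- Bounded sequences of natural numbers are constant along an ultrafilter. -/
theorem exists_const (U : Ultrafilter ℕ) (κ : ℕ → ℕ) (B : ℕ) (h : ∀ j, κ j ≤ B) :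
    ∃ K ≤ B, ∀ᶠ j in (U : Filter ℕ), κ j = K := by
  let κ' : ℕ → Fin (B + 1) := fun j => ⟨κ j, Nat.lt_succ_of_le (h j)⟩
  have h1 : ((U.map κ' : Ultrafilter (Fin (B + 1))) : Filter (Fin (B + 1))) ≤
      𝓝 (U.map κ').lim := Ultrafilter.le_nhds_lim _
  have h2 : Tendsto κ' (U : Filter ℕ) (𝓝 (U.map κ').lim) := h1
  rw [nhds_discrete, tendsto_pure] at h2
  refine ⟨((U.map κ').lim : ℕ), Nat.lt_succ_iff.1 (U.map κ').lim.2, ?_⟩
  filter_upwards [h2] with j hj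
  rw [← hj]

section

variable {M : Type*} [MetricSpace M] [CompactSpace M]

/-- The limit along an ultrafilter. -/
theorem exists_lim (U : Ultrafilter ℕ) (c : ℕ → M) : ∃ x, Tendsto c (U : Filter ℕ) (𝓝 x) :=
  ⟨(haveI : Nonempty M := ⟨c 0⟩; (U.map c).lim), Ultrafilter.le_nhds_lim (U.map c)⟩

theorem exists_lim_Icc (U : Ultrafilter ℕ) (c : ℕ → ℝ) (a b : ℝ) (h : ∀ j, c j ∈ Icc a b) :
    ∃ x ∈ Icc a b, Tendsto c (U : Filter ℕ) (𝓝 x) := by
  have h1 : (U.map c : Filter ℝ) ≤ 𝓟 (Icc a b) := by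
    rw [le_principal_iff]
    exact mem_map.2 (Filter.univ_mem' h)
  obtain ⟨x, hx, hx2⟩ := isCompact_iff_ultrafilter_le_nhds.1 isCompact_Icc (U.map c) h1
  exact ⟨x, hx, hx2⟩

omit [CompactSpace M] in
theorem wl_lim {f : M ≃ₜ M} {ε : ℝ} {F : Filter ℕ} [F.NeBot] {c d : ℕ → M} {x y : M}
    (hc : Tendsto c F (𝓝 x)) (hd : Tendsto d F (𝓝 y)) (h : ∀ᶠ j in F, c j ∈ Wl f ε (d j)) :
    x ∈ Wl f ε y := by
  have h1 : Tendsto (fun j => (d j, c j)) F (𝓝 (y, x)) := hd.prodMk_nhds hc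
  exact (isClosed_wl f ε).mem_of_tendsto h1 h

/-- Limits of chains are chains. -/
theorem chm_lim {f : M ≃ₜ M} (U : Ultrafilter ℕ) {r ε : ℝ} {m B : ℕ} {κ : ℕ → ℕ} {p q : ℕ → M}
    {x y : M} (hκ : ∀ j, κ j ≤ B)
    (hc : ∀ᶠ j in (U : Filter ℕ), Chm f r m (Wl f.symm ε (p j)) (κ j) (p j) (q j))
    (hp : Tendsto p (U : Filter ℕ) (𝓝 x)) (hq : Tendsto q (U : Filter ℕ) (𝓝 y)) :
    ∃ K ≤ B, (∀ᶠ j in (U : Filter ℕ), κ j = K) ∧ Chm f r m (Wl f.symm ε x) K x y := by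
  obtain ⟨K, hKB, hK⟩ := exists_const U κ B hκ
  refine ⟨K, hKB, hK, ?_⟩
  have hc' : ∀ j, ∃ c : ℕ → M, Chm f r m (Wl f.symm ε (p j)) (κ j) (p j) (q j) →
      c 0 = p j ∧ c (κ j) = q j ∧ (∀ i ≤ κ j, c i ∈ Wl f.symm ε (p j)) ∧
      ∀ i < κ j, f^[m] (c (i + 1)) ∈ Wl f.symm r (f^[m] (c i)) := by
    intro j
    by_cases h : Chm f r m (Wl f.symm ε (p j)) (κ j) (p j) (q j)
    · obtain ⟨c, hc⟩ := h
      exact ⟨c, fun _ => hc⟩
    · exact ⟨fun _ => p j, fun h' => absurd h' h⟩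
  choose c hcc using hc'
  have hl : ∀ i, ∃ z, Tendsto (fun j => c j i) (U : Filter ℕ) (𝓝 z) := fun i =>
    exists_lim U fun j => c j i
  choose d hd using hl
  refine ⟨d, ?_, ?_, ?_, ?_⟩
  · refine tendsto_nhds_unique (hd 0) (hp.congr' ?_)
    filter_upwards [hc] with j hj
    exact (hcc j hj).1.symm
  · refine tendsto_nhds_unique (hd K) (hq.congr' ?_)
    filter_upwards [hc, hK] with j hj hj2
    rw [← hj2]
    exact (hcc j hj).2.1.symm
  · intro i hi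
    refine wl_lim (hd i) hp ?_
    filter_upwards [hc, hK] with j hj hj2
    exact (hcc j hj).2.2.1 i (by omega)
  · intro i hi
    have hcont : ∀ i, Tendsto (fun j => f^[m] (c j i)) (U : Filter ℕ) (𝓝 (f^[m] (d i))) :=
      fun i => ((f.continuous.iterate m).tendsto _).comp (hd i)
    refine wl_lim (hcont (i + 1)) (hcont i) ?_
    filter_upwards [hc, hK] with j hj hj2
    exact (hcc j hj).2.2.2 i (by omega)

end

end EquiM

open EquiM in
theorem equi (hcvch : SpecCvch.{v}) (hhts : SpecHts.{v}) : SpecEqui.{v} := by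
  intro M _ _ f ε₀ C a as bs b₀ β n Mi V R ρ K r εb δb ε L R' εh δh rB idx hC2 η hη
  obtain ⟨s1, s2, s3, s4, s5, s6, s7, s8, s9, prB, pδh, pεh, pR', pε, pδb, pεb, pr, pR, pε₀, pρ,
    hK1⟩ := C2.scales hC2
  obtain ⟨hex, huniq⟩ := hhts f ε₀ C a as bs b₀ β n Mi V R ρ K r εb δb ε L R' εh δh rB idx hC2
  have hβ : 0 ≤ β := hC2.hyb.a_pos.le.trans hC2.hyb.a_le
  have hεε₀ : ε ≤ ε₀ := by linarith
  obtain ⟨Λ₁, hΛ₁, hch₁⟩ := hcvch f ε₀ C (Real.exp (-a)) β hC2.hyb.bwd hβ ε L r hεε₀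
    hC2.L_nonneg pr
  by_contra hcon
  push Not at hcon
  have hseq : ∀ j : ℕ, ∃ x p q, dist p x ≤ rB ∧ dist q x ≤ rB ∧ dist p q ≤ 1 / ((j : ℝ) + 1) ∧
      η < |Hgh f β εh ε L ρ V idx x p - Hgh f β εh ε L ρ V idx x q| := fun j =>
    hcon _ (by positivity)
  choose x p q hp hq hpq hh using hseq
  -- the limits along an ultrafilter
  obtain ⟨U, hU⟩ : ∃ U : Ultrafilter ℕ, (U : Filter ℕ) ≤ atTop :=
    ⟨Ultrafilter.of atTop, Ultrafilter.of_le _⟩
  obtain ⟨X, hX⟩ := exists_lim U x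
  obtain ⟨P, hP⟩ := exists_lim U p
  have hQ : Tendsto q (U : Filter ℕ) (𝓝 P) := by
    refine (tendsto_iff_of_dist (f₁ := p) (f₂ := q) ?_).1 hP
    have h0 : Tendsto (fun j : ℕ => 1 / ((j : ℝ) + 1)) (U : Filter ℕ) (𝓝 0) :=
      tendsto_one_div_add_atTop_nhds_zero_nat.mono_left hU
    exact squeeze_zero (fun j => dist_nonneg) hpq h0
  obtain ⟨i, -, hi⟩ := exists_const U (fun j => idx (x j)) n fun j => (hC2.idx_lt _).le
  have hin : i < n := by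
    obtain ⟨j, hj⟩ := hi.exists
    rw [← hj]
    exact hC2.idx_lt _
  have hXi : X ∈ Mi i := by
    refine (hC2.vrt.closed i hin).mem_of_tendsto hX ?_
    filter_upwards [hi] with j hj
    rw [← hj]
    exact hC2.idx_mem _
  -- heights and projections, for both sequences
  have hlim : ∀ w : ℕ → M, (∀ j, dist (w j) (x j) ≤ rB) → Tendsto w (U : Filter ℕ) (𝓝 P) →
      ∃ W ∈ Wl f εh P, W ∈ Wl f.symm εh X ∧ ∃ τ ∈ Icc (-ρ) ρ,
        Tendsto (fun j => Hgh f β εh ε L ρ V idx (x j) (w j)) (U : Filter ℕ) (𝓝 τ) ∧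
        Chp f β r (Wl f.symm ε W) Λ₁ W (V i X X τ) := by
    intro w hw hwP
    have hH := fun j => hgh_spec (hex (x j) (w j) (by linarith [hw j]))
    choose hτ wh hwh1 hwh2 hwhc using hH
    obtain ⟨τ, hτI, hτl⟩ := exists_lim_Icc U _ (-ρ) ρ hτ
    obtain ⟨W, hW⟩ := exists_lim U wh
    refine ⟨W, wl_lim hW hwP (Eventually.of_forall hwh1),
      wl_lim hW hX (Eventually.of_forall hwh2), τ, hτI, hτl, fun m => ?_⟩
    have hchm := fun j => hch₁ _ _ (hwhc j) m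
    choose κ hκ hκc using hchm
    have hend : Tendsto (fun j => V (idx (x j)) (x j) (x j)
        (Hgh f β εh ε L ρ V idx (x j) (w j))) (U : Filter ℕ) (𝓝 (V i X X τ)) := by
      have h1 := hC2.vrt.cont i hin (X, X, τ) ⟨hXi, wl_self pR.le X, hτI⟩
      have h2 : Tendsto (fun j => (x j, x j, Hgh f β εh ε L ρ V idx (x j) (w j)))
          (U : Filter ℕ) (𝓝[{b : M × M × ℝ | b.1 ∈ Mi i ∧ b.2.1 ∈ Wl f.symm R b.1 ∧
            b.2.2 ∈ Icc (-ρ) ρ}] (X, X, τ)) := by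
        refine tendsto_nhdsWithin_iff.2 ⟨hX.prodMk_nhds (hX.prodMk_nhds hτl), ?_⟩
        filter_upwards [hi] with j hj
        refine ⟨?_, wl_self pR.le _, hτ j⟩
        rw [← hj]
        exact hC2.idx_mem _
      refine (h1.tendsto.comp h2).congr' ?_
      filter_upwards [hi] with j hj
      simp only [comp_apply, hj]
    obtain ⟨N, hNB, -, hN⟩ := chm_lim U (B := ⌊Λ₁ * Real.exp (β * m)⌋₊)
      (fun j => Nat.le_floor (hκ j)) (Eventually.of_forall hκc) hW hend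
    refine ⟨N, ?_, hN⟩
    exact (Nat.cast_le.2 hNB).trans (Nat.floor_le (by positivity))
  obtain ⟨W, hW1, hW2, τ, hτ, hτl, hWc⟩ := hlim p hp hP
  obtain ⟨W', hW'1, hW'2, τ', hτ', hτ'l, hW'c⟩ := hlim q hq hQ
  have hWW : W = W' := hC2.hyb.br.unique P X W W' (wl_mono hW1 (by linarith))
    (wl_mono hW2 (by linarith)) (wl_mono hW'1 (by linarith)) (wl_mono hW'2 (by linarith))
  subst hWW
  have hsub : Wl f.symm ε W ⊆ Wl f.symm (R / 2) X := fun z hz =>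
    wl_mono (wl_trans hz hW2) (by linarith)
  have htot : Chp f β r (Wl f.symm (R / 2) X) (Λ₁ + Λ₁) (V i X X τ) (V i X X τ') :=
    chp_trans (chp_symm (chp_mono hWc le_rfl hsub le_rfl)) (chp_mono hW'c le_rfl hsub le_rfl)
  have heq := hC2.nos i hin X hXi X (wl_self pR.le X) τ hτ τ' hτ' _ htot
  have h1 : Tendsto (fun j => |Hgh f β εh ε L ρ V idx (x j) (p j) -
      Hgh f β εh ε L ρ V idx (x j) (q j)|) (U : Filter ℕ) (𝓝 |τ - τ'|) := (hτl.sub hτ'l).abs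
  have h2 := ge_of_tendsto h1 (Eventually.of_forall fun j => (hh j).le)
  rw [heq, sub_self, abs_zero] at h2
  linarith

end Pool.Agent.Lib.MP610fe3.T5
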