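import Pool.Agent.Lib.MP_610fe3_an.T5.Spec
import Pool.Agent.Lib.MP_610fe3_an.Cf.Dec
import Pool.Agent.Lib.MP_610fe3_an.Cf.Len2
import Pool.Agent.Lib.MP_610fe3_an.Commute

/-!
# Hyperplane fields: the growth of one small step tangent to the field
-/

open Set Filter Function
open scoped Topology

namespace Pool.Agent.Lib.MP610fe3.T5

open Cf Cf.Len2 H6 T4

universe u v

section

variable {M : Type v} [MetricSpace M] [CompactSpace M] {W : Type u} [NormedAddCommGroup W]
  [NormedSpace ℝ W] {J : Emb M W} {f : M ≃ₜ M}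

/-- A common bound for the first iterates of the derivative. -/
theorem exists_iter_bound (s : Split J f) (m : ℕ) :
    ∃ B : ℝ, 1 ≤ B ∧ ∀ k ≤ m, ∀ x, ‖iterD s.D f k x‖ ≤ B := by
  induction m with
  | zero =>
    refine ⟨1, le_rfl, fun k hk x => ?_⟩
    obtain rfl : k = 0 := by omega
    exact ContinuousLinearMap.norm_id_le
  | succ m ih =>
    obtain ⟨B, hB1, hB⟩ := ih
    have hc : Continuous fun x => ‖iterD s.D f (m + 1) x‖ :=
      (continuous_iterD s.hD.cont f.continuous (m + 1)).norm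
    obtain ⟨B', hB'⟩ := (isCompact_range hc).bddAbove
    refine ⟨max B B', hB1.trans (le_max_left _ _), fun k hk x => ?_⟩
    rcases Nat.lt_or_ge k (m + 1) with h | h
    · exact (hB k (by omega) x).trans (le_max_left _ _)
    · obtain rfl : k = m + 1 := by omega
      exact (hB' ⟨x, rfl⟩).trans (le_max_right _ _)

/-- A common scale for the linear approximation of the first iterates. -/
theorem exists_iter_approx (s : Split J f) {η : ℝ} (hη : 0 < η) (m : ℕ) :
    ∃ r : ℝ, 0 < r ∧ ∀ k ≤ m, ∀ x z, dist z x < r →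
      ‖J.e (f^[k] z) - J.e (f^[k] x) - iterD s.D f k x (J.e z - J.e x)‖ ≤ η * dist z x := by
  induction m with
  | zero =>
    obtain ⟨r, hr, h⟩ := hasD_iter_approx s 0 η hη
    refine ⟨r, hr, fun k hk x z hz => ?_⟩
    obtain rfl : k = 0 := by omega
    exact h x z hz
  | succ m ih =>
    obtain ⟨r, hr, h⟩ := ih
    obtain ⟨r', hr', h'⟩ := hasD_iter_approx s (m + 1) η hη
    refine ⟨min r r', lt_min hr hr', fun k hk x z hz => ?_⟩
    rcases Nat.lt_or_ge k (m + 1) with h1 | h1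
    · exact h k (by omega) x z (hz.trans_le (min_le_left _ _))
    · obtain rfl : k = m + 1 := by omega
      exact h' x z (hz.trans_le (min_le_right _ _))

end

/-- Module ESTEP. -/
theorem estep : SpecEstep.{u, v} := by
  intro M _ _ W _ _ _ J f s F n Mi e θ K δ η α δ' β C₀ hs hF hFrm hSlp hβ hC₀ hgrow
  obtain ⟨KU, hKU1, hKU⟩ := s.exists_bdd
  have hKU0 : 0 < KU := by linarith
  obtain ⟨rU, hrU, hUc⟩ := exists_unif (s.continuous_U hs) (show (0 : ℝ) < 1 / 2 by norm_num)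
  obtain ⟨εD, CD, lD, hdec⟩ := exists_dec s.swap hs.swap
  have hCD := hdec.one_le
  have hεD := hdec.ε_pos
  have hδ' := hSlp.δ_pos
  refine ⟨min (min (rU / 2) (εD / 2)) δ', by positivity, fun Ψ ε R₁ K₁ hε hΨ => ?_⟩
  have hε1 : ε < rU := by
    have : ε ≤ rU / 2 := hε.trans ((min_le_left _ _).trans (min_le_left _ _))
    linarith
  have hε2 : ε + ε ≤ εD := by
    have : ε ≤ εD / 2 := hε.trans ((min_le_left _ _).trans (min_le_right _ _))
    linarith
  have hε3 : ε ≤ δ' := hε.trans (min_le_right _ _)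
  have hK := hFrm.one_le
  have hK₁ := hΨ.one_le
  have hR₁ := hΨ.R₁_pos
  refine ⟨4 * C₀ + 2, by positivity, fun m => ?_⟩
  obtain ⟨B, hB1, hB⟩ := exists_iter_bound s m
  set A : ℝ := 1 + 2 * KU with hA
  have hA0 : 0 < A := by positivity
  set η' : ℝ := 1 / (8 * B * A) with hη'
  have hη'0 : 0 < η' := by positivity
  have hη'A : A * η' ≤ 1 / 2 := by
    have : A * η' = 1 / (8 * B) := by
      rw [hη']
      field_simp
    rw [this, div_le_div_iff₀ (by positivity) (by norm_num)]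
    linarith
  obtain ⟨εc, hεc, hcone⟩ := exists_cone s.swap hs.swap hη'0
  obtain ⟨ra, hra, happ⟩ := exists_iter_approx s (show (0 : ℝ) < 1 / 8 by norm_num) m
  set ρm : ℝ := min (R₁ / (2 * (1 + K))) (min (εc / CD) (ra / 2) / (K₁ * (1 + K))) with hρm
  refine ⟨ρm, by positivity, fun i hi x hx u h hUu hu hUh hθh hh k hk => ?_⟩
  set z : M := Ψ x u with hz
  have huR : ‖u‖ ≤ R₁ := hu.trans (by linarith)
  have hzW : z ∈ Wl f.symm ε x := hΨ.mem x u hUu huR
  have hzx : dist z x ≤ ε := Wl_dist hzW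
  set a : ℝ := α i x z h with ha
  have hale : |a| ≤ ‖h‖ := hSlp.le i hi x hx z (hzx.trans hε3) h hUh hθh
  obtain ⟨v, hvF, hvU, hv⟩ := hSlp.ex i hi x hx z (hzx.trans hε3) h hUh hθh
  set u' : W := u + h + a • e i x with hu'
  have heU := hFrm.e_U i hi x hx
  have he := hFrm.e_le i hi x hx
  have hUu' : s.U x u' = u' := by
    rw [hu', map_add, map_add, map_smul, hUu, hUh, heU]
  have hdiff : u' - u = h + a • e i x := by rw [hu']; abel
  have hnorm : ‖u' - u‖ ≤ (1 + K) * ‖h‖ := by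
    rw [hdiff]
    refine (norm_add_le _ _).trans ?_
    rw [norm_smul, Real.norm_eq_abs]
    have : |a| * ‖e i x‖ ≤ ‖h‖ * K := mul_le_mul hale he (norm_nonneg _) (norm_nonneg _)
    linarith
  have hh1 : (1 + K) * ‖h‖ ≤ R₁ / 2 := by
    have h1 : ‖h‖ ≤ R₁ / (2 * (1 + K)) := hh.trans (min_le_left _ _)
    calc (1 + K) * ‖h‖ ≤ (1 + K) * (R₁ / (2 * (1 + K))) := by gcongr
      _ = R₁ / 2 := by field_simp
  have hu'R : ‖u'‖ ≤ R₁ := by
    have h1 : u' = u + (u' - u) := by abel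
    rw [h1]
    refine (norm_add_le _ _).trans ?_
    linarith
  set z' : M := Ψ x u' with hz'
  have hz'W : z' ∈ Wl f.symm ε x := hΨ.mem x u' hUu' hu'R
  have hzz' : z' ∈ Wl f.symm εD z := Wl_mono hε2 (Wl_trans (Wl_comm hzW) hz'W)
  have hd1 : dist z' z ≤ K₁ * ((1 + K) * ‖h‖) :=
    (hΨ.lip x u' u hUu' hu'R hUu huR).trans (by gcongr)
  have hd2 : dist z' z ≤ min (εc / CD) (ra / 2) := by
    have h1 : ‖h‖ ≤ min (εc / CD) (ra / 2) / (K₁ * (1 + K)) := hh.trans (min_le_right _ _)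
    calc dist z' z ≤ K₁ * ((1 + K) * ‖h‖) := hd1
      _ = K₁ * (1 + K) * ‖h‖ := by ring
      _ ≤ K₁ * (1 + K) * (min (εc / CD) (ra / 2) / (K₁ * (1 + K))) := by gcongr
      _ = min (εc / CD) (ra / 2) := by field_simp
  have hmem : z' ∈ Wl f.symm εc z := by
    intro j
    refine (hdec.dec z z' hzz' j).trans ?_
    have h3 : lD ^ j ≤ 1 := pow_le_one₀ hdec.l_pos.le hdec.l_lt.le
    have h4 : 0 ≤ lD ^ j := pow_nonneg hdec.l_pos.le j
    have h5 : dist z' z ≤ εc / CD := hd2.trans (min_le_left _ _)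
    calc CD * lD ^ j * dist z' z ≤ CD * 1 * (εc / CD) := by gcongr
      _ = εc := by field_simp
  set d : W := J.e z' - J.e z with hd
  have hdd : ‖d‖ = dist z' z := (J.dist_eq z' z).symm
  have hc1 : ‖d - s.U z d‖ ≤ η' * ‖d‖ := by
    have h1 := hcone z z' hmem
    rw [Split.swap_S] at h1
    rw [hdd]
    exact h1
  have hUd : s.U x d = s.U x v := by
    have h1 := hΨ.eq x u hUu huR
    have h2 := hΨ.eq x u' hUu' hu'R
    have h3 : d = (J.e z' - J.e x) - (J.e z - J.e x) := by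
      rw [hd]
      abel
    rw [h3, map_sub, h1, h2, hdiff, hvU]
  have hra' : dist z' z < ra := by
    have : dist z' z ≤ ra / 2 := hd2.trans (min_le_right _ _)
    linarith
  have hap : ‖J.e (f^[k] z') - J.e (f^[k] z) - iterD s.D f k z d‖ ≤ 1 / 8 * dist z' z :=
    happ k hk z z' hra'
  clear_value d
  have hvz : s.U z v = v := hF.sub z v hvF
  -- `d - v` is small
  set w : W := s.U z d - v with hw
  have hUzw : s.U z w = w := by
    rw [hw, map_sub, s.UU_apply, hvz]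
  have hUxw : ‖s.U x w‖ ≤ KU * (η' * ‖d‖) := by
    have h1 : s.U x w = - s.U x (d - s.U z d) := by
      rw [hw, map_sub, map_sub, hUd]
      abel
    rw [h1, norm_neg]
    exact ((s.U x).le_opNorm _).trans (mul_le_mul (hKU x).2 hc1 (norm_nonneg _) hKU0.le)
  have hwle : ‖w‖ ≤ 2 * KU * (η' * ‖d‖) := by
    have h1 : ‖s.U z w - s.U x w‖ ≤ 1 / 2 * ‖w‖ := by
      have h2 := hUc x z (hzx.trans_lt hε1)
      have h3 : s.U z w - s.U x w = (s.U z - s.U x) w := rfl
      rw [h3]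
      exact ((s.U z - s.U x).le_opNorm w).trans
        (mul_le_mul_of_nonneg_right h2 (norm_nonneg _))
    have h2 : w = (s.U z w - s.U x w) + s.U x w := by
      rw [sub_add_cancel, hUzw]
    have h3 : ‖w‖ ≤ ‖s.U z w - s.U x w‖ + ‖s.U x w‖ := by
      conv_lhs => rw [h2]
      exact norm_add_le _ _
    linarith
  have hdv : ‖d - v‖ ≤ A * η' * ‖d‖ := by
    have h1 : d - v = (d - s.U z d) + w := by
      rw [hw]
      abel
    rw [h1]
    refine (norm_add_le _ _).trans ?_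
    calc ‖d - s.U z d‖ + ‖w‖ ≤ η' * ‖d‖ + 2 * KU * (η' * ‖d‖) := add_le_add hc1 hwle
      _ = A * η' * ‖d‖ := by rw [hA]; ring
  have hd8 : ‖d‖ ≤ 8 * ‖h‖ := by
    have h1 : d = v + (d - v) := by abel
    have h2 : ‖d‖ ≤ ‖v‖ + ‖d - v‖ := by
      conv_lhs => rw [h1]
      exact norm_add_le _ _
    have h3 : A * η' * ‖d‖ ≤ 1 / 2 * ‖d‖ := by gcongr
    linarith
  -- the iterates
  have hexp : 1 ≤ Real.exp (β * k) := Real.one_le_exp (by positivity)
  have hDv : ‖iterD s.D f k z v‖ ≤ C₀ * Real.exp (β * k) * (4 * ‖h‖) :=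
    (hgrow k z v hvF).trans (by gcongr)
  have hDdv : ‖iterD s.D f k z (d - v)‖ ≤ ‖h‖ := by
    refine ((iterD s.D f k z).le_opNorm _).trans ?_
    calc ‖iterD s.D f k z‖ * ‖d - v‖ ≤ B * (A * η' * (8 * ‖h‖)) := by
          have h1 := hB k hk z
          have h2 : ‖d - v‖ ≤ A * η' * (8 * ‖h‖) := hdv.trans (by gcongr)
          gcongr
      _ = ‖h‖ := by
          rw [hη']
          field_simp
  rw [J.dist_eq]
  have hsum : J.e (f^[k] z') - J.e (f^[k] z) =
      (J.e (f^[k] z') - J.e (f^[k] z) - iterD s.D f k z d) + iterD s.D f k z (d - v) +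
        iterD s.D f k z v := by
    rw [map_sub]
    abel
  rw [hsum]
  refine (norm_add_le _ _).trans ((add_le_add (norm_add_le _ _) le_rfl).trans ?_)
  have h1 : ‖J.e (f^[k] z') - J.e (f^[k] z) - iterD s.D f k z d‖ ≤ ‖h‖ := by
    refine hap.trans ?_
    rw [← hdd]
    linarith
  have h2 : 0 ≤ ‖h‖ := norm_nonneg _
  nlinarith

end Pool.Agent.Lib.MP610fe3.T5
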