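import Pool.Agent.Lib.MP_610fe3_an.T5.Reach0

/-!
# Module EUL: from polygons to chains
-/

open Set Filter Function
open scoped Topology

namespace Pool.Agent.Lib.MP610fe3.T5

open Cf H6 T4 RefM Reach0M

universe v

theorem eul : SpecEul.{v} := by
  intro M _ _ f ε₀ C a as bs b₀ β n Mi V R ρ K P T L h hV hP hKR r hr
  have hC : 1 ≤ C := h.br.one_le
  have hC0 : 0 ≤ C := zero_le_one.trans hC
  have hL := hP.L_nonneg
  have hβ : 0 ≤ β := h.a_pos.le.trans h.a_le
  refine ⟨C * L / r + 2, by positivity, fun i hi x hx p hp m => ?_⟩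
  obtain ⟨N₀, hN₀⟩ := hP.step m
  have hB : 1 ≤ Real.exp (β * m) := Real.one_le_exp (by positivity)
  obtain ⟨G, hG, hG1, hG2⟩ := exists_pieces (A := C * L) (r := r) (B := Real.exp (β * m))
    (by positivity) hr hB
  have hG' : (0 : ℝ) < G := by exact_mod_cast hG
  set s : ℕ := N₀ + 1 with hs
  have hs0 : 0 < s := Nat.succ_pos _
  have hs' : (0 : ℝ) < s := by exact_mod_cast hs0
  set N : ℕ := s * G with hN
  have hN0 : 0 < N := Nat.mul_pos hs0 hG
  have hNN : N₀ ≤ N := (Nat.le_succ N₀).trans (Nat.le_mul_of_pos_right _ hG)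
  refine ⟨T i x p N, hP.T_cont i hi x hx p hp N hN0, fun z hz => ⟨hP.T_mem i hi x hx p hp z hz N hN0,
    hP.T_near i hi x hx p hp z hz N hN0, G, hG2, ?_⟩⟩
  -- distances between vertices
  have hd : ∀ k ≤ m, ∀ j l : ℕ, j + l ≤ N →
      dist (f^[k] (P i x p N z (j + l))) (f^[k] (P i x p N z j)) ≤
        l * (L * Real.exp (β * k) * (1 / N)) := by
    intro k hk j l
    induction l with
    | zero => intro _; simp
    | succ l ih =>
      intro hl
      have h1 := ih (by omega)
      have h2 := hN₀ N hNN hN0 i hi x hx p hp z hz k hk (j + l) (by omega)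
      refine (dist_triangle _ (f^[k] (P i x p N z (j + l))) _).trans ?_
      push_cast
      rw [add_assoc] at h2
      linarith
  have hmem : ∀ j ≤ N, P i x p N z j ∈ Wl f.symm (K * R) x := fun j hj =>
    hP.mem i hi x hx R le_rfl p hp z hz N hN0 j hj
  have hNr : (s : ℝ) * (1 / N) = 1 / G := by
    rw [hN]
    push_cast
    field_simp
  refine ⟨fun l => P i x p N z (s * l), ?_, ?_, fun _ _ => mem_univ _, fun l hl => ?_⟩
  · change P i x p N z (s * 0) = z
    rw [mul_zero]
    exact hP.start i hi x hx p hp z hz N hN0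
  · exact hP.stop i hi x hx p hp z hz N hN0
  · have h1 : s * l + s ≤ N := by
      rw [hN]
      calc s * l + s = s * (l + 1) := by ring
        _ ≤ s * G := Nat.mul_le_mul_left _ hl
    have h2 : s * (l + 1) = s * l + s := by ring
    have h3 : ∀ k ≤ m, dist (f^[k] (P i x p N z (s * (l + 1)))) (f^[k] (P i x p N z (s * l))) ≤
        L * Real.exp (β * k) / G := by
      intro k hk
      have h4 := hd k hk (s * l) s h1
      rw [h2]
      refine h4.trans (le_of_eq ?_)
      calc (s : ℝ) * (L * Real.exp (β * k) * (1 / N)) =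
          L * Real.exp (β * k) * ((s : ℝ) * (1 / N)) := by ring
        _ = L * Real.exp (β * k) / G := by rw [hNr]; ring
    have h5 : ∀ k ≤ m, L * Real.exp (β * k) / G ≤ L * Real.exp (β * m) / G := by
      intro k hk
      have h6 : (k : ℝ) ≤ m := by exact_mod_cast hk
      gcongr
    have h7 : C * (L * Real.exp (β * m) / G) ≤ r := by
      refine le_trans (le_of_eq ?_) hG1
      ring
    have h8 : L * Real.exp (β * m) / G ≤ r :=
      (le_mul_of_one_le_left (by positivity) hC).trans h7
    refine wl_of_close h.bwd ?_ ?_ fun k hk => ((h3 k hk).trans (h5 k hk)).trans h8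
    · have h9 := H1.wl_trans (hmem (s * (l + 1)) (by rw [h2]; exact h1))
        (H1.wl_symm (hmem (s * l) (by omega)))
      exact H1.wl_mono h9 (by linarith)
    · have h9 := (h3 0 (Nat.zero_le _)).trans (h5 0 (Nat.zero_le _))
      simp only [iterate_zero, id_eq] at h9
      exact (mul_le_mul_of_nonneg_left h9 hC0).trans h7

end Pool.Agent.Lib.MP610fe3.T5
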