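import Pool.Agent.Lib.MP_610fe3_an.T5.Cvch

/-!
# Modules LEMU and HTS: curves between cheap points, heights (helper38)
-/

open Set Filter Function
open scoped Topology

namespace Pool.Agent.Lib.MP610fe3.T5

open Cf H6 T4

universe v

namespace HtsM

variable {M : Type*} [MetricSpace M] {f : M ≃ₜ M} {ε₀ C a as bs b₀ β : ℝ} {n : ℕ}
  {Mi : ℕ → Set M} {V : ℕ → M → M → ℝ → M} {R ρ K r εb δb ε L R' εh δh rB : ℝ} {idx : M → ℕ}

/-- The scales are ordered. -/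
theorem scales (h : C2 f ε₀ C a as bs b₀ β n Mi V R ρ K r εb δb ε L R' εh δh rB idx) :
    εh ≤ R' ∧ R' ≤ ε ∧ 16 * ε ≤ δb ∧ δb ≤ εb ∧ 16 * εb ≤ r ∧ r ≤ R ∧ 8 * R ≤ ε₀ ∧ 0 < εh ∧
      0 < R' ∧ 0 < ε ∧ 0 < δb ∧ 0 < εb ∧ 0 < r ∧ 0 < R := by
  have h1 := h.R_le
  have h2 := h.vrt.ρ_pos
  have h3 := h.vrt.one_le
  have h4 : 0 ≤ K * (2 * ρ) := by positivity
  refine ⟨h.εh_le, h.R'_le, h.ε_le, h.δb_le, h.εb_le, h.r_le, by linarith, h.εh_pos, h.R'_pos,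
    h.ε_pos, h.δb_pos, h.εb_pos, h.r_pos, h.vrt.R_pos⟩

/-- A slow curve gives a cheap pair, for the step `r` of `C2`, in the unstable set of a point
nearby. -/
theorem chp_of_cv (h : C2 f ε₀ C a as bs b₀ β n Mi V R ρ K r εb δb ε L R' εh δh rB idx)
    {r' : ℝ} (hr' : 0 < r') {x p z : M} {e : ℝ} (hp : p ∈ Wl f.symm e x) (hc : Cv f β ε L p z) :
    ∃ Λ, Chp f β r' (Wl f.symm (e + ε) x) Λ p z := by
  obtain ⟨s1, s2, s3, s4, s5, s6, s7, p1, p2, p3, p4, p5, p6, p7⟩ := scales h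
  obtain ⟨Λ, -, hΛ⟩ := cvch f ε₀ C _ β h.hyb.bwd (h.hyb.a_pos.le.trans h.hyb.a_le) ε L r'
    (by linarith) h.L_nonneg hr'
  exact ⟨Λ, CvchM.chp_mono (hΛ p z hc) (fun q hq => Wl_trans hp hq) le_rfl le_rfl⟩

end HtsM

/-- Module LEMU: cheap pairs are joined by curves. -/
theorem lemU : SpecLemU.{v} := by
  intro M _ _ f ε₀ C a as bs b₀ β n Mi V R ρ K r εb δb ε L R' εh δh rB idx h i hi x hx p hp z hz
    Λ hch
  obtain ⟨s1, s2, s3, s4, s5, s6, s7, p1, p2, p3, p4, p5, p6, p7⟩ := HtsM.scales h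
  obtain ⟨τ, hτ, hcv⟩ := h.tan i hi x hx z hz p hp
  obtain ⟨Λ', hΛ'⟩ := HtsM.chp_of_cv h p6 hp hcv
  have hzR : z ∈ Wl f.symm R x := Wl_mono (by linarith) hz
  have hρ := h.vrt.ρ_pos
  have h1 := CvchM.chp_trans
    (CvchM.chp_mono (CvchM.chp_symm hch) (D' := Wl f.symm (R / 2) x)
      (Wl_mono (by linarith)) le_rfl le_rfl)
    (CvchM.chp_mono hΛ' (D' := Wl f.symm (R / 2) x) (Wl_mono (by linarith)) le_rfl le_rfl)
  have h0 := h.vrt.zero i hi x hx z hzR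
  rw [← h0] at h1
  have h2 : V i x (V i x z 0) τ = V i x z τ := by rw [h0]
  rw [h2] at h1
  have h3 := h.nos i hi x hx z hzR 0 ⟨by linarith, hρ.le⟩ τ hτ _ h1
  rw [← h3, h0] at hcv
  exact hcv

/-- Module HTS: existence and uniqueness of the height. -/
theorem hts : SpecHts.{v} := by
  intro M _ _ f ε₀ C a as bs b₀ β n Mi V R ρ K r εb δb ε L R' εh δh rB idx h
  obtain ⟨s1, s2, s3, s4, s5, s6, s7, p1, p2, p3, p4, p5, p6, p7⟩ := HtsM.scales h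
  constructor
  · intro x p hd
    obtain ⟨q, hq1, hq2⟩ := h.br_h p x hd
    obtain ⟨τ, hτ, hcv⟩ := h.tan (idx x) (h.idx_lt x) x (h.idx_mem x) x (mem_Wl_self p2.le)
      q (Wl_mono s1 hq2)
    exact ⟨τ, hτ, q, hq1, hq2, hcv⟩
  · rintro x p τ τ' ⟨hτ, q, hq1, hq2, hcv⟩ ⟨hτ', q', hq1', hq2', hcv'⟩
    have he : εh ≤ ε₀ := by linarith
    have hqq : q = q' := h.hyb.br.unique p x q q' (Wl_mono he hq1) (Wl_mono he hq2)
      (Wl_mono he hq1') (Wl_mono he hq2')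
    subst hqq
    obtain ⟨Λ, hΛ⟩ := HtsM.chp_of_cv h p6 hq2 hcv
    obtain ⟨Λ', hΛ'⟩ := HtsM.chp_of_cv h p6 hq2 hcv'
    have h1 := CvchM.chp_trans
      (CvchM.chp_mono (CvchM.chp_symm hΛ) (D' := Wl f.symm (R / 2) x)
        (Wl_mono (by linarith)) le_rfl le_rfl)
      (CvchM.chp_mono hΛ' (D' := Wl f.symm (R / 2) x) (Wl_mono (by linarith)) le_rfl le_rfl)
    exact h.nos (idx x) (h.idx_lt x) x (h.idx_mem x) x (mem_Wl_self p7.le) τ hτ τ' hτ' _ h1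

end Pool.Agent.Lib.MP610fe3.T5
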