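import Pool.Agent.Lib.MP_610fe3_an.T5.Conn
import Pool.Agent.Lib.MP_610fe3_an.Cf.H1Wl

/-!
# Module INV: the plaque relation is invariant (helper55)
-/

open Set Filter Function
open scoped Topology

universe v

namespace Pool.Agent.Lib.MP610fe3.T5.InvM

open Cf H6 T4 ConnM

variable {M : Type v} [MetricSpace M] {f : M ≃ₜ M} {ε₀ C a as bs b₀ β : ℝ} {n : ℕ}
  {Mi : ℕ → Set M} {V : ℕ → M → M → ℝ → M} {R ρ K r εb δb ε L R' εh δh rB : ℝ} {idx : M → ℕ}

theorem chp_mono {r Λ : ℝ} {D D' : Set M} (hD : D ⊆ D') {p q : M} (h : Chp f β r D Λ p q) :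
    Chp f β r D' Λ p q := by
  intro m
  obtain ⟨K, hK, c, h0, h1, h2, h3⟩ := h m
  exact ⟨K, hK, c, h0, h1, fun i hi => hD (h2 i hi), h3⟩

/-- The image of a curve. -/
theorem cv_map (hu : ∀ x y, dist x y ≤ 4 * ε → dist (f x) (f y) ≤ εb) (hε : 0 < ε)
    (hεb : ε ≤ εb) {p z : M} (h : Cv f β ε L p z) :
    Cv f β εb (L * Real.exp β) (f p) (f z) := by
  obtain ⟨γ, h0, h1, hγ⟩ := h
  refine ⟨fun t => f (γ t), by simp [h0], by simp [h1], fun t ht t' ht' => ?_⟩
  obtain ⟨h2, h3⟩ := hγ t ht t' ht'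
  refine ⟨H1.wl_back (Wl_mono hεb h2) (hu _ _ ((Wl_dist h2).trans (by linarith))),
    fun k => ?_⟩
  have h4 := h3 (k + 1)
  rw [iterate_succ_apply, iterate_succ_apply] at h4
  have h5 : Real.exp (β * ((k + 1 : ℕ) : ℝ)) = Real.exp β * Real.exp (β * k) := by
    rw [← Real.exp_add]
    push_cast
    ring_nf
  rw [h5] at h4
  linarith

/-- The preimage of a curve. -/
theorem cv_symm {θ : ℝ} (hD : Dec f.symm ε₀ C θ) (hε₀ : ε ≤ ε₀) (hL : 0 ≤ L) (hβ : 0 ≤ β) {p z : M}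
    (h : Cv f β ε L p z) : Cv f β ε (C * L) (f.symm p) (f.symm z) := by
  have hC := hD.one_le
  obtain ⟨γ, h0, h1, hγ⟩ := h
  refine ⟨fun t => f.symm (γ t), by simp [h0], by simp [h1], fun t ht t' ht' => ?_⟩
  obtain ⟨h2, h3⟩ := hγ t ht t' ht'
  refine ⟨Wl_map h2, fun k => ?_⟩
  cases k with
  | zero =>
    have h4 := hD.dec _ _ (Wl_mono hε₀ h2) 1
    have h5 := h3 0
    simp only [iterate_one, pow_one] at h4
    simp only [iterate_zero, id_eq, Nat.cast_zero, mul_zero, Real.exp_zero, mul_one] at h5 ⊢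
    have h6 : C * θ * dist (γ t) (γ t') ≤ C * 1 * (L * |t - t'|) := by
      have := hD.l_pos
      have := hD.l_lt
      gcongr
    linarith
  | succ k =>
    have h4 := h3 k
    rw [iterate_succ_apply, iterate_succ_apply, f.apply_symm_apply, f.apply_symm_apply]
    refine h4.trans ?_
    have h5 : Real.exp (β * k) ≤ Real.exp (β * ((k + 1 : ℕ) : ℝ)) := by
      refine Real.exp_le_exp.2 (mul_le_mul_of_nonneg_left ?_ hβ)
      push_cast
      linarith
    have h6 : L ≤ C * L := le_mul_of_one_le_left hL hC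
    have := Real.exp_pos (β * k)
    gcongr

/-- Curves with large constants are replaced by good curves. -/
theorem improve [CompactSpace M] (hC : SpecCvch.{v}) (hU : SpecLemU.{v})
    (h : C2 f ε₀ C a as bs b₀ β n Mi V R ρ K r εb δb ε L R' εh δh rB idx) {e L' : ℝ}
    (he : e ≤ εb) (hL' : 0 ≤ L') {p z : M} (hz : z ∈ Wl f.symm εh p) (hcv : Cv f β e L' p z) :
    Cv f β ε L p z := by
  obtain ⟨-, h1, h2, h3, h4, h5⟩ := eps_le h
  have hβ : 0 ≤ β := h.hyb.a_pos.le.trans h.hyb.a_le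
  have hr := h.r_pos
  have hR := h.r_le
  have h6 := h.εb_pos
  obtain ⟨Λ, -, hΛ⟩ := hC f ε₀ C _ β h.hyb.bwd hβ e L' r (he.trans h1) hL' hr
  have h7 := chp_mono (D' := Wl f.symm (R / 4) p) (Wl_mono (by linarith)) (hΛ p z hcv)
  exact hU f ε₀ C a as bs b₀ β n Mi V R ρ K r εb δb ε L R' εh δh rB idx h (idx p)
    (h.idx_lt p) p (h.idx_mem p) p (mem_Wl_self h.R'_pos.le) z (Wl_mono h.εh_le hz) Λ h7

theorem specInv (hC : SpecCvch.{v}) (hU : SpecLemU.{v}) : SpecInv.{v} := by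
  intro M _ _ f ε₀ C a as bs b₀ β n Mi V R ρ K r εb δb ε L R' εh δh rB idx h p q hpq hfpq
  obtain ⟨-, he1, he2, he3, he4, he5⟩ := eps_le h
  have hβ : 0 ≤ β := h.hyb.a_pos.le.trans h.hyb.a_le
  have hε := h.ε_pos
  have hεh := h.εh_pos
  have hεb := h.εb_pos
  have hrB := h.rB_le
  have hrB0 := h.rB_pos
  have hL := h.L_nonneg
  have hC1 : 1 ≤ C := h.hyb.fwd.one_le
  constructor
  · rintro ⟨z, hzq, hzp, hcv⟩
    obtain ⟨z', hz'q, hz'p⟩ := h.br_h (f q) (f p) (by rw [dist_comm]; linarith)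
    have h1 : f z ∈ Wl f εh (f q) := Wl_map hzq
    have h2 : f z ∈ Wl f.symm εb (f p) :=
      H1.wl_back (Wl_mono (by linarith) hzp) ((h.unif z p ((Wl_dist hzp).trans (by linarith))).1)
    have h3 : z' = f z := h.hyb.br.unique (f q) (f p) z' (f z)
      (Wl_mono (by linarith) hz'q) (Wl_mono (by linarith) hz'p) (Wl_mono (by linarith) h1)
      (Wl_mono he1 h2)
    subst h3
    refine ⟨f z, hz'q, hz'p, improve hC hU h le_rfl (by positivity) hz'p
      (cv_map (fun x y hxy => (h.unif x y hxy).1) hε (by linarith) hcv)⟩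
  · rintro ⟨z', hz'q, hz'p, hcv⟩
    obtain ⟨z, hzq, hzp⟩ := h.br_h q p (by rw [dist_comm]; linarith)
    have h1 : f.symm z' ∈ Wl f.symm εh p := by
      have := Wl_map hz'p
      rwa [f.symm_apply_apply] at this
    have h2 : f.symm z' ∈ Wl f εb q := by
      intro k
      cases k with
      | zero =>
        have := (h.unif z' (f q) ((Wl_dist hz'q).trans (by linarith))).2
        rwa [f.symm_apply_apply] at this
      | succ k =>
        rw [iterate_succ_apply, iterate_succ_apply, f.apply_symm_apply]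
        exact (hz'q k).trans (by linarith)
    have h3 : z = f.symm z' := h.hyb.br.unique q p z (f.symm z')
      (Wl_mono (by linarith) hzq) (Wl_mono (by linarith) hzp) (Wl_mono he1 h2)
      (Wl_mono (by linarith) h1)
    have h4 := cv_symm h.hyb.bwd he2 hL hβ hcv
    rw [f.symm_apply_apply, ← h3] at h4
    exact ⟨z, hzq, hzp, improve hC hU h (by linarith) (by positivity) hzp h4⟩

end Pool.Agent.Lib.MP610fe3.T5.InvM

/-- Module INV. -/
theorem Pool.Agent.Lib.MP610fe3.T5.inv (hC : Pool.Agent.Lib.MP610fe3.T5.SpecCvch.{v})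
    (hU : Pool.Agent.Lib.MP610fe3.T5.SpecLemU.{v}) : Pool.Agent.Lib.MP610fe3.T5.SpecInv.{v} :=
  Pool.Agent.Lib.MP610fe3.T5.InvM.specInv hC hU
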