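import Pool.Agent.Lib.MP_610fe3_an.T5.Spec
import Pool.Agent.Lib.MP_610fe3_an.Cf.H1Wl

/-!
# Module LOC2: the plaque relation defines local data of codimension one
-/

open Set Filter Function
open scoped Topology

namespace Pool.Agent.Lib.MP610fe3.T5

open Cf H6 T4 Cf.H1

universe u v w

namespace Loc2M

variable {M : Type*} [MetricSpace M]

/-- Constant curves. -/
theorem cv_self (f : M ≃ₜ M) {β ε L : ℝ} (hε : 0 ≤ ε) (hL : 0 ≤ L) (p : M) :
    Cv f β ε L p p :=
  ⟨fun _ => p, rfl, rfl, fun t _ t' _ => ⟨wl_self hε p, fun k => by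
    rw [dist_self]
    exact mul_nonneg (mul_nonneg hL (Real.exp_pos _).le) (abs_nonneg _)⟩⟩

end Loc2M

open Loc2M

theorem loc2 (hHts : SpecHts.{v}) (hEiff : SpecEiff.{v}) (hEqui : SpecEqui.{v})
    (hInv : SpecInv.{v}) (hConn : SpecConn.{v}) : SpecLoc2.{v} := by
  intro M _ _ f ε₀ C a as bs b₀ β n Mi V R ρ K r εb δb ε L R' εh δh rB idx h
  have hR0 : 0 < R := h.vrt.R_pos
  have hρ0 : 0 < ρ := h.vrt.ρ_pos
  have hK1 : 1 ≤ K := h.vrt.one_le
  have hK0 : 0 < K := lt_of_lt_of_le one_pos hK1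
  have hε0 : 0 < ε := h.ε_pos
  have hεh0 : 0 < εh := h.εh_pos
  have hrB0 : 0 < rB := h.rB_pos
  -- comparison of scales
  have hKρ : 0 ≤ K * (2 * ρ) := by positivity
  have h1 := h.R_le
  have h2 := h.r_le
  have h3 := h.εb_le
  have h4 := h.δb_le
  have h5 := h.ε_le
  have h6 := h.R'_le
  have h7 := h.εh_le
  have h8 := h.δh_le
  have h9 := h.rB_le
  have h10 := h.εb_pos
  have h11 := h.δb_pos
  have h12 := h.δh_pos
  have hεhε₀ : εh ≤ ε₀ := by linarith
  have hrBεh : rB ≤ εh := by linarith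
  have hrBε₀ : rB ≤ ε₀ := by linarith
  obtain ⟨-, hU⟩ := hHts f ε₀ C a as bs b₀ β n Mi V R ρ K r εb δb ε L R' εh δh rB idx h
  -- the height is determined by `Hts`
  have hgh : ∀ x p τ, Hts f β εh ε L ρ V idx x p τ → Hgh f β εh ε L ρ V idx x p = τ := by
    intro x p τ hτ
    have hex : ∃ τ, Hts f β εh ε L ρ V idx x p τ := ⟨τ, hτ⟩
    unfold Hgh
    rw [dif_pos hex]
    exact hU x p _ _ hex.choose_spec hτ
  have hxR : ∀ x : M, x ∈ Wl f.symm R x := fun x => wl_self hR0.le x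
  have hV0 : ∀ x, V (idx x) x x 0 = x := fun x =>
    h.vrt.zero (idx x) (h.idx_lt x) x (h.idx_mem x) x (hxR x)
  have hmin : 0 < min ρ (εh / K) := lt_min hρ0 (by positivity)
  have h0mem : (0 : ℝ) ∈ Icc (-ρ) ρ := ⟨by linarith, hρ0.le⟩
  have hmem : ∀ t ∈ Icc (-(min ρ (εh / K))) (min ρ (εh / K)), t ∈ Icc (-ρ) ρ := by
    intro t ht
    have hm : min ρ (εh / K) ≤ ρ := min_le_left _ _
    exact ⟨by linarith [ht.1], by linarith [ht.2]⟩
  refine ⟨?_, ?_⟩
  · refine
      { r₀_pos := hrB0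
        ρ₀_pos := hmin
        H_self := ?_
        E_iff := ?_
        equi := ?_
        inv := ?_
        stab := ?_
        conn := ?_
        Q_zero := hV0
        Q_H := ?_
        Q_equi := ?_ }
    · intro x
      refine hgh x x 0 ⟨h0mem, x, wl_self hεh0.le x, wl_self hεh0.le x, ?_⟩
      rw [hV0 x]
      exact cv_self f hε0.le h.L_nonneg x
    · exact hEiff f ε₀ C a as bs b₀ β n Mi V R ρ K r εb δb ε L R' εh δh rB idx h
    · exact hEqui f ε₀ C a as bs b₀ β n Mi V R ρ K r εb δb ε L R' εh δh rB idx h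
    · exact hInv f ε₀ C a as bs b₀ β n Mi V R ρ K r εb δb ε L R' εh δh rB idx h
    · intro x y hy
      exact ⟨x, wl_mono (wl_symm hy) hrBεh, wl_self hεh0.le x, cv_self f hε0.le h.L_nonneg x⟩
    · intro η hη
      obtain ⟨D, hD⟩ :=
        hConn f ε₀ C a as bs b₀ β n Mi V R ρ K r εb δb ε L R' εh δh rB idx h η hη
      exact ⟨D, fun p q _ hpq => hD p q hpq⟩
    · intro x t ht
      have ht' := hmem t ht
      refine hgh x _ t ⟨ht', V (idx x) x x t, wl_self hεh0.le _, ?_,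
        cv_self f hε0.le h.L_nonneg _⟩
      have hw := h.vrt.wl (idx x) (h.idx_lt x) x (h.idx_mem x) x (hxR x) t ht' 0 h0mem
      rw [hV0 x, sub_zero] at hw
      refine wl_mono hw ?_
      have habs : |t| ≤ εh / K :=
        (abs_le.2 ⟨ht.1, ht.2⟩).trans (min_le_right _ _)
      calc K * |t| ≤ K * (εh / K) := mul_le_mul_of_nonneg_left habs hK0.le
        _ = εh := by field_simp
    · intro η hη
      refine ⟨η / K, by positivity, fun x t ht t' ht' htt => ?_⟩
      have hw := h.vrt.wl (idx x) (h.idx_lt x) x (h.idx_mem x) x (hxR x) t (hmem t ht) t'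
        (hmem t' ht')
      refine (wl_dist hw).trans ?_
      calc K * |t - t'| ≤ K * (η / K) := mul_le_mul_of_nonneg_left htt hK0.le
        _ = η := by field_simp
  · intro x y hy hE
    obtain ⟨z, hz1, hz2, hcv⟩ := hE
    have hzy : z = y := h.hyb.br.unique y x z y (wl_mono hz1 hεhε₀) (wl_mono hz2 hεhε₀)
      (wl_self h.hyb.br.ε_pos.le y) (wl_mono hy hrBε₀)
    rw [hzy] at hcv
    exact hcv

end Pool.Agent.Lib.MP610fe3.T5
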