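import Pool.Agent.Lib.MP_610fe3_an.T5.Spec
import Pool.Agent.Lib.MP_610fe3_an.Cf.H1Wl

/-!
# Module ORD: a cheap steep pair gives a cheap point (helper40)
-/

open Set Filter Function
open scoped Topology

namespace Pool.Agent.Lib.MP610fe3.T5.OrdM

open Cf H6 T4 Cf.H1

universe v

variable {M : Type v} [MetricSpace M] {f : M ≃ₜ M}

theorem chm_symm {r : ℝ} {m K : ℕ} {D : Set M} {p q : M} (h : Chm f r m D K p q) :
    Chm f r m D K q p := by
  obtain ⟨c, h0, hK, hD, hs⟩ := h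
  refine ⟨fun i => c (K - i), ?_, ?_, fun i hi => hD _ (by omega), fun i hi => ?_⟩
  · simpa using hK
  · simpa using h0
  · have h1 := hs (K - (i + 1)) (by omega)
    have e : K - (i + 1) + 1 = K - i := by omega
    rw [e] at h1
    exact wl_symm h1

theorem chm_mono {r r' : ℝ} {m K : ℕ} {D D' : Set M} {p q : M} (h : Chm f r m D K p q)
    (hr : r ≤ r') (hD : D ⊆ D') : Chm f r' m D' K p q := by
  obtain ⟨c, h0, hK, hD', hs⟩ := h
  exact ⟨c, h0, hK, fun i hi => hD (hD' i hi), fun i hi => wl_mono (hs i hi) hr⟩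

theorem chm_trans {r : ℝ} {m K K' : ℕ} {D : Set M} {p q s : M} (h : Chm f r m D K p q)
    (h' : Chm f r m D K' q s) : Chm f r m D (K + K') p s := by
  obtain ⟨c, h0, hK, hD, hs⟩ := h
  obtain ⟨c', h0', hK', hD', hs'⟩ := h'
  refine ⟨fun i => if i < K then c i else c' (i - K), ?_, ?_, fun i hi => ?_, fun i hi => ?_⟩
  · by_cases h : 0 < K
    · simp [h, h0]
    · have h1 : K = 0 := by omega
      subst h1
      simp [h0', ← hK, h0]
  · simp [hK']
  · by_cases h : i < K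
    · simp only [h, if_true]
      exact hD i h.le
    · simp only [h, if_false]
      exact hD' _ (by omega)
  · by_cases h : i < K
    · simp only [h, if_true]
      by_cases h2 : i + 1 < K
      · simp only [h2, if_true]
        exact hs i h
      · have h3 : i + 1 = K := by omega
        simp only [h2, if_false]
        rw [show i + 1 - K = 0 by omega, h0', ← hK, ← h3]
        exact hs i h
    · simp only [h, if_false, show ¬ i + 1 < K by omega]
      rw [show i + 1 - K = (i - K) + 1 by omega]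
      exact hs' _ (by omega)

theorem chm_one {r : ℝ} {m : ℕ} {p q : M} (h : f^[m] q ∈ Wl f.symm r (f^[m] p)) :
    Chm f r m univ 1 p q := by
  refine ⟨fun i => if i = 0 then p else q, by simp, by simp, fun _ _ => mem_univ _, ?_⟩
  intro i hi
  have : i = 0 := by omega
  subst this
  simpa using h

theorem chp_symm {β r Λ : ℝ} {D : Set M} {p q : M} (h : Chp f β r D Λ p q) :
    Chp f β r D Λ q p := fun m => by
  obtain ⟨K, hK, hc⟩ := h m
  exact ⟨K, hK, chm_symm hc⟩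

theorem main [CompactSpace M] {ε₀ C a as bs b₀ β : ℝ} {n : ℕ}
    {Mi : ℕ → Set M} {V : ℕ → M → M → ℝ → M} {R ρ K : ℝ} (H : Hyb f ε₀ C a as bs b₀ β)
    (hV : Vrt f n Mi V R ρ K) (hE : Eul f β n Mi V R ρ K) {rC : ℝ} (hrC : 0 < rC) :
    ∃ r₁ : ℝ, 0 < r₁ ∧ ∀ r, 0 < r → r ≤ r₁ → ∀ i < n, ∀ x ∈ Mi i, ∀ p ∈ Wl f.symm R x,
      ∀ t ∈ Icc (-ρ) ρ, ∀ t' ∈ Icc (-ρ) ρ, t < t' → ∀ Λ : ℝ,
      Chp f β r (Wl f.symm (R / 2) x) Λ (V i x p t) (V i x p t') → (Cset f β rC).Nonempty := by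
  have hR := hV.R_pos
  have hK1 := hV.one_le
  have hK0 : 0 < K := by linarith
  have hβ : 0 < β := H.a_pos.trans_le H.a_le
  obtain ⟨ρ₁, Λ₁, hρ₁, hΛ₁, hslow⟩ := H.slow' (min (R / 2) rC) (lt_min (by positivity) hrC)
  obtain ⟨L₀, hL₀, hE⟩ := hE rC hrC
  refine ⟨min ρ₁ rC, lt_min hρ₁ hrC, fun r hr hrr i hi x hx p hp t ht t' ht' htt Λ hch => ?_⟩
  have hr1 : r ≤ ρ₁ := hrr.trans (min_le_left _ _)
  have hr2 : r ≤ rC := hrr.trans (min_le_right _ _)
  -- the heights
  have step : ∀ m : ℕ, ∃ T : M → ℝ, (∀ z ∈ Wl f.symm R x,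
      (∀ s ∈ Icc (-ρ) ρ, |T z - s| ≤ K * dist z (V i x p s)) ∧
      (T z ∈ Icc t t' → ∃ k : ℕ, (k : ℝ) ≤ (2 * L₀ + Λ + 1) * Real.exp (β * m) ∧
        Chm f rC m univ k z (V i x p t))) := by
    intro m
    obtain ⟨T, hTc, hT⟩ := hE i hi x hx p hp m
    refine ⟨T, fun z hz => ⟨(hT z hz).2.1, fun hTz => ?_⟩⟩
    obtain ⟨N, hN, c, hc0, hcN, hcD, hcs⟩ := hch m
    have hexp : 1 ≤ Real.exp (β * m) := Real.one_le_exp (by positivity)
    have hcR : ∀ j ≤ N, c j ∈ Wl f.symm R x := fun j hj => wl_mono (hcD j hj) (by linarith)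
    have hT0 : T (c 0) = t := by
      have h1 := (hT (c 0) (hcR 0 (by omega))).2.1 t ht
      rw [hc0, dist_self, mul_zero] at h1
      have := abs_nonpos_iff.1 h1
      rw [hc0]
      linarith
    have hTN : T (c N) = t' := by
      have h1 := (hT (c N) (hcR N le_rfl)).2.1 t' ht'
      rw [hcN, dist_self, mul_zero] at h1
      have := abs_nonpos_iff.1 h1
      rw [hcN]
      linarith
    -- a point `w` near the chain with `T w = T z`
    have hw : ∃ k ≤ N, ∃ w ∈ Wl f.symm R x, f^[m] w ∈ Wl f.symm rC (f^[m] (c k)) ∧ T w = T z := by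
      classical
      have hex : ∃ j, j ≤ N ∧ T z ≤ T (c j) := ⟨N, le_rfl, by rw [hTN]; exact hTz.2⟩
      obtain ⟨hj1, hj2⟩ := Nat.find_spec hex
      rcases Nat.eq_zero_or_pos (Nat.find hex) with h0 | h0
      · rw [h0, hT0] at hj2
        refine ⟨0, Nat.zero_le _, c 0, hcR 0 (by omega), wl_self hrC.le _, ?_⟩
        rw [hT0]
        exact le_antisymm hTz.1 hj2
      · obtain ⟨k, hk⟩ : ∃ k, Nat.find hex = k + 1 := ⟨Nat.find hex - 1, by omega⟩
        rw [hk] at hj1 hj2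
        have hmin := Nat.find_min hex (m := k) (by omega)
        push Not at hmin
        have hk2 := hmin (by omega)
        obtain ⟨g, hgc, hg0, hg1, hgw, -⟩ := hslow (f^[m] (c k)) (f^[m] (c (k + 1)))
          (wl_mono (hcs k (by omega)) hr1)
        have hgm : ∀ u ∈ Icc (0 : ℝ) 1, g u ∈ Wl f.symm (min (R / 2) rC) (f^[m] (c k)) := by
          intro u hu
          rw [← hg0]
          exact hgw u hu 0 ⟨le_rfl, zero_le_one⟩
        have hz0 : ∀ u ∈ Icc (0 : ℝ) 1, f.symm^[m] (g u) ∈ Wl f.symm R x := by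
          intro u hu
          have h1 := wl_iter (wl_mono (hgm u hu) (min_le_left _ _)) m
          rw [symm_iter_iter] at h1
          exact wl_mono (wl_trans h1 (hcD k (by omega))) (by linarith)
        have hcont : ContinuousOn (fun u => T (f.symm^[m] (g u))) (Icc 0 1) := by
          refine hTc.comp ?_ hz0
          exact (f.symm.continuous.iterate m).comp_continuousOn hgc
        have hiv := intermediate_value_Icc (zero_le_one (α := ℝ)) hcont
        have hmem : T z ∈ Icc (T (f.symm^[m] (g 0))) (T (f.symm^[m] (g 1))) := by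
          rw [hg0, hg1, symm_iter_iter, symm_iter_iter]
          exact ⟨hk2.le, hj2⟩
        obtain ⟨u, hu, huT⟩ := hiv hmem
        refine ⟨k, by omega, f.symm^[m] (g u), hz0 u hu, ?_, huT⟩
        rw [iter_symm_iter]
        exact wl_mono (hgm u hu) (min_le_right _ _)
    obtain ⟨k, hk, w, hwR, hwc, hwT⟩ := hw
    obtain ⟨k1, hk1, hc1⟩ := (hT z hz).2.2
    obtain ⟨k2, hk2, hc2⟩ := (hT w hwR).2.2
    rw [hwT] at hc2
    have hc3 : Chm f rC m univ 1 (c k) w := chm_one hwc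
    have hc4 : Chm f rC m univ k (V i x p t) (c k) :=
      ⟨c, hc0, rfl, fun _ _ => mem_univ _, fun j hj => wl_mono (hcs j (by omega)) hr2⟩
    have hc5 := chm_trans (chm_trans (chm_trans hc1 (chm_symm hc2)) (chm_symm hc3)) (chm_symm hc4)
    refine ⟨k1 + k2 + 1 + k, ?_, hc5⟩
    push_cast
    have hkN : (k : ℝ) ≤ N := by exact_mod_cast hk
    linarith
  choose T hT using step
  set μ := min ((t' - t) / 2) (R / (8 * K)) with hμ
  have hμ0 : 0 < μ := lt_min (by linarith) (by positivity)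
  have hμ1 : μ ≤ (t' - t) / 2 := min_le_left _ _
  have hμ2 : μ ≤ R / (8 * K) := min_le_right _ _
  have hμ3 : K * μ ≤ R / 8 := by
    calc K * μ ≤ K * (R / (8 * K)) := by gcongr
      _ = R / 8 := by field_simp
  have hs0 : t + μ ∈ Icc (-ρ) ρ := ⟨by linarith [ht.1], by linarith [ht'.2]⟩
  have hVt : V i x p t ∈ Wl f.symm (R / 2) x := by
    obtain ⟨N, hN, c, hc0, hcN, hcD, hcs⟩ := hch 0
    rw [← hc0]
    exact hcD 0 (Nat.zero_le _)
  have hy0 : V i x p (t + μ) ∈ Wl f.symm (R / 8 + R / 2) x := by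
    have h1 := hV.wl i hi x hx p hp (t + μ) hs0 t ht
    refine wl_trans (wl_mono h1 ?_) hVt
    rw [show t + μ - t = μ by ring, abs_of_pos hμ0]
    exact hμ3
  obtain ⟨d, hd⟩ : ∃ d : ℝ, d = min (R / 8) (μ / K) := ⟨_, rfl⟩
  have hd0 : 0 < d := by rw [hd]; exact lt_min (by positivity) (by positivity)
  have hd1 : d ≤ R / 8 := by rw [hd]; exact min_le_left _ _
  have hd2 : K * d ≤ μ := by
    calc K * d ≤ K * (μ / K) := by rw [hd]; gcongr; exact min_le_right _ _
      _ = μ := by field_simp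
  have reach : ∀ y ∈ Wl f.symm d (V i x p (t + μ)), ∀ m : ℕ, ∃ k : ℕ,
      (k : ℝ) ≤ (2 * L₀ + Λ + 1) * Real.exp (β * m) ∧ Chm f rC m univ k y (V i x p t) := by
    intro y hy m
    have hyR : y ∈ Wl f.symm R x := wl_mono (wl_trans hy hy0) (by linarith)
    refine (hT m y hyR).2 ?_
    have h1 := (hT m y hyR).1 (t + μ) hs0
    have h2 := wl_dist hy
    have h3 : |T m y - (t + μ)| ≤ μ :=
      h1.trans ((mul_le_mul_of_nonneg_left h2 hK0.le).trans hd2)
    rw [abs_le] at h3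
    exact ⟨by linarith [h3.1], by linarith [h3.2]⟩
  refine ⟨V i x p (t + μ), d, 2 * (2 * L₀ + Λ + 1), hd0, fun y hy y' hy' m => ?_⟩
  obtain ⟨k1, hk1, hc1⟩ := reach y hy m
  obtain ⟨k2, hk2, hc2⟩ := reach y' hy' m
  refine ⟨k1 + k2, ?_, chm_trans hc1 (chm_symm hc2)⟩
  push_cast
  linarith

theorem ord : SpecOrd.{v} := by
  intro M _ _ f ε₀ C a as bs b₀ β n Mi V R ρ K H hV hE rC hrC
  obtain ⟨r₁, hr₁, h⟩ := main H hV hE hrC
  refine ⟨r₁, hr₁, fun r hr hrr hns => ?_⟩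
  unfold NoSteep at hns
  push Not at hns
  obtain ⟨i, hi, x, hx, p, hp, t, ht, t', ht', Λ, hch, htt⟩ := hns
  rcases lt_or_gt_of_ne htt with h1 | h1
  · exact h r hr hrr i hi x hx p hp t ht t' ht' h1 Λ hch
  · exact h r hr hrr i hi x hx p hp t' ht' t ht h1 Λ (chp_symm hch)

end Pool.Agent.Lib.MP610fe3.T5.OrdM

namespace Pool.Agent.Lib.MP610fe3.T5

universe v

/-- Module ORD -/
theorem ord : SpecOrd.{v} := OrdM.ord

end Pool.Agent.Lib.MP610fe3.T5
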