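import Pool.Agent.Lib.MP_610fe3_an.T5.Vrt

/-!
# Module POLY: polygons (helper78)
-/

open Set Filter Function
open scoped Topology

namespace Pool.Agent.Lib.MP610fe3.T5

open Cf H6 T4 VrtM

universe u v

namespace PolyM

section

variable {M : Type v} [MetricSpace M] {W : Type u} [NormedAddCommGroup W] [NormedSpace ℝ W]
  {J : Emb M W} {f : M ≃ₜ M} {s : Split J f} {F : M → Submodule ℝ W} {n : ℕ} {Mi : ℕ → Set M}
  {e : ℕ → M → W} {θ : ℕ → W →L[ℝ] ℝ} {K δ η : ℝ} {α : ℕ → M → M → W → ℝ} {δ' : ℝ}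
  {Ψ : M → W → M} {ε R₁ K₁ : ℝ} {i : ℕ} {x : M}

omit [MetricSpace M] in
theorem hor_sub (u v : W) : hor e θ i x u - hor e θ i x v = hor e θ i x (u - v) := by
  unfold hor
  rw [map_sub, sub_smul]
  abel

theorem norm_hor_le (hF : Frm s F n Mi e θ K δ η) (hi : i < n) (hx : x ∈ Mi i) (u : W) :
    ‖hor e θ i x u‖ ≤ (1 + K ^ 2) * ‖u‖ := by
  have hK : 0 ≤ K := zero_le_one.trans hF.one_le
  have h1 : ‖θ i u‖ ≤ K * ‖u‖ :=
    ((θ i).le_opNorm u).trans (mul_le_mul_of_nonneg_right (hF.θ_le i hi) (norm_nonneg _))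
  have h2 := hF.e_le i hi x hx
  calc ‖hor e θ i x u‖ ≤ ‖u‖ + ‖θ i u • e i x‖ := norm_sub_le _ _
    _ ≤ ‖u‖ + K * ‖u‖ * K := by
      rw [norm_smul]
      gcongr
    _ = (1 + K ^ 2) * ‖u‖ := by ring

theorem θ_hor (hF : Frm s F n Mi e θ K δ η) (hi : i < n) (hx : x ∈ Mi i) (u : W) :
    θ i (hor e θ i x u) = 0 := by
  unfold hor
  rw [map_sub, map_smul, hF.θ_e i hi x hx, smul_eq_mul, mul_one, sub_self]

theorem U_hor (hF : Frm s F n Mi e θ K δ η) (hi : i < n) (hx : x ∈ Mi i) {u : W}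
    (hu : s.U x u = u) : s.U x (hor e θ i x u) = hor e θ i x u := by
  unfold hor
  rw [map_sub, map_smul, hF.e_U i hi x hx, hu]

/-- Euler polygons. -/
theorem epol (hF : Frm s F n Mi e θ K δ η) (hS : Slp s F n Mi e θ α δ')
    (hΨ : Psi s Ψ ε R₁ K₁) (hεδ : ε ≤ δ') (hi : i < n) (hx : x ∈ Mi i) {h u₀ : W}
    (hh : s.U x h = h) (hθ : θ i h = 0) (hu : s.U x u₀ = u₀) {N : ℕ}
    (hb : ‖u₀‖ + (1 + K) * (N * ‖h‖) ≤ R₁ / 2) : ∀ j ≤ N,
    s.U x (Epol α e Ψ i x h j u₀) = Epol α e Ψ i x h j u₀ ∧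
    ‖Epol α e Ψ i x h j u₀ - u₀‖ ≤ (1 + K) * (j * ‖h‖) ∧
    hor e θ i x (Epol α e Ψ i x h j u₀) = hor e θ i x u₀ + (j : ℝ) • h ∧
    |θ i (Epol α e Ψ i x h j u₀ - u₀)| ≤ j * ‖h‖ ∧ ‖Epol α e Ψ i x h j u₀‖ ≤ R₁ / 2 := by
  have hK : 0 ≤ K := zero_le_one.trans hF.one_le
  intro j
  induction j with
  | zero =>
    intro _
    simp only [Epol, sub_self, norm_zero, Nat.cast_zero, zero_mul, mul_zero, le_refl,
      zero_smul, add_zero, map_zero, abs_zero, true_and]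
    refine ⟨hu, ?_⟩
    have h1 : 0 ≤ (1 + K) * (N * ‖h‖) := by positivity
    linarith
  | succ j ih =>
    intro hj
    obtain ⟨h1, h2, h3, h4, h5⟩ := ih (by omega)
    set u := Epol α e Ψ i x h j u₀ with hu'
    have hR : R₁ / 2 ≤ R₁ := by linarith [hΨ.R₁_pos]
    have h6 := hΨ.mem x u h1 (h5.trans hR)
    have h7 : |α i x (Ψ x u) h| ≤ ‖h‖ :=
      hS.le i hi x hx _ ((H1.wl_dist h6).trans hεδ) h hh hθ
    have h8 := hF.e_le i hi x hx
    have h9 := hF.θ_e i hi x hx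
    have hE : Epol α e Ψ i x h (j + 1) u₀ = u + h + α i x (Ψ x u) h • e i x := rfl
    have hn : ‖Epol α e Ψ i x h (j + 1) u₀ - u₀‖ ≤ (1 + K) * ((j + 1 : ℕ) * ‖h‖) := by
      have h10 : Epol α e Ψ i x h (j + 1) u₀ - u₀ =
          (u - u₀) + h + α i x (Ψ x u) h • e i x := by rw [hE]; abel
      rw [h10]
      calc _ ≤ ‖u - u₀‖ + ‖h‖ + ‖α i x (Ψ x u) h • e i x‖ := norm_add₃_le
        _ ≤ (1 + K) * (j * ‖h‖) + ‖h‖ + ‖h‖ * K := by
          rw [norm_smul, Real.norm_eq_abs]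
          gcongr
        _ = (1 + K) * ((j + 1 : ℕ) * ‖h‖) := by push_cast; ring
    refine ⟨?_, hn, ?_, ?_, ?_⟩
    · rw [hE, map_add, map_add, map_smul, h1, hh, hF.e_U i hi x hx]
    · have h10 : hor e θ i x (Epol α e Ψ i x h (j + 1) u₀) = hor e θ i x u + h := by
        unfold hor
        rw [hE, map_add, map_add, map_smul, hθ, h9, smul_eq_mul, mul_one, add_zero, add_smul]
        abel
      rw [h10, h3]
      push_cast
      rw [add_smul, one_smul]
      abel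
    · have h10 : θ i (Epol α e Ψ i x h (j + 1) u₀ - u₀) =
          θ i (u - u₀) + α i x (Ψ x u) h := by
        rw [hE]
        simp only [map_sub, map_add, map_smul, hθ, h9, smul_eq_mul]
        ring
      rw [h10]
      refine (abs_add_le _ _).trans ?_
      push_cast
      linarith
    · have h10 : ‖Epol α e Ψ i x h (j + 1) u₀‖ ≤
          ‖u₀‖ + ‖Epol α e Ψ i x h (j + 1) u₀ - u₀‖ := by
        have := norm_add_le u₀ (Epol α e Ψ i x h (j + 1) u₀ - u₀)
        rwa [add_sub_cancel] at this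
      have h11 : (1 + K) * ((j + 1 : ℕ) * ‖h‖) ≤ (1 + K) * (N * ‖h‖) := by
        have : ((j + 1 : ℕ) : ℝ) ≤ N := by exact_mod_cast hj
        gcongr
      linarith

/-- The step vector. -/
theorem stp [CompactSpace M] {Ku : ℝ} (hKu : ∀ x, ‖s.U x‖ ≤ Ku) (hKu1 : 1 ≤ Ku)
    (hF : Frm s F n Mi e θ K δ η) (hi : i < n) (hx : x ∈ Mi i) {R' : ℝ} {p z : M}
    (hp : p ∈ Wl f.symm R' x) (hz : z ∈ Wl f.symm R' x) {N : ℕ} (hN : 0 < N) {h : W}
    (hh : h = (1 / (N : ℝ)) • (hor e θ i x (phi s x p) - hor e θ i x (phi s x z))) :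
    s.U x h = h ∧ θ i h = 0 ∧
      (N : ℝ) • h = hor e θ i x (phi s x p) - hor e θ i x (phi s x z) ∧
      (N : ℝ) * ‖h‖ = ‖hor e θ i x (phi s x p) - hor e θ i x (phi s x z)‖ ∧
      (N : ℝ) * ‖h‖ ≤ (1 + K ^ 2) * (Ku * (2 * R')) ∧
      ‖phi s x z‖ + (1 + K) * (N * ‖h‖) ≤ Ku * (1 + 2 * ((1 + K) * (1 + K ^ 2))) * R' := by
  have hK : 0 ≤ K := zero_le_one.trans hF.one_le
  have hKu0 : 0 ≤ Ku := by linarith
  have hN' : (0 : ℝ) < N := by exact_mod_cast hN
  have e1 : (N : ℝ) • h = hor e θ i x (phi s x p) - hor e θ i x (phi s x z) := by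
    rw [hh, smul_smul, mul_one_div_cancel hN'.ne', one_smul]
  have e2 : (N : ℝ) * ‖h‖ = ‖hor e θ i x (phi s x p) - hor e θ i x (phi s x z)‖ := by
    rw [← e1, norm_smul, Real.norm_eq_abs, abs_of_pos hN']
  have e3 : (N : ℝ) * ‖h‖ ≤ (1 + K ^ 2) * (Ku * (2 * R')) := by
    rw [e2, hor_sub]
    refine (norm_hor_le hF hi hx _).trans ?_
    gcongr
    refine (norm_phi_sub hKu x p z).trans ?_
    gcongr
    have h1 := dist_triangle_right p z x
    have h2 := H1.wl_dist hp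
    have h3 := H1.wl_dist hz
    linarith
  refine ⟨?_, ?_, e1, e2, e3, ?_⟩
  · rw [hh, map_smul, map_sub, U_hor hF hi hx (U_phi s x p), U_hor hF hi hx (U_phi s x z)]
  · rw [hh, map_smul, map_sub, θ_hor hF hi hx, θ_hor hF hi hx, sub_self, smul_zero]
  · have h1 := norm_phi_le hKu x z
    have h2 : Ku * dist z x ≤ Ku * R' := by
      gcongr
      exact H1.wl_dist hz
    have h3 : (1 + K) * (N * ‖h‖) ≤ (1 + K) * ((1 + K ^ 2) * (Ku * (2 * R'))) := by gcongr
    linarith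

end

end PolyM

open PolyM

theorem poly : SpecPoly.{u, v} := by
  intro M _ _ W _ _ _ J f s F n Mi e θ K δ η α δ' Ψ ε R₁ K₁ β L ε₀ C κ hs hF hS hΨ hεδ hD hε
    hL hE
  obtain ⟨Ku0, hKu0⟩ := s.bdd
  obtain ⟨Ku, hKu, hKu1⟩ : ∃ Ku : ℝ, (∀ x, ‖s.U x‖ ≤ Ku) ∧ 1 ≤ Ku :=
    ⟨max Ku0 1, fun x => (hKu0 x).2.trans (le_max_left _ _), le_max_right _ _⟩
  have hK := hF.one_le
  have hK₁ := hΨ.one_le
  have hC := hD.one_le
  have hR₁ := hΨ.R₁_pos
  have hε0 := hΨ.ε_pos
  have hK0 : 0 ≤ K := by linarith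
  have hKu0' : 0 ≤ Ku := by linarith
  have hC0 : 0 ≤ C := by linarith
  have hK₁0 : 0 ≤ K₁ := by linarith
  obtain ⟨K₂, hK₂⟩ : ∃ K₂, K₂ = Ku * (1 + 2 * ((1 + K) * (1 + K ^ 2))) := ⟨_, rfl⟩
  have hK₂1 : 1 ≤ K₂ := by
    rw [hK₂]
    refine one_le_mul_of_one_le_of_one_le hKu1 ?_
    have : 0 ≤ (1 + K) * (1 + K ^ 2) := by positivity
    linarith
  have hK₂0 : 0 ≤ K₂ := by linarith
  have e1 : 1 ≤ C * K₁ := one_le_mul_of_one_le_of_one_le hC hK₁
  obtain ⟨B, hB⟩ : ∃ B, B = K * (K₂ + Ku) + (1 + K ^ 2 + K) * Ku := ⟨_, rfl⟩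
  have hB1 : K * (K₂ + Ku) ≤ B := by
    have : 0 ≤ (1 + K ^ 2 + K) * Ku := by positivity
    linarith
  have hB2 : (1 + K ^ 2 + K) * Ku ≤ B := by
    have : 0 ≤ K * (K₂ + Ku) := by positivity
    linarith
  have hB3 : K₂ ≤ B := by
    refine le_trans ?_ hB1
    have h1 : K₂ ≤ K * K₂ := le_mul_of_one_le_left hK₂0 hK
    have h2 : 0 ≤ K * Ku := by positivity
    linarith [mul_add K K₂ Ku]
  have hB0 : 0 ≤ B := hK₂0.trans hB3
  have hB4 : 1 ≤ B := hK₂1.trans hB3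
  have hB5 : B ≤ C * K₁ * B := le_mul_of_one_le_left hB0 e1
  refine ⟨C * K₁ * B, min ε (R₁ / (2 * (K₂ + K + Ku))), hB4.trans hB5, by positivity, ?_⟩
  intro ρ R hρ hρm hR hRρ
  have hρε : ρ ≤ ε := hρm.trans (min_le_left _ _)
  have hρR : ρ * (2 * (K₂ + K + Ku)) ≤ R₁ := by
    have h := hρm.trans (min_le_right _ _)
    rwa [le_div_iff₀ (by positivity)] at h
  have hRle : R ≤ ρ := by
    have h1 : 1 * R ≤ C * K₁ * B * R := by
      gcongr
      exact hB4.trans hB5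
    linarith
  have hK₂R : K₂ * R ≤ R₁ / 2 := by
    have h1 : K₂ * R ≤ K₂ * ρ := by gcongr
    have h2 : 0 ≤ ρ * (K + Ku) := by positivity
    have h3 : ρ * (2 * (K₂ + K + Ku)) = 2 * (K₂ * ρ) + 2 * (ρ * (K + Ku)) := by ring
    linarith
  have hKuR : Ku * R + ρ * K ≤ R₁ / 2 := by
    have h1 : Ku * R ≤ Ku * ρ := by gcongr
    have h2 : 0 ≤ ρ * K₂ := by positivity
    have h3 : ρ * (2 * (K₂ + K + Ku)) = 2 * (Ku * ρ) + 2 * (ρ * K) + 2 * (ρ * K₂) := by ring
    linarith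
  have hR2 : R₁ / 2 ≤ R₁ := by linarith
  -- all facts about one polygon
  have main : ∀ i < n, ∀ x ∈ Mi i, ∀ R' ≤ R, ∀ p ∈ Wl f.symm R' x, ∀ z ∈ Wl f.symm R' x,
      ∀ N : ℕ, 0 < N → ∀ h : W,
      h = (1 / (N : ℝ)) • (hor e θ i x (phi s x p) - hor e θ i x (phi s x z)) → ∀ j ≤ N,
      s.U x (Epol α e Ψ i x h j (phi s x z)) = Epol α e Ψ i x h j (phi s x z) ∧
      ‖Epol α e Ψ i x h j (phi s x z)‖ ≤ K₂ * R' ∧
      ‖Epol α e Ψ i x h j (phi s x z)‖ ≤ R₁ / 2 := by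
    intro i hi x hx R' hR' p hp z hz N hN h hh j hj
    obtain ⟨a1, a2, a3, a4, a5, a6⟩ := stp hKu hKu1 hF hi hx hp hz hN hh
    rw [← hK₂] at a6
    have hR'0 : 0 ≤ R' := dist_nonneg.trans (H1.wl_dist hp)
    have h1 : K₂ * R' ≤ K₂ * R := by gcongr
    obtain ⟨b1, b2, b3, b4, b5⟩ := epol hF hS hΨ hεδ hi hx a1 a2 (U_phi s x z)
      (N := N) (a6.trans (h1.trans hK₂R)) j hj
    refine ⟨b1, ?_, b5⟩
    have h2 : ‖Epol α e Ψ i x h j (phi s x z)‖ ≤
        ‖phi s x z‖ + ‖Epol α e Ψ i x h j (phi s x z) - phi s x z‖ := by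
      have := norm_add_le (phi s x z) (Epol α e Ψ i x h j (phi s x z) - phi s x z)
      rwa [add_sub_cancel] at this
    have h3 : (1 + K) * (j * ‖h‖) ≤ (1 + K) * (N * ‖h‖) := by
      have : (j : ℝ) ≤ N := by exact_mod_cast hj
      gcongr
    linarith
  have hzR : ∀ x z, z ∈ Wl f.symm R x → ‖phi s x z‖ ≤ R₁ := by
    intro x z hz
    have h1 := norm_phi_le hKu x z
    have h2 : Ku * dist z x ≤ Ku * R := by
      gcongr
      exact H1.wl_dist hz
    have h3 : 0 ≤ ρ * K := by positivity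
    linarith
  have last : ∀ i < n, ∀ x ∈ Mi i, ∀ p ∈ Wl f.symm R x, ∀ z ∈ Wl f.symm R x,
      ∀ N : ℕ, 0 < N → ∀ h : W,
      h = (1 / (N : ℝ)) • (hor e θ i x (phi s x p) - hor e θ i x (phi s x z)) →
      Epol α e Ψ i x h N (phi s x z) = phi s x p +
        θ i (Epol α e Ψ i x h N (phi s x z) - phi s x p) • e i x ∧
      |θ i (Epol α e Ψ i x h N (phi s x z) - phi s x z)| ≤
        ‖hor e θ i x (phi s x p) - hor e θ i x (phi s x z)‖ := by
    intro i hi x hx p hp z hz N hN h hh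
    obtain ⟨a1, a2, a3, a4, a5, a6⟩ := stp hKu hKu1 hF hi hx hp hz hN hh
    rw [← hK₂] at a6
    obtain ⟨b1, b2, b3, b4, b5⟩ := epol hF hS hΨ hεδ hi hx a1 a2 (U_phi s x z)
      (N := N) (a6.trans hK₂R) N le_rfl
    refine ⟨?_, by rwa [a4] at b4⟩
    rw [a3, add_sub_cancel] at b3
    unfold hor at b3
    rw [map_sub, sub_smul]
    rw [sub_eq_iff_eq_add] at b3
    rw [add_sub, eq_sub_iff_add_eq]
    nth_rw 1 [b3]
    abel
  refine ⟨L * ((1 + K ^ 2) * (Ku * (2 * R))), ?_⟩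
  refine ⟨by positivity, ?_, ?_, ?_, ?_, ?_, ?_, ?_⟩
  · intro i hi x hx p hp z hz N hN
    exact psi_phi hΨ (H1.wl_mono hz (hRle.trans hρε)) (hzR x z hz)
  · intro i hi x hx p hp z hz N hN
    exact congrArg (Ψ x) (last i hi x hx p hp z hz N hN _ rfl).1
  · intro i hi x hx p hp z hz N hN
    obtain ⟨b1, b2, b3⟩ := main i hi x hx R le_rfl p hp z hz N hN _ rfl N le_rfl
    refine abs_le.1 ?_
    have h1 : ‖phi s x p‖ ≤ Ku * R := (norm_phi_le hKu x p).trans (by
      gcongr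
      exact H1.wl_dist hp)
    rw [← Real.norm_eq_abs]
    refine ((θ i).le_opNorm _).trans ?_
    calc ‖θ i‖ * _ ≤ K * (K₂ * R + Ku * R) := by
          gcongr
          · exact hF.θ_le i hi
          · exact (norm_sub_le _ _).trans (add_le_add b2 h1)
      _ = K * (K₂ + Ku) * R := by ring
      _ ≤ C * K₁ * B * R := mul_le_mul_of_nonneg_right (hB1.trans hB5) hR.le
      _ ≤ ρ := hRρ
  · intro i hi x hx p hp z hz N hN t ht
    obtain ⟨-, b2⟩ := last i hi x hx p hp z hz N hN _ rfl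
    obtain ⟨w, hw⟩ : ∃ w, w = Epol α e Ψ i x ((1 / (N : ℝ)) •
      (hor e θ i x (phi s x p) - hor e θ i x (phi s x z))) N (phi s x z) := ⟨_, rfl⟩
    rw [← hw] at b2
    simp only [← hw]
    -- the point of the line
    have h1 : s.U x (phi s x p + t • e i x) = phi s x p + t • e i x := by
      rw [map_add, map_smul, U_phi, hF.e_U i hi x hx]
    have h2 : ‖phi s x p + t • e i x‖ ≤ R₁ := by
      have h3 := norm_phi_le hKu x p
      have h4 := H1.wl_dist hp
      have h5 : |t| ≤ ρ := abs_le.2 ht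
      have h6 := hF.e_le i hi x hx
      calc ‖phi s x p + t • e i x‖ ≤ ‖phi s x p‖ + ‖t • e i x‖ := norm_add_le _ _
        _ ≤ Ku * R + ρ * K := by
          rw [norm_smul, Real.norm_eq_abs]
          exact add_le_add (h3.trans (by gcongr)) (by gcongr)
        _ ≤ R₁ := hKuR.trans hR2
    have h3 := hΨ.eq x _ h1 h2
    have h4 : phi s x p + t • e i x - phi s x z =
        s.U x (J.e (Ψ x (phi s x p + t • e i x)) - J.e z) := by
      rw [← phi_sub]
      unfold phi at h3 ⊢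
      rw [h3]
    have h5 : ‖phi s x p + t • e i x - phi s x z‖ ≤
        Ku * dist z (Ψ x (phi s x p + t • e i x)) := by
      rw [h4, dist_comm]
      exact norm_U_sub hKu _ _ _
    have h6 : hor e θ i x (phi s x p) = hor e θ i x (phi s x p + t • e i x) := by
      unfold hor
      rw [map_add, map_smul, hF.θ_e i hi x hx, smul_eq_mul, mul_one, add_smul]
      abel
    have h7 : ‖hor e θ i x (phi s x p) - hor e θ i x (phi s x z)‖ ≤
        (1 + K ^ 2) * ‖phi s x p + t • e i x - phi s x z‖ := by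
      rw [h6, hor_sub]
      exact norm_hor_le hF hi hx _
    have h8 : θ i (w - phi s x p) - t =
        θ i (w - phi s x z) - θ i (phi s x p + t • e i x - phi s x z) := by
      simp only [map_sub, map_add, map_smul, hF.θ_e i hi x hx, smul_eq_mul]
      ring
    have h9 : |θ i (phi s x p + t • e i x - phi s x z)| ≤
        K * ‖phi s x p + t • e i x - phi s x z‖ := by
      rw [← Real.norm_eq_abs]
      exact ((θ i).le_opNorm _).trans
        (mul_le_mul_of_nonneg_right (hF.θ_le i hi) (norm_nonneg _))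
    rw [h8]
    calc |θ i (w - phi s x z) - θ i (phi s x p + t • e i x - phi s x z)| ≤
        |θ i (w - phi s x z)| + |θ i (phi s x p + t • e i x - phi s x z)| := abs_sub _ _
      _ ≤ (1 + K ^ 2) * ‖phi s x p + t • e i x - phi s x z‖ +
          K * ‖phi s x p + t • e i x - phi s x z‖ := add_le_add (b2.trans h7) h9
      _ = (1 + K ^ 2 + K) * ‖phi s x p + t • e i x - phi s x z‖ := by ring
      _ ≤ (1 + K ^ 2 + K) * (Ku * dist z (Ψ x (phi s x p + t • e i x))) := by gcongr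
      _ = (1 + K ^ 2 + K) * Ku * dist z (Ψ x (phi s x p + t • e i x)) := by ring
      _ ≤ C * K₁ * B * dist z (Ψ x (phi s x p + t • e i x)) :=
        mul_le_mul_of_nonneg_right (hB2.trans hB5) dist_nonneg
  · intro i hi x hx p hp N hN
    have cphi : Continuous fun z => phi s x z :=
      (cont_phi hs).comp (continuous_const.prodMk continuous_id)
    have chor : ∀ g : M → W, Continuous g → Continuous fun z => hor e θ i x (g z) := by
      intro g hg
      exact hg.sub (((θ i).continuous.comp hg).smul continuous_const)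
    have ch : Continuous fun z => (1 / (N : ℝ)) •
        (hor e θ i x (phi s x p) - hor e θ i x (phi s x z)) :=
      (continuous_const.sub (chor _ cphi)).const_smul _
    have cE : ∀ j ≤ N, ContinuousOn (fun z => Epol α e Ψ i x ((1 / (N : ℝ)) •
        (hor e θ i x (phi s x p) - hor e θ i x (phi s x z))) j (phi s x z))
        (Wl f.symm R x) := by
      intro j
      induction j with
      | zero => intro _; exact cphi.continuousOn
      | succ j ih =>
        intro hj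
        have ih' := ih (by omega)
        have c1 : ContinuousOn (fun z => Ψ x (Epol α e Ψ i x ((1 / (N : ℝ)) •
            (hor e θ i x (phi s x p) - hor e θ i x (phi s x z))) j (phi s x z)))
            (Wl f.symm R x) := by
          have := hΨ.cont.comp (continuousOn_const (c := x) |>.prodMk ih') (fun z hz => by
            obtain ⟨b1, b2, b3⟩ := main i hi x hx R le_rfl p hp z hz N hN _ rfl j (by omega)
            exact ⟨b1, b3.trans hR2⟩)
          exact this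
        have c2 : ContinuousOn (fun z => α i x (Ψ x (Epol α e Ψ i x ((1 / (N : ℝ)) •
            (hor e θ i x (phi s x p) - hor e θ i x (phi s x z))) j (phi s x z)))
            ((1 / (N : ℝ)) • (hor e θ i x (phi s x p) - hor e θ i x (phi s x z))))
            (Wl f.symm R x) := by
          have := (hS.cont i hi x hx).comp (c1.prodMk ch.continuousOn) (fun z hz => by
            obtain ⟨b1, b2, b3⟩ := main i hi x hx R le_rfl p hp z hz N hN _ rfl j (by omega)
            obtain ⟨a1, a2, -⟩ := stp hKu hKu1 hF hi hx hp hz hN rfl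
            exact ⟨(H1.wl_dist (hΨ.mem x _ b1 (b3.trans hR2))).trans hεδ, a1, a2⟩)
          exact this
        exact (ih'.add ch.continuousOn).add (c2.smul continuousOn_const)
    exact (θ i).continuous.comp_continuousOn ((cE N le_rfl).sub continuousOn_const)
  · intro i hi x hx R' hR' p hp z hz N hN j hj
    obtain ⟨b1, b2, b3⟩ := main i hi x hx R' hR' p hp z hz N hN _ rfl j hj
    have h1 := wl_psi hΨ hD hε b1 (b3.trans hR2) (map_zero (s.U x)) (by rw [norm_zero]; exact hR₁.le)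
    have h2 : Ψ x 0 = x := by
      have h3 := psi_phi hΨ (x := x) (z := x) (H1.wl_self hε0.le x)
        (by rw [phi_self, norm_zero]; exact hR₁.le)
      rwa [phi_self] at h3
    rw [h2, sub_zero] at h1
    refine H1.wl_mono h1 ?_
    have hR'0 : 0 ≤ R' := dist_nonneg.trans (H1.wl_dist hp)
    calc C * K₁ * _ ≤ C * K₁ * (K₂ * R') := by gcongr
      _ ≤ C * K₁ * (B * R') := by gcongr
      _ = C * K₁ * B * R' := by ring
  · intro m
    obtain ⟨ρ', hρ', hst⟩ := hE m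
    obtain ⟨N₀, hN₀⟩ := exists_nat_ge ((1 + K ^ 2) * (Ku * (2 * R)) / ρ')
    refine ⟨N₀, fun N hN hN' i hi x hx p hp z hz k hk j hj => ?_⟩
    obtain ⟨a1, a2, a3, a4, a5, a6⟩ := stp hKu hKu1 hF hi hx hp hz hN' rfl
    obtain ⟨b1, b2, b3⟩ := main i hi x hx R le_rfl p hp z hz N hN' _ rfl j hj.le
    have hNp : (0 : ℝ) < N := by exact_mod_cast hN'
    obtain ⟨h, hh⟩ : ∃ h, h = (1 / (N : ℝ)) •
      (hor e θ i x (phi s x p) - hor e θ i x (phi s x z)) := ⟨_, rfl⟩
    simp only [← hh] at a1 a2 a3 a4 a5 b1 b3 ⊢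
    have h1 : ‖h‖ ≤ (1 + K ^ 2) * (Ku * (2 * R)) * (1 / N) := by
      rw [mul_one_div, le_div_iff₀ hNp]
      linarith
    have h2 : ‖h‖ ≤ ρ' := by
      refine h1.trans ?_
      rw [mul_one_div, div_le_iff₀ hNp]
      rw [div_le_iff₀ hρ'] at hN₀
      have : (N₀ : ℝ) ≤ N := by exact_mod_cast hN
      calc _ ≤ (N₀ : ℝ) * ρ' := hN₀
        _ ≤ N * ρ' := by gcongr
        _ = ρ' * N := mul_comm _ _
    have h3 := hst i hi x hx _ h b1 b3 a1 a2 h2 k hk
    refine h3.trans ?_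
    calc L * Real.exp (β * k) * ‖h‖ ≤
        L * Real.exp (β * k) * ((1 + K ^ 2) * (Ku * (2 * R)) * (1 / N)) := by gcongr
      _ = _ := by ring

end Pool.Agent.Lib.MP610fe3.T5
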