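import Pool.Agent.Lib.MP_610fe3_an.T5.Spec
import Pool.Agent.Lib.MP_610fe3_an.T4.Pow

/-!
# Module POW2: powers of an Anosov diffeomorphism
-/

open Set Filter Function Bundle
open scoped Topology Manifold ContDiff

namespace Pool.Agent.Lib.MP610fe3.T5

open Cf H6 T4

universe u v w

open T4.PowM in
theorem pow2 : SpecPow2.{u, v} := by
  intro V _ _ _ M _ _ _ _ _ _ f Es Eu Ew C l₁ l₂ m b n hn hA hR
  have hg : ⇑(dpow f n) = (⇑f)^[n] := dpow_coe f n
  have hg' : ⇑(dpow f n).symm = (⇑f.symm)^[n] := dpow_symm_coe f n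
  have hgk : ∀ k, (⇑(dpow f n))^[k] = (⇑f)^[n * k] := fun k => by rw [hg, iterate_mul]
  have hgk' : ∀ k, (⇑(dpow f n).symm)^[k] = (⇑f.symm)^[n * k] := fun k => by
    rw [hg', iterate_mul]
  refine ⟨dpow f n, hg, hg', ?_, ?_⟩
  · refine ⟨hA.isCompl, fun x => ?_, fun x => ?_, ?_⟩
    · rw [hg]
      exact map_iter f hA.map_s n x
    · rw [hg]
      exact map_iter f hA.map_u n x
    · obtain ⟨C', l, hC, hl, hl1, h⟩ := hA.estimate
      refine ⟨C', l ^ n, hC, pow_pos hl n, pow_lt_one₀ hl.le hl1 hn.ne', fun k x => ?_⟩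
      rw [hgk, hgk', ← pow_mul]
      exact h (n * k) x
  · refine ⟨fun k x v hv => ?_, fun k x v hv => ?_, fun k x v hv => ?_, fun k x v hv => ?_⟩
    · rw [hgk, ← pow_mul]
      exact hR.s_fwd (n * k) x v hv
    · rw [hgk', ← inv_pow, ← pow_mul]
      exact hR.s_bwd (n * k) x v hv
    · rw [hgk', ← inv_pow, ← pow_mul]
      exact hR.u_bwd (n * k) x v hv
    · rw [hgk, ← pow_mul]
      exact hR.w_fwd (n * k) x v hv

end Pool.Agent.Lib.MP610fe3.T5
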