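import Pool.Agent.Lib.MP_610fe3_an.T5.Spec
import Pool.Agent.Lib.MP_610fe3_an.Cf.Crd
import Pool.Agent.Lib.MP_610fe3_an.Cf.H1Wl
import Pool.Agent.Lib.MP_610fe3_an.Commute

/-!
# Hyperplane fields: coordinates of the unstable sets
-/

open Set Filter Function
open scoped Topology

namespace Pool.Agent.Lib.MP610fe3.T5

open Cf H6 T4

universe u v

/-- Module PSI. -/
theorem psi : SpecPsi.{u, v} := by
  intro M _ _ W _ _ _ J f s hs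
  obtain ⟨εc, Cc, hcrd⟩ := specCrd M W J f.symm s.swap hs.swap
  have hC := hcrd.one_le
  refine ⟨Cc, εc, hC, hcrd.ε_pos, fun ε hε hεc => ?_⟩
  obtain ⟨r, hr, hsurj⟩ := hcrd.surj ε hε
  classical
  have hex : ∀ (x : M) (u : W), ∃ z : M, s.U x u = u → ‖u‖ ≤ r →
      z ∈ Wl f.symm ε x ∧ s.U x (J.e z - J.e x) = u := by
    intro x u
    by_cases h : s.U x u = u ∧ ‖u‖ ≤ r
    · obtain ⟨z, hz, hzu⟩ := hsurj x u h.1 h.2
      exact ⟨z, fun _ _ => ⟨hz, hzu⟩⟩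
    · exact ⟨x, fun h1 h2 => absurd ⟨h1, h2⟩ h⟩
  choose Ψ hΨ using hex
  have hinj : ∀ x, ∀ z ∈ Wl f.symm ε x, ∀ z' ∈ Wl f.symm ε x,
      dist z z' ≤ Cc * ‖s.U x (J.e z - J.e z')‖ := fun x z hz z' hz' =>
    hcrd.lower x z (Wl_mono hεc hz) z' (Wl_mono hεc hz')
  refine ⟨Ψ, r, hε, hr, hC, fun x u h1 h2 => (hΨ x u h1 h2).1, fun x u h1 h2 => (hΨ x u h1 h2).2,
    fun x u v h1 h2 h3 h4 => ?_, hinj, ?_⟩
  · have h5 := hinj x _ (hΨ x u h1 h2).1 _ (hΨ x v h3 h4).1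
    have h6 : J.e (Ψ x u) - J.e (Ψ x v) = (J.e (Ψ x u) - J.e x) - (J.e (Ψ x v) - J.e x) := by
      abel
    rw [h6, map_sub, (hΨ x u h1 h2).2, (hΨ x v h3 h4).2] at h5
    exact h5
  · intro b₀ hb₀
    refine le_nhds_of_unique_clusterPt fun y hy => ?_
    obtain ⟨𝒰, h𝒰, hlim⟩ := mapClusterPt_iff_ultrafilter.1 hy
    have hS : ∀ᶠ b in (𝒰 : Filter (M × W)), s.U b.1 b.2 = b.2 ∧ ‖b.2‖ ≤ r :=
      h𝒰 self_mem_nhdsWithin
    have hb1 : Tendsto (fun b : M × W => b.1) 𝒰 (𝓝 b₀.1) :=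
      (continuous_fst.tendsto b₀).mono_left (h𝒰.trans nhdsWithin_le_nhds)
    have hb2 : Tendsto (fun b : M × W => b.2) 𝒰 (𝓝 b₀.2) :=
      (continuous_snd.tendsto b₀).mono_left (h𝒰.trans nhdsWithin_le_nhds)
    have hy1 : y ∈ Wl f.symm ε b₀.1 := by
      have h1 : Tendsto (fun b : M × W => (b.1, Ψ b.1 b.2)) 𝒰 (𝓝 (b₀.1, y)) :=
        hb1.prodMk_nhds hlim
      exact (Cf.H1.isClosed_wl f.symm ε).mem_of_tendsto h1 (hS.mono fun b hb => (hΨ b.1 b.2 hb.1 hb.2).1)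
    have hUc := s.continuous_U hs
    have hJc : Continuous J.e := J.isom.continuous
    have hy2 : s.U b₀.1 (J.e y - J.e b₀.1) = b₀.2 := by
      have hF : Continuous fun q : M × M => s.U q.1 (J.e q.2 - J.e q.1) :=
        (hUc.comp continuous_fst).clm_apply
          ((hJc.comp continuous_snd).sub (hJc.comp continuous_fst))
      have h1 : Tendsto (fun b : M × W => s.U b.1 (J.e (Ψ b.1 b.2) - J.e b.1)) 𝒰
          (𝓝 (s.U b₀.1 (J.e y - J.e b₀.1))) :=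
        (hF.tendsto (b₀.1, y)).comp (hb1.prodMk_nhds hlim)
      exact tendsto_nhds_unique (h1.congr' (hS.mono fun b hb => (hΨ b.1 b.2 hb.1 hb.2).2)) hb2
    have h3 := hinj b₀.1 y hy1 _ (hΨ b₀.1 b₀.2 hb₀.1 hb₀.2).1
    have h4 : J.e y - J.e (Ψ b₀.1 b₀.2) =
        (J.e y - J.e b₀.1) - (J.e (Ψ b₀.1 b₀.2) - J.e b₀.1) := by abel
    rw [h4, map_sub, hy2, (hΨ b₀.1 b₀.2 hb₀.1 hb₀.2).2, sub_self, norm_zero, mul_zero] at h3
    exact dist_le_zero.1 h3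

end Pool.Agent.Lib.MP610fe3.T5
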