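import Pool.Agent.Lib.MP_610fe3_an.T5.Ref

/-!
# Module REACH0: the crude reachability
-/

open Set Filter Function
open scoped Topology

namespace Pool.Agent.Lib.MP610fe3.T5

open Cf H6 T4

universe v

namespace Reach0M

open RefM

variable {M : Type v} [MetricSpace M] {f : M ≃ₜ M} {ε₀ C l ρ Λ b : ℝ}

/-- Points which are close at time `0` and at all times `k ≤ m`. -/
theorem wl_of_close (hD : Dec f.symm ε₀ C l) {r : ℝ} {m : ℕ} {x y : M}
    (hxy : y ∈ Wl f.symm ε₀ x) (h0 : C * dist y x ≤ r)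
    (h : ∀ k ≤ m, dist (f^[k] y) (f^[k] x) ≤ r) : f^[m] y ∈ Wl f.symm r (f^[m] x) :=
  H1.wl_back_iter (H1.wl_mono (wl_of_dist hD hxy) h0) h

theorem reach (hD : Dec f.symm ε₀ C l) (hS : Slow f.symm ρ ε₀ Λ (Real.exp b)) (hΛ : 0 ≤ Λ)
    (hb : 0 ≤ b) : N3.ReachW f univ ρ b := by
  intro r hr
  refine ⟨C * Λ / r + 2, fun m p _ q _ hq => ?_⟩
  have hC : 1 ≤ C := hD.one_le
  have hC0 : 0 ≤ C := zero_le_one.trans hC
  obtain ⟨γ, -, h0, h1, h2, h3⟩ := hS p q hq
  have hB : 1 ≤ Real.exp (b * m) := Real.one_le_exp (by positivity)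
  obtain ⟨G, hG, hG1, hG2⟩ := exists_pieces (A := C * Λ) (r := r) (B := Real.exp (b * m))
    (by positivity) hr hB
  have hG' : (0 : ℝ) < G := by exact_mod_cast hG
  refine ⟨G, fun i => γ ((i : ℝ) / G), hG2, ?_, ?_, fun i hi => ?_⟩
  · simpa using h0
  · simpa [div_self hG'.ne'] using h1
  · have hi' : ((i : ℝ) + 1) ≤ G := by exact_mod_cast hi
    have hi0 : (0 : ℝ) ≤ i := Nat.cast_nonneg i
    have m1 : ((i + 1 : ℕ) : ℝ) / G ∈ Icc (0 : ℝ) 1 := by
      refine ⟨by positivity, ?_⟩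
      rw [div_le_one hG']
      push_cast
      exact hi'
    have m2 : (i : ℝ) / G ∈ Icc (0 : ℝ) 1 := by
      refine ⟨by positivity, ?_⟩
      rw [div_le_one hG']
      linarith
    have h4 : |((i + 1 : ℕ) : ℝ) / G - (i : ℝ) / G| = 1 / G := by
      have : ((i + 1 : ℕ) : ℝ) / G - (i : ℝ) / G = 1 / G := by
        push_cast
        ring
      rw [this, abs_of_pos (by positivity)]
    have h5 : ∀ k ≤ m, dist (f^[k] (γ (((i + 1 : ℕ) : ℝ) / G))) (f^[k] (γ ((i : ℝ) / G))) ≤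
        Λ * Real.exp (b * m) / G := by
      intro k hk
      have h6 := h3 k _ m1 _ m2
      rw [h4] at h6
      refine h6.trans ?_
      rw [← Real.exp_nat_mul, mul_one_div]
      have h7 : Real.exp (k * b) ≤ Real.exp (b * m) := by
        refine Real.exp_le_exp.2 ?_
        rw [mul_comm]
        have : (k : ℝ) ≤ m := by exact_mod_cast hk
        exact mul_le_mul_of_nonneg_left this hb
      gcongr
    have h8 : Λ * Real.exp (b * m) / G ≤ r := by
      refine le_trans ?_ hG1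
      have h9 : Λ ≤ C * Λ := le_mul_of_one_le_left hΛ hC
      gcongr
    refine wl_of_close hD (h2 _ m1 _ m2) ?_ fun k hk => (h5 k hk).trans h8
    have h9 := h3 0 _ m1 _ m2
    rw [h4] at h9
    simp only [iterate_zero, id_eq, pow_zero, mul_one] at h9
    calc C * dist (γ (((i + 1 : ℕ) : ℝ) / G)) (γ ((i : ℝ) / G)) ≤ C * (Λ * (1 / G)) := by
          gcongr
      _ = C * Λ * 1 / G := by ring
      _ ≤ C * Λ * Real.exp (b * m) / G := by gcongr
      _ ≤ r := hG1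

theorem mono {P : Set M} {e e' b : ℝ} (h : N3.ReachW f P e' b) (he : e ≤ e') :
    N3.ReachW f P e b := by
  intro r hr
  obtain ⟨Λ, hΛ⟩ := h r hr
  exact ⟨Λ, fun m p hp q hq hpq => hΛ m p hp q hq (H1.wl_mono hpq he)⟩

end Reach0M

open Reach0M

theorem reach0 : SpecReach0.{v} := by
  intro M _ _ f ε₀ C a as bs b₀ β h
  obtain ⟨ρ, Λ, hρ, hΛ, hslow⟩ := h.slow ε₀ h.br.ε_pos
  obtain ⟨ρ', Λ', hρ', hΛ', hslow'⟩ := h.slow' ε₀ h.br.ε_pos
  refine ⟨min ρ ρ', lt_min hρ hρ', ?_, ?_⟩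
  · exact mono (reach h.bwd hslow' hΛ' h.b₀_nonneg) (min_le_right _ _)
  · refine mono (reach (f := f.symm) (ε₀ := ε₀) (C := C) (l := Real.exp (-as)) (b := bs) ?_ ?_
      hΛ ?_) (min_le_left _ _)
    · exact h.fwd
    · exact hslow
    · exact h.as_pos.le.trans h.as_le

end Pool.Agent.Lib.MP610fe3.T5
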