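import Pool.Agent.Lib.MP_610fe3_an.T5.Spec
import Pool.Agent.Lib.MP_610fe3_an.Cf.H1Wl

/-!
# Module REF: division of steps
-/

open Set Filter Function
open scoped Topology

namespace Pool.Agent.Lib.MP610fe3.T5

open Cf H6 T4

universe v

namespace RefM

variable {M : Type v} [MetricSpace M] {f : M ≃ₜ M} {ε₀ C l : ℝ}

/-- In a local stable set of size `ε₀` closeness is preserved. -/
theorem wl_of_dist (hD : Dec f ε₀ C l) {x z : M} (hz : z ∈ Wl f ε₀ x) :
    z ∈ Wl f (C * dist z x) x := by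
  intro k
  refine (hD.dec x z hz k).trans ?_
  have h1 : l ^ k ≤ 1 := pow_le_one₀ hD.l_pos.le hD.l_lt.le
  have hC : 0 ≤ C := zero_le_one.trans hD.one_le
  calc C * l ^ k * dist z x ≤ C * 1 * dist z x := by gcongr
    _ = C * dist z x := by rw [mul_one]

/-- The number of pieces. -/
theorem exists_pieces {A r B : ℝ} (hA : 0 ≤ A) (hr : 0 < r) (hB : 1 ≤ B) :
    ∃ G : ℕ, 0 < G ∧ A * B / G ≤ r ∧ (G : ℝ) ≤ (A / r + 2) * B := by
  refine ⟨⌈A * B / r⌉₊ + 1, Nat.succ_pos _, ?_, ?_⟩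
  · have h1 : A * B / r ≤ (⌈A * B / r⌉₊ : ℝ) := Nat.le_ceil _
    have h2 : (0 : ℝ) < ((⌈A * B / r⌉₊ + 1 : ℕ) : ℝ) := by positivity
    rw [div_le_iff₀ h2]
    rw [div_le_iff₀ hr] at h1
    push_cast
    nlinarith
  · have h1 : (⌈A * B / r⌉₊ : ℝ) < A * B / r + 1 := Nat.ceil_lt_add_one (by positivity)
    push_cast
    have h2 : (A / r + 2) * B = A * B / r + 2 * B := by ring
    rw [h2]
    linarith

end RefM

open RefM

theorem ref : SpecRef.{v} := by
  intro M _ _ f ε₀ C a as bs b₀ β h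
  obtain ⟨ρ₀, Λ, hρ₀, hΛ, hslow⟩ := h.slow' ε₀ h.br.ε_pos
  refine ⟨ρ₀, hρ₀, fun r' hr' => ?_⟩
  have hC : 1 ≤ C := h.br.one_le
  have hC0 : 0 ≤ C := zero_le_one.trans hC
  obtain ⟨D, hD, hD1, -⟩ := exists_pieces (A := C * Λ) (r := r') (B := 1) (by positivity) hr' le_rfl
  rw [mul_one] at hD1
  refine ⟨D, hD, fun r hr m K p q hc => ?_⟩
  obtain ⟨c, hc0, hcK, -, hc⟩ := hc
  have hD' : (0 : ℝ) < D := by exact_mod_cast hD
  -- the paths
  have hg : ∀ i : ℕ, ∃ g : ℝ → M, i < K → g 0 = f^[m] (c i) ∧ g 1 = f^[m] (c (i + 1)) ∧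
      ∀ t ∈ Icc (0 : ℝ) 1, ∀ t' ∈ Icc (0 : ℝ) 1, g t ∈ Wl f.symm (C * (Λ * |t - t'|)) (g t') := by
    intro i
    by_cases hi : i < K
    · obtain ⟨g, -, h0, h1, h2, h3⟩ := hslow (f^[m] (c i)) (f^[m] (c (i + 1)))
        (H1.wl_mono (hc i hi) hr)
      refine ⟨g, fun _ => ⟨h0, h1, fun t ht t' ht' => ?_⟩⟩
      refine H1.wl_mono (wl_of_dist h.bwd (h2 t ht t' ht')) ?_
      refine mul_le_mul_of_nonneg_left ?_ hC0
      have h4 := h3 0 t ht t' ht'
      simpa using h4
    · exact ⟨fun _ => p, fun h => absurd h hi⟩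
  choose g hg using hg
  let c' : ℕ → M := fun i => if i / D < K then f.symm^[m] (g (i / D) ((i % D : ℕ) / D)) else c K
  have key : ∀ i < K, ∀ j ≤ D, f^[m] (c' (D * i + j)) = g i (j / D) := by
    intro i hi j hj
    obtain ⟨h0, h1, -⟩ := hg i hi
    rcases hj.lt_or_eq with hj | hj
    · have h2 : (D * i + j) / D = i := by
        rw [Nat.mul_add_div hD, Nat.div_eq_of_lt hj, add_zero]
      have h3 : (D * i + j) % D = j := by
        rw [Nat.mul_add_mod, Nat.mod_eq_of_lt hj]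
      simp only [c', h2, h3, hi, if_true]
      exact H1.iter_symm_iter f m _
    · rw [hj]
      have h2 : (D * i + D) / D = i + 1 := by
        rw [Nat.mul_add_div hD, Nat.div_self hD]
      have h3 : (D * i + D) % D = 0 := by
        rw [Nat.mul_add_mod, Nat.mod_self]
      have h4 : f^[m] (c' (D * i + D)) = f^[m] (c (i + 1)) := by
        simp only [c', h2, h3]
        split_ifs with h5
        · rw [H1.iter_symm_iter]
          obtain ⟨h6, -, -⟩ := hg (i + 1) h5
          simpa using h6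
        · have : K = i + 1 := by omega
          rw [this]
      rw [h4, ← h1, div_self hD'.ne']
  refine ⟨c', ?_, ?_, fun _ _ => mem_univ _, fun i hi => ?_⟩
  · rcases Nat.eq_zero_or_pos K with hK | hK
    · simp only [c', hK, Nat.not_lt_zero, if_false]
      exact hc0
    · have h1 : f^[m] (c' 0) = f^[m] (c 0) := by
        have h2 := key 0 hK 0 (Nat.zero_le _)
        rw [mul_zero, zero_add] at h2
        rw [h2]
        simpa using (hg 0 hK).1
      rw [← hc0]
      exact (f.injective.iterate m) h1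
  · have h1 : ¬ (D * K / D < K) := by
      rw [Nat.mul_div_cancel_left K hD]
      exact lt_irrefl _
    simp only [c', h1, if_false]
    exact hcK
  · have h1 : i / D < K := Nat.div_lt_of_lt_mul hi
    have h2 : i % D < D := Nat.mod_lt _ hD
    have h3 : D * (i / D) + i % D = i := Nat.div_add_mod i D
    have h4 := key (i / D) h1 (i % D) h2.le
    have h5 := key (i / D) h1 (i % D + 1) h2
    rw [h3] at h4
    rw [← add_assoc, h3] at h5
    rw [h4, h5]
    have h6 : ((i % D : ℕ) : ℝ) + 1 ≤ D := by exact_mod_cast h2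
    have h7 : (0 : ℝ) ≤ ((i % D : ℕ) : ℝ) := Nat.cast_nonneg _
    refine H1.wl_mono ((hg (i / D) h1).2.2 _ ⟨by positivity, ?_⟩ _ ⟨by positivity, ?_⟩) ?_
    · rw [div_le_one hD']
      push_cast
      exact h6
    · rw [div_le_one hD']
      linarith
    · have h8 : ((((i % D + 1 : ℕ) : ℝ) / D) - (((i % D : ℕ) : ℝ) / D)) = 1 / D := by
        push_cast
        ring
      rw [h8, abs_of_pos (by positivity)]
      calc C * (Λ * (1 / D)) = C * Λ / D := by ring
        _ ≤ r' := hD1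

end Pool.Agent.Lib.MP610fe3.T5
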