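import Pool.Agent.Lib.MP_610fe3_an.T5.Spec
import Pool.Agent.Lib.MP_610fe3_an.Cf.H1Wl

/-!
# Module SCALES: the choice of the scales of the second case
-/

open Set Filter Function
open scoped Topology

namespace Pool.Agent.Lib.MP610fe3.T5

open Cf H6 T4 Cf.H1

universe u v w

theorem scales : SpecScales.{v} := by
  intro M _ _ f ε₀ C a as bs b₀ β n Mi V R ρ K r hH hV hT hR hr hrR hN
  have hε₀ : 0 < ε₀ := hH.br.ε_pos
  -- the scale of the brackets of chains
  obtain ⟨d, hd, hbr⟩ := hH.br.exist (r / 16) (by positivity)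
  set εb : ℝ := r / 16 with hεb
  have hεb0 : 0 < εb := by positivity
  set δb : ℝ := min (d / 2) εb with hδb
  have hδb0 : 0 < δb := lt_min (by positivity) hεb0
  have hδbd : δb < d := (min_le_left _ _).trans_lt (by linarith)
  -- uniform continuity
  have huf : UniformContinuous f := CompactSpace.uniformContinuous_of_continuous f.continuous
  have hug : UniformContinuous f.symm :=
    CompactSpace.uniformContinuous_of_continuous f.symm.continuous
  obtain ⟨d1, hd1, hf1⟩ := Metric.uniformContinuous_iff.1 huf εb hεb0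
  obtain ⟨d2, hd2, hf2⟩ := Metric.uniformContinuous_iff.1 hug εb hεb0
  set ε : ℝ := min (δb / 16) (min (d1 / 8) (d2 / 8)) with hε
  have hε0 : 0 < ε := lt_min (by positivity) (lt_min (by positivity) (by positivity))
  have hε1 : 16 * ε ≤ δb := by
    have : ε ≤ δb / 16 := min_le_left _ _
    linarith
  have hεd1 : 4 * ε < d1 := by
    have : ε ≤ d1 / 8 := (min_le_right _ _).trans (min_le_left _ _)
    linarith
  have hεd2 : 4 * ε < d2 := by
    have : ε ≤ d2 / 8 := (min_le_right _ _).trans (min_le_right _ _)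
    linarith
  -- curves
  obtain ⟨R₁, L, hR₁, hR₁R, hL, hcv⟩ := hT (ε / 2) (by positivity)
  set R' : ℝ := min R₁ ε with hR'
  have hR'0 : 0 < R' := lt_min hR₁ hε0
  -- slow paths
  obtain ⟨ρs, Λs, hρs, hΛs, hslow⟩ := hH.slow (ε₀ / 2) (by positivity)
  set εh : ℝ := min R' ρs with hεh
  have hεh0 : 0 < εh := lt_min hR'0 hρs
  obtain ⟨d3, hd3, hbr3⟩ := hH.br.exist εh hεh0
  set δh : ℝ := min (d3 / 2) εh with hδh
  have hδh0 : 0 < δh := lt_min (by positivity) hεh0
  have hδhd : δh < d3 := (min_le_left _ _).trans_lt (by linarith)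
  choose idx hidx hidx' using hV.cover
  refine ⟨εb, δb, ε, L, R', εh, δh, δh / 4, idx, ?_⟩
  refine
    { hyb := hH
      vrt := hV
      nos := hN
      idx_lt := hidx
      idx_mem := hidx'
      R_le := hR
      r_le := hrR
      r_pos := hr
      εb_pos := hεb0
      εb_le := by rw [hεb]; linarith
      δb_pos := hδb0
      br_b := fun x y hxy => hbr x y (hxy.trans_lt hδbd)
      δb_le := min_le_right _ _
      ε_pos := hε0
      ε_le := hε1
      L_nonneg := hL
      tan := ?_
      R'_pos := hR'0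
      R'_le := min_le_right _ _
      unif := fun x y hxy =>
        ⟨(hf1 (hxy.trans_lt hεd1)).le, (hf2 (hxy.trans_lt hεd2)).le⟩
      εh_pos := hεh0
      εh_le := min_le_left _ _
      δh_pos := hδh0
      br_h := fun x y hxy => hbr3 x y (hxy.trans_lt hδhd)
      δh_le := min_le_right _ _
      slow_h := ⟨Λs, hΛs, fun x y hy => hslow x y (wl_mono hy (min_le_right _ _))⟩
      rB_pos := by positivity
      rB_le := by linarith }
  intro i hi x hx p hp z hz
  obtain ⟨γ, τ, hτ, h0, h1, hw, hd'⟩ := hcv i hi x hx p (wl_mono hp (min_le_left _ _)) z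
    (wl_mono hz (min_le_left _ _))
  refine ⟨τ, hτ, γ, h0, h1, fun t ht t' ht' => ⟨?_, hd' t ht t' ht'⟩⟩
  have := wl_trans (hw t ht) (wl_symm (hw t' ht'))
  exact wl_mono this (by linarith)

end Pool.Agent.Lib.MP610fe3.T5
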