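import Pool.Agent.Lib.MP_610fe3_an.T5.Spec
import Pool.Agent.Lib.MP_610fe3_an.Commute

/-!
# Hyperplane fields: slopes
-/

open Set Filter Function
open scoped Topology

namespace Pool.Agent.Lib.MP610fe3.T5

open Cf H6 T4

universe u v

namespace SlpM

variable {M : Type v} [MetricSpace M] [CompactSpace M] {W : Type u} [NormedAddCommGroup W]
  [NormedSpace ℝ W] {J : Emb M W} {f : M ≃ₜ M}

theorem exists_closeU (s : Split J f) (hs : s.Hyperbolic) {κ : ℝ} (hκ : 0 < κ) :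
    ∃ r : ℝ, 0 < r ∧ ∀ x z, dist z x ≤ r → ∀ w, ‖s.U x w - s.U z w‖ ≤ κ * ‖w‖ := by
  have hu := CompactSpace.uniformContinuous_of_continuous (s.continuous_U hs)
  obtain ⟨r, hr, h⟩ := Metric.uniformContinuous_iff.1 hu κ hκ
  refine ⟨r / 2, by positivity, fun x z hz w => ?_⟩
  have h1 : dist (s.U x) (s.U z) < κ := h (by rw [dist_comm]; linarith)
  rw [dist_eq_norm] at h1
  calc ‖s.U x w - s.U z w‖ = ‖(s.U x - s.U z) w‖ := rfl
    _ ≤ ‖s.U x - s.U z‖ * ‖w‖ := (s.U x - s.U z).le_opNorm w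
    _ ≤ κ * ‖w‖ := mul_le_mul_of_nonneg_right h1.le (norm_nonneg _)

omit [CompactSpace M] in
/-- The estimates. -/
theorem bound (s : Split J f) (F : M → Submodule ℝ W) (hF : Fld s F) {K η κ : ℝ} (hK : 1 ≤ K)
    (hη : η = 1 / (8 * K)) (hκ : κ = 1 / (8 * K ^ 2)) {x z : M} {e : W} {θ : W →L[ℝ] ℝ}
    (he : ‖e‖ ≤ K) (hθe : θ e = 1) (hθ : ‖θ‖ ≤ K)
    (hsl : ∀ w ∈ F z, |θ w| ≤ η * ‖w‖) (hc : ∀ w, ‖s.U x w - s.U z w‖ ≤ κ * ‖w‖)
    {h v : W} {t : ℝ} (hh : θ h = 0) (hv : v ∈ F z) (heq : s.U x v = h + t • e) :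
    ‖v‖ ≤ 2 * ‖h‖ ∧ |t| ≤ ‖h‖ := by
  have hK0 : 0 < K := by linarith
  have hvz := hF.sub z v hv
  have h1 : ‖s.U x v - v‖ ≤ κ * ‖v‖ := by
    have := hc v
    rwa [hvz] at this
  have ht : t = θ (s.U x v) := by
    rw [heq, map_add, map_smul, hh, hθe]
    simp
  have h2 : |t| ≤ (η + K * κ) * ‖v‖ := by
    have h3 : t = θ v + θ (s.U x v - v) := by
      rw [ht, map_sub]
      ring
    have h4 : |θ (s.U x v - v)| ≤ K * (κ * ‖v‖) := by
      calc |θ (s.U x v - v)| ≤ ‖θ‖ * ‖s.U x v - v‖ := θ.le_opNorm _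
        _ ≤ K * (κ * ‖v‖) := mul_le_mul hθ h1 (norm_nonneg _) hK0.le
    rw [h3]
    have := abs_add_le (θ v) (θ (s.U x v - v))
    have := hsl v hv
    nlinarith
  have hηK : η + K * κ = 1 / (4 * K) := by
    rw [hη, hκ]
    field_simp
    ring
  rw [hηK] at h2
  have hκ1 : κ ≤ 1 / 8 := by
    rw [hκ, div_le_div_iff₀ (by positivity) (by norm_num)]
    nlinarith
  have h5 : ‖v‖ ≤ ‖h‖ + |t| * K + κ * ‖v‖ := by
    have h6 : v = h + t • e - (s.U x v - v) := by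
      rw [heq]
      abel
    have h7 := norm_sub_le (h + t • e) (s.U x v - v)
    rw [← h6] at h7
    have h8 := norm_add_le h (t • e)
    rw [norm_smul, Real.norm_eq_abs] at h8
    have h9 : |t| * ‖e‖ ≤ |t| * K := mul_le_mul_of_nonneg_left he (abs_nonneg _)
    linarith
  have h10 : |t| * K ≤ 1 / 4 * ‖v‖ := by
    have : |t| * K ≤ (1 / (4 * K) * ‖v‖) * K := mul_le_mul_of_nonneg_right h2 hK0.le
    have h11 : (1 / (4 * K) * ‖v‖) * K = 1 / 4 * ‖v‖ := by
      field_simp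
    linarith
  have hv0 := norm_nonneg v
  have h12 : κ * ‖v‖ ≤ 1 / 8 * ‖v‖ := mul_le_mul_of_nonneg_right hκ1 hv0
  have h13 : ‖v‖ ≤ 2 * ‖h‖ := by
    have := norm_nonneg h
    linarith
  refine ⟨h13, ?_⟩
  have h14 : |t| ≤ |t| * K := le_mul_of_one_le_right (abs_nonneg _) hK
  linarith [norm_nonneg h]

variable [FiniteDimensional ℝ W]

/-- Existence. -/
theorem exists_lift (s : Split J f) (F : M → Submodule ℝ W) (hF : Fld s F) {K η κ : ℝ}
    (hK : 1 ≤ K) (hη : η = 1 / (8 * K)) (hκ : κ = 1 / (8 * K ^ 2)) {x z : M} {e : W}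
    {θ : W →L[ℝ] ℝ} (he : ‖e‖ ≤ K) (hθe : θ e = 1) (hθ : ‖θ‖ ≤ K) (heU : s.U x e = e)
    (hsl : ∀ w ∈ F z, |θ w| ≤ η * ‖w‖) (hc : ∀ w, ‖s.U x w - s.U z w‖ ≤ κ * ‖w‖)
    {h : W} (hh : s.U x h = h) : ∃ t : ℝ, ∃ v ∈ F z, s.U x v = h + t • e := by
  have hκ1 : κ ≤ 1 / 8 := by
    rw [hκ, div_le_div_iff₀ (by positivity) (by norm_num)]
    nlinarith
  have hUU : ∀ y w, s.U y (s.U y w) = s.U y w := fun y w =>
    congrArg (fun L : W →L[ℝ] W => L w) (s.UU y)
  set R : M → Submodule ℝ W := fun y => LinearMap.range (s.U y).toLinearMap with hR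
  have hmem : ∀ y w, w ∈ R y ↔ s.U y w = w := by
    intro y w
    constructor
    · rintro ⟨a, rfl⟩
      exact hUU y a
    · intro h
      exact ⟨w, h⟩
  -- the dimension of the range does not increase
  have d1 : Module.finrank ℝ (R x) ≤ Module.finrank ℝ (R z) := by
    let L : R x →ₗ[ℝ] R z :=
      LinearMap.codRestrict (R z) ((s.U z).toLinearMap ∘ₗ (R x).subtype)
        (fun w => (hmem z _).2 (hUU z _))
    refine LinearMap.finrank_le_finrank_of_injective (f := L) ?_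
    rw [← LinearMap.ker_eq_bot, LinearMap.ker_eq_bot']
    intro w hw
    have h1 : s.U z (w : W) = 0 := congrArg Subtype.val hw
    have h2 : s.U x (w : W) = w := (hmem x _).1 w.2
    have h3 := hc (w : W)
    rw [h1, h2, sub_zero] at h3
    have h4 : ‖(w : W)‖ = 0 := by
      have := norm_nonneg (w : W)
      nlinarith
    exact Subtype.ext (norm_eq_zero.1 h4)
  -- `F z` is a hyperplane
  obtain ⟨e', he', -, hspan⟩ := hF.hyp z
  have d2 : Module.finrank ℝ (R z) ≤ Module.finrank ℝ (F z × ℝ) := by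
    let L : (F z × ℝ) →ₗ[ℝ] W := (F z).subtype.coprod (LinearMap.toSpanSingleton ℝ W e')
    have h1 : R z ≤ LinearMap.range L := by
      intro u hu
      obtain ⟨c, hcu⟩ := hspan u ((hmem z u).1 hu)
      refine ⟨(⟨u - c • e', hcu⟩, c), ?_⟩
      simp [L]
    exact (Submodule.finrank_mono h1).trans (LinearMap.finrank_range_le L)
  let L : (F z × ℝ) →ₗ[ℝ] R x :=
    LinearMap.codRestrict (R x)
      (((s.U x).toLinearMap ∘ₗ (F z).subtype).coprod (- LinearMap.toSpanSingleton ℝ W e))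
      (fun w => by
        refine (hmem x _).2 ?_
        simp [hUU, heU])
  have hL : ∀ w : F z × ℝ, (L w : W) = s.U x (w.1 : W) - w.2 • e := by
    intro w
    simp [L, sub_eq_add_neg]
  have hinj : Injective L := by
    rw [← LinearMap.ker_eq_bot, LinearMap.ker_eq_bot']
    rintro ⟨v, t⟩ hw
    have h1 : s.U x (v : W) - t • e = 0 := by
      rw [← hL (v, t), hw]
      rfl
    have h2 : s.U x (v : W) = 0 + t • e := by
      rw [zero_add]
      exact sub_eq_zero.1 h1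
    have h3 := bound s F hF hK hη hκ he hθe hθ hsl hc (map_zero θ) v.2 h2
    rw [norm_zero, mul_zero] at h3
    have h4 : (v : W) = 0 := norm_eq_zero.1 (le_antisymm h3.1 (norm_nonneg _))
    have h5 : t = 0 := abs_eq_zero.1 (le_antisymm h3.2 (abs_nonneg _))
    rw [Prod.mk_eq_zero]
    exact ⟨Subtype.ext h4, h5⟩
  have hdim : Module.finrank ℝ (F z × ℝ) = Module.finrank ℝ (R x) :=
    le_antisymm (LinearMap.finrank_le_finrank_of_injective hinj) (d1.trans d2)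
  have hsurj : Surjective L :=
    (LinearMap.injective_iff_surjective_of_finrank_eq_finrank hdim).1 hinj
  obtain ⟨⟨v, t⟩, hvt⟩ := hsurj ⟨h, (hmem x h).2 hh⟩
  refine ⟨t, v, v.2, ?_⟩
  have h1 := hL (v, t)
  rw [hvt] at h1
  simp only at h1
  rw [h1]
  abel

end SlpM

open SlpM in
/-- Module SLP. -/
theorem slp : SpecSlp.{u, v} := by
  classical
  intro M _ _ W _ _ _ J f s F hs hF K hK
  refine ⟨1 / (8 * K), by positivity, ?_⟩
  intro n Mi e θ δ hfr
  have hκ0 : (0 : ℝ) < 1 / (8 * K ^ 2) := by positivity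
  obtain ⟨r, hr, hclose⟩ := exists_closeU s hs hκ0
  let α : ℕ → M → M → W → ℝ := fun i x z h =>
    if H : ∃ t : ℝ, ∃ v ∈ F z, s.U x v = h + t • e i x then H.choose else 0
  have hδ : 0 < min δ r := lt_min hfr.δ_pos hr
  have hex : ∀ i < n, ∀ x ∈ Mi i, ∀ z, dist z x ≤ min δ r → ∀ h, s.U x h = h →
      ∃ v ∈ F z, s.U x v = h + α i x z h • e i x := by
    intro i hi x hx z hz h hh
    have H : ∃ t : ℝ, ∃ v ∈ F z, s.U x v = h + t • e i x :=
      exists_lift s F hF hK rfl rfl (hfr.e_le i hi x hx) (hfr.θ_e i hi x hx) (hfr.θ_le i hi)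
        (hfr.e_U i hi x hx) (hfr.slope i hi x hx z (hz.trans (min_le_left _ _)))
        (hclose x z (hz.trans (min_le_right _ _))) hh
    simp only [α, dif_pos H]
    exact H.choose_spec
  have hbd : ∀ i < n, ∀ x ∈ Mi i, ∀ z, dist z x ≤ min δ r → ∀ h v : W, ∀ t : ℝ, θ i h = 0 →
      v ∈ F z → s.U x v = h + t • e i x → ‖v‖ ≤ 2 * ‖h‖ ∧ |t| ≤ ‖h‖ := by
    intro i hi x hx z hz h v t hh hv heq
    exact bound s F hF hK rfl rfl (hfr.e_le i hi x hx) (hfr.θ_e i hi x hx) (hfr.θ_le i hi)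
      (hfr.slope i hi x hx z (hz.trans (min_le_left _ _)))
      (hclose x z (hz.trans (min_le_right _ _))) hh hv heq
  have huniq : ∀ i < n, ∀ x ∈ Mi i, ∀ z, dist z x ≤ min δ r → ∀ h v v' : W, ∀ t t' : ℝ,
      v ∈ F z → s.U x v = h + t • e i x → v' ∈ F z → s.U x v' = h + t' • e i x → t = t' := by
    intro i hi x hx z hz h v v' t t' hv heq hv' heq'
    have h1 : s.U x (v - v') = 0 + (t - t') • e i x := by
      rw [map_sub, heq, heq', sub_smul]
      abel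
    have h2 := (hbd i hi x hx z hz 0 (v - v') (t - t') (map_zero _) ((F z).sub_mem hv hv') h1).2
    rw [norm_zero] at h2
    exact sub_eq_zero.1 (abs_eq_zero.1 (le_antisymm h2 (abs_nonneg _)))
  refine ⟨α, min δ r, hδ, ?_, ?_, ?_⟩
  · intro i hi x hx z hz h hh hθh
    obtain ⟨v, hv, heq⟩ := hex i hi x hx z hz h hh
    exact (hbd i hi x hx z hz h v _ hθh hv heq).2
  · intro i hi x hx z hz h hh hθh
    obtain ⟨v, hv, heq⟩ := hex i hi x hx z hz h hh
    refine ⟨v, hv, heq, ?_⟩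
    have := (hbd i hi x hx z hz h v _ hθh hv heq).1
    linarith [norm_nonneg h]
  · intro i hi x hx b₀ hb₀
    change Tendsto _ _ _
    rw [tendsto_iff_ultrafilter]
    intro 𝒰 h𝒰
    have hS : ∀ᶠ b in (𝒰 : Filter (M × W)), dist b.1 x ≤ min δ r ∧ s.U x b.2 = b.2 ∧
        θ i b.2 = 0 := h𝒰 self_mem_nhdsWithin
    have hb1 : Tendsto (fun b : M × W => b.1) 𝒰 (𝓝 b₀.1) :=
      (continuous_fst.tendsto b₀).mono_left (h𝒰.trans nhdsWithin_le_nhds)
    have hb2 : Tendsto (fun b : M × W => b.2) 𝒰 (𝓝 b₀.2) :=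
      (continuous_snd.tendsto b₀).mono_left (h𝒰.trans nhdsWithin_le_nhds)
    have hn : ∀ᶠ b in (𝒰 : Filter (M × W)), ‖b.2‖ ≤ ‖b₀.2‖ + 1 := by
      have := hb2.norm.eventually (gt_mem_nhds (show ‖b₀.2‖ < ‖b₀.2‖ + 1 by linarith))
      exact this.mono fun b hb => hb.le
    -- the vectors
    have hv : ∀ b : M × W, ∃ v : W, (dist b.1 x ≤ min δ r ∧ s.U x b.2 = b.2 ∧ θ i b.2 = 0) →
        v ∈ F b.1 ∧ s.U x v = b.2 + α i x b.1 b.2 • e i x := by
      intro b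
      by_cases hb : dist b.1 x ≤ min δ r ∧ s.U x b.2 = b.2 ∧ θ i b.2 = 0
      · obtain ⟨v, hv, heq⟩ := hex i hi x hx b.1 hb.1 b.2 hb.2.1
        exact ⟨v, fun _ => ⟨hv, heq⟩⟩
      · exact ⟨0, fun h => absurd h hb⟩
    choose v hv using hv
    have hvb : ∀ᶠ b in (𝒰 : Filter (M × W)), v b ∈ Metric.closedBall (0 : W)
        (2 * (‖b₀.2‖ + 1)) := by
      filter_upwards [hS, hn] with b hb hb'
      obtain ⟨h1, h2⟩ := hv b hb
      have := (hbd i hi x hx b.1 hb.1 b.2 (v b) _ hb.2.2 h1 h2).1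
      rw [mem_closedBall_zero_iff]
      linarith
    have htb : ∀ᶠ b in (𝒰 : Filter (M × W)), α i x b.1 b.2 ∈ Metric.closedBall (0 : ℝ)
        (‖b₀.2‖ + 1) := by
      filter_upwards [hS, hn] with b hb hb'
      obtain ⟨h1, h2⟩ := hv b hb
      have := (hbd i hi x hx b.1 hb.1 b.2 (v b) _ hb.2.2 h1 h2).2
      rw [mem_closedBall_zero_iff, Real.norm_eq_abs]
      linarith
    obtain ⟨vs, -, hvs⟩ := (isCompact_closedBall (0 : W) (2 * (‖b₀.2‖ + 1))).ultrafilter_le_nhds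
      (𝒰.map v) (by
        rw [le_principal_iff]
        exact hvb)
    obtain ⟨ts, -, hts⟩ := (isCompact_closedBall (0 : ℝ) (‖b₀.2‖ + 1)).ultrafilter_le_nhds
      (𝒰.map fun b => α i x b.1 b.2) (by
        rw [le_principal_iff]
        exact htb)
    have hvs' : Tendsto v 𝒰 (𝓝 vs) := hvs
    have hts' : Tendsto (fun b : M × W => α i x b.1 b.2) 𝒰 (𝓝 ts) := hts
    have hF0 : vs ∈ F b₀.1 := by
      have h1 : Tendsto (fun b : M × W => (b.1, v b)) 𝒰 (𝓝 (b₀.1, vs)) := hb1.prodMk_nhds hvs'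
      exact hF.closed.mem_of_tendsto h1 (hS.mono fun b hb => (hv b hb).1)
    have heq0 : s.U x vs = b₀.2 + ts • e i x := by
      have h1 : Tendsto (fun b : M × W => s.U x (v b)) 𝒰 (𝓝 (s.U x vs)) :=
        ((s.U x).continuous.tendsto vs).comp hvs'
      have h2 : Tendsto (fun b : M × W => b.2 + α i x b.1 b.2 • e i x) 𝒰
          (𝓝 (b₀.2 + ts • e i x)) := hb2.add (hts'.smul_const _)
      exact tendsto_nhds_unique (h1.congr' (hS.mono fun b hb => (hv b hb).2)) h2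
    obtain ⟨h1, h2⟩ := hv b₀ hb₀
    have hfin := huniq i hi x hx b₀.1 hb₀.1 b₀.2 vs (v b₀) ts _ hF0 heq0 h1 h2
    rw [hfin] at hts'
    exact hts'

end Pool.Agent.Lib.MP610fe3.T5
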