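import Pool.Agent.Lib.MP_610fe3_an.T5.Spec

/-!
# Module TANC: limit curves of the polygons (helper55)
-/

open Set Filter Function
open scoped Topology

universe v

namespace Pool.Agent.Lib.MP610fe3.T5.TancM

open Cf H6 T4

/-- Small steps add up. -/
theorem steps {M : Type v} [MetricSpace M] {c : ℕ → M} {g : M → M} {N : ℕ} {A : ℝ}
    (h : ∀ j < N, dist (g (c (j + 1))) (g (c j)) ≤ A) {i j : ℕ} (hij : i ≤ j) (hj : j ≤ N) :
    dist (g (c j)) (g (c i)) ≤ A * ((j : ℝ) - i) := by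
  obtain ⟨d, rfl⟩ := Nat.exists_eq_add_of_le hij
  clear hij
  induction d with
  | zero => simp
  | succ d ih =>
    have h1 := ih (by omega)
    have h2 := h (i + d) (by omega)
    have h3 := dist_triangle (g (c (i + d + 1))) (g (c (i + d))) (g (c i))
    rw [← add_assoc]
    push_cast at h1 ⊢
    have h4 : A * ((i : ℝ) + d + 1 - i) = A * ((i : ℝ) + d - i) + A := by ring
    linarith

/-- The number of steps between the times `t` and `t'`. -/
theorem floor_sub_le {N : ℕ} {t t' : ℝ} (h' : 0 ≤ t') (h : t' ≤ t) :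
    ((⌊t * N⌋₊ : ℝ) - ⌊t' * N⌋₊) ≤ (t - t') * N + 1 := by
  have hN : (0 : ℝ) ≤ N := Nat.cast_nonneg N
  have h1 : (⌊t * N⌋₊ : ℝ) ≤ t * N := Nat.floor_le (mul_nonneg (h'.trans h) hN)
  have h2 : t' * N < ⌊t' * N⌋₊ + 1 := Nat.lt_floor_add_one _
  nlinarith

theorem floor_le {N : ℕ} {t : ℝ} (h : t ≤ 1) : ⌊t * N⌋₊ ≤ N := by
  have hN : (0 : ℝ) ≤ N := Nat.cast_nonneg N
  exact Nat.floor_le_of_le (by nlinarith)

/-- The estimate for the polygons. -/
theorem poly_dist {M : Type v} [MetricSpace M] {c : ℕ → M} {g : M → M} {N : ℕ} {A : ℝ}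
    (hN : 0 < N) (hA : 0 ≤ A)
    (h : ∀ j < N, dist (g (c (j + 1))) (g (c j)) ≤ A * (1 / N)) {t t' : ℝ}
    (ht : t ∈ Icc (0 : ℝ) 1) (ht' : t' ∈ Icc (0 : ℝ) 1) :
    dist (g (c ⌊t * N⌋₊)) (g (c ⌊t' * N⌋₊)) ≤ A * (|t - t'| + 1 / N) := by
  have hN' : (0 : ℝ) < N := Nat.cast_pos.2 hN
  wlog htt : t' ≤ t generalizing t t' with H
  · rw [dist_comm, abs_sub_comm]
    exact H ht' ht (le_of_not_ge htt)
  have h1 := steps (g := g) h (Nat.floor_mono (mul_le_mul_of_nonneg_right htt hN'.le))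
    (floor_le ht.2)
  have h2 := floor_sub_le (N := N) ht'.1 htt
  refine h1.trans ?_
  rw [abs_of_nonneg (by linarith), mul_assoc]
  refine mul_le_mul_of_nonneg_left ?_ hA
  rw [one_div, inv_mul_le_iff₀ hN', mul_add, mul_inv_cancel₀ hN'.ne']
  linarith

theorem specTanc : SpecTanc.{v} := by
  intro M _ _ f ε₀ C a as bs b₀ β n Mi V R ρ K P T L hH hV hP ε hε
  have hK := hV.one_le
  have hK0 : 0 < K := by linarith
  refine ⟨min R (ε / K), L, lt_min hV.R_pos (by positivity), min_le_left _ _, hP.L_nonneg, ?_⟩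
  intro i hi x hx p hp z hz
  have hpR : p ∈ Wl f.symm R x := Wl_mono (min_le_left _ _) hp
  have hzR : z ∈ Wl f.symm R x := Wl_mono (min_le_left _ _) hz
  choose N₀ hN₀ using hP.step
  set N : ℕ → ℕ := fun m => max (N₀ m) (m + 1) with hN
  have hNpos : ∀ m, 0 < N m := fun m => lt_of_lt_of_le (Nat.succ_pos m) (le_max_right _ _)
  have hNge : ∀ m, m + 1 ≤ N m := fun m => le_max_right _ _
  set U : Ultrafilter ℕ := Filter.hyperfilter ℕ with hUdef
  have hU : (U : Filter ℕ) ≤ atTop := by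
    rw [← Nat.cofinite_eq_atTop]
    exact Filter.hyperfilter_le_cofinite
  set g : ℕ → ℝ → M := fun m t => P i x p (N m) z ⌊t * N m⌋₊ with hg
  have hlim : ∀ t, ∃ y, Tendsto (fun m => g m t) U (𝓝 y) := by
    intro t
    obtain ⟨y, -, hy⟩ := (isCompact_univ (X := M)).ultrafilter_le_nhds
      (U.map (fun m => g m t)) (by simp)
    exact ⟨y, hy⟩
  choose γ hγ using hlim
  have hTmem : ∀ m, T i x p (N m) z ∈ Icc (-ρ) ρ := fun m =>
    hP.T_mem i hi x hx p hpR z hzR (N m) (hNpos m)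
  obtain ⟨τ, hτ, hτ'⟩ : ∃ τ ∈ Icc (-ρ) ρ, Tendsto (fun m => T i x p (N m) z) U (𝓝 τ) := by
    obtain ⟨τ, h1, h2⟩ := (isCompact_Icc (a := -ρ) (b := ρ)).ultrafilter_le_nhds
      (U.map (fun m => T i x p (N m) z))
      (by
        rw [le_principal_iff]
        exact Eventually.of_forall (f := (U : Filter ℕ)) hTmem)
    exact ⟨τ, h1, h2⟩
  have hinv : Tendsto (fun m => (1 : ℝ) / N m) U (𝓝 0) := by
    refine Tendsto.mono_left ?_ hU
    refine squeeze_zero (fun m => by positivity) (fun m => ?_)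
      (tendsto_one_div_add_atTop_nhds_zero_nat (𝕜 := ℝ))
    refine one_div_le_one_div_of_le (by positivity) ?_
    exact_mod_cast hNge m
  refine ⟨γ, τ, hτ, ?_, ?_, ?_, ?_⟩
  · have h1 : ∀ m, g m 0 = z := fun m => by
      simp only [hg, zero_mul, Nat.floor_zero]
      exact hP.start i hi x hx p hpR z hzR (N m) (hNpos m)
    have h2 := hγ 0
    simp only [h1] at h2
    exact tendsto_nhds_unique h2 tendsto_const_nhds
  · have h1 : ∀ m, g m 1 = V i x p (T i x p (N m) z) := fun m => by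
      simp only [hg, one_mul, Nat.floor_natCast]
      exact hP.stop i hi x hx p hpR z hzR (N m) (hNpos m)
    have h2 := hγ 1
    simp only [h1] at h2
    refine tendsto_nhds_unique h2 ?_
    rw [tendsto_iff_dist_tendsto_zero]
    have h3 : Tendsto (fun m => K * |T i x p (N m) z - τ|) U (𝓝 0) := by
      have h4 : Tendsto (fun m => |T i x p (N m) z - τ|) U (𝓝 0) := by
        have := tendsto_iff_dist_tendsto_zero.1 hτ'
        simpa [Real.dist_eq] using this
      simpa using h4.const_mul K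
    refine squeeze_zero (fun _ => dist_nonneg) (fun m => ?_) h3
    exact Wl_dist (hV.wl i hi x hx p hpR _ (hTmem m) τ hτ)
  · intro t ht
    refine (isClosed_Wl f.symm ε x).mem_of_tendsto (hγ t) (Eventually.of_forall fun m => ?_)
    have h1 := hP.mem i hi x hx (min R (ε / K)) (min_le_left _ _) p hp z hz (N m) (hNpos m)
      ⌊t * N m⌋₊ (floor_le ht.2)
    refine Wl_mono ?_ h1
    calc K * min R (ε / K) ≤ K * (ε / K) := by gcongr; exact min_le_right _ _
      _ = ε := by field_simp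
  · intro t ht t' ht' k
    have hck : Continuous (f^[k]) := f.continuous.iterate k
    have h1 : Tendsto (fun m => dist (f^[k] (g m t)) (f^[k] (g m t'))) U
        (𝓝 (dist (f^[k] (γ t)) (f^[k] (γ t')))) :=
      ((hck.tendsto _).comp (hγ t)).dist ((hck.tendsto _).comp (hγ t'))
    have h2 : Tendsto (fun m => L * Real.exp (β * k) * (|t - t'| + 1 / N m)) U
        (𝓝 (L * Real.exp (β * k) * (|t - t'| + 0))) :=
      (tendsto_const_nhds.add hinv).const_mul _
    rw [add_zero] at h2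
    refine le_of_tendsto_of_tendsto h1 h2 ?_
    have h3 : ∀ᶠ m in (U : Filter ℕ), k ≤ m := hU (eventually_ge_atTop k)
    filter_upwards [h3] with m hm
    have hA : 0 ≤ L * Real.exp (β * k) := mul_nonneg hP.L_nonneg (Real.exp_pos _).le
    exact poly_dist (g := f^[k]) (hNpos m) hA
      (fun j hj => hN₀ m (N m) (le_max_left _ _) (hNpos m) i hi x hx p hpR z hzR k hm j hj)
      ht ht'

end Pool.Agent.Lib.MP610fe3.T5.TancM

/-- Module TANC. -/
theorem Pool.Agent.Lib.MP610fe3.T5.tanc : Pool.Agent.Lib.MP610fe3.T5.SpecTanc.{v} :=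
  Pool.Agent.Lib.MP610fe3.T5.TancM.specTanc
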