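import Pool.Agent.Lib.MP_610fe3_an.T5.Spec

/-!
# Hyperplane fields in the unstable bundle: module TRAP
-/

open Set Filter Function
open scoped Topology

namespace Pool.Agent.Lib.MP610fe3.T5

open Cf H6 T4

universe v

namespace TrapM

variable {M : Type*} [MetricSpace M] {f : M ≃ₜ M}

/-- The points reached from `x` by `d`-chains. -/
def Rch (f : M ≃ₜ M) (d : ℝ) (x : M) : Set M :=
  {y | ∃ (m : ℕ) (s : ℕ → M), s 0 = x ∧ s (m + 1) = y ∧
    ∀ i < m + 1, dist (f (s i)) (s (i + 1)) < d}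

theorem rch_step {d : ℝ} {x y z : M} (hy : y ∈ Rch f d x) (h : dist (f y) z < d) :
    z ∈ Rch f d x := by
  obtain ⟨m, s, h0, hm, hs⟩ := hy
  refine ⟨m + 1, fun i => if i ≤ m + 1 then s i else z, ?_, ?_, fun i hi => ?_⟩
  · simp [h0]
  · simp
  · rcases Nat.lt_or_ge i (m + 1) with h1 | h1
    · simp only [if_pos h1.le, if_pos (Nat.succ_le_of_lt h1)]
      exact hs i h1
    · obtain rfl : i = m + 1 := by omega
      simp only [le_refl, if_true, add_le_iff_nonpos_right, Nat.le_zero, one_ne_zero, if_false]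
      rw [hm]
      exact h

theorem rch_last {d d' : ℝ} {x y z : M} (hy : y ∈ Rch f d x) (h : dist y z ≤ d' - d)
    (hd : d ≤ d') : z ∈ Rch f d' x := by
  obtain ⟨m, s, h0, hm, hs⟩ := hy
  refine ⟨m, fun i => if i ≤ m then s i else z, ?_, ?_, fun i hi => ?_⟩
  · simp [h0]
  · simp
  · rcases Nat.lt_or_ge i m with h1 | h1
    · simp only [if_pos h1.le, if_pos (Nat.succ_le_of_lt h1)]
      exact (hs i hi).trans_le hd
    · obtain rfl : i = m := by omega
      simp only [le_refl, if_true, add_le_iff_nonpos_right, Nat.le_zero, one_ne_zero, if_false]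
      have h2 := hs i hi
      rw [hm] at h2
      have h3 := dist_triangle (f (s i)) y z
      linarith

theorem rch_self {d : ℝ} (hd : 0 < d) (x : M) : f x ∈ Rch f d x :=
  ⟨0, fun i => if i = 0 then x else f x, by simp, by simp, fun i hi => by
    obtain rfl : i = 0 := by omega
    simpa using hd⟩

theorem rch_open {d : ℝ} (x : M) : IsOpen (Rch f d x) := by
  rw [Metric.isOpen_iff]
  rintro y ⟨m, s, h0, hm, hs⟩
  have h1 := hs m (Nat.lt_succ_self m)
  rw [hm] at h1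
  refine ⟨d - dist (f (s m)) y, by linarith, fun z hz => ?_⟩
  rw [Metric.mem_ball] at hz
  refine ⟨m, fun i => if i ≤ m then s i else z, ?_, ?_, fun i hi => ?_⟩
  · simp [h0]
  · simp
  · rcases Nat.lt_or_ge i m with h2 | h2
    · simp only [if_pos h2.le, if_pos (Nat.succ_le_of_lt h2)]
      exact hs i hi
    · obtain rfl : i = m := by omega
      simp only [le_refl, if_true, add_le_iff_nonpos_right, Nat.le_zero, one_ne_zero, if_false]
      have h3 := dist_triangle (f (s i)) y z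
      rw [dist_comm z y] at hz
      linarith

theorem rch_trap {d : ℝ} (hd : 0 < d) (x : M) : f '' closure (Rch f d x) ⊆ Rch f d x := by
  rintro _ ⟨y, hy, rfl⟩
  obtain ⟨δ, hδ, h⟩ := Metric.continuousAt_iff.1 (f.continuous.continuousAt (x := y)) d hd
  obtain ⟨y', hy', hyy'⟩ := Metric.mem_closure_iff.1 hy δ hδ
  refine rch_step hy' ?_
  exact h (by rw [dist_comm]; exact hyy')

theorem rch_closure {d : ℝ} (hd : 0 < d) (x : M) : closure (Rch f (d / 2) x) ⊆ Rch f d x := by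
  intro y hy
  obtain ⟨y', hy', hyy'⟩ := Metric.mem_closure_iff.1 hy (d / 2) (half_pos hd)
  refine rch_last hy' ?_ (by linarith)
  rw [dist_comm]
  linarith

/-- Chain transitivity and shadowing give transitivity. -/
theorem transitive [CompactSpace M] (hsh : Shadowing f)
    (h : ∀ x : M, ∀ d : ℝ, 0 < d → Rch f d x = univ) : TopTransitive f := by
  rintro U V hU hV ⟨u, hu⟩ ⟨w, hw⟩
  obtain ⟨e1, he1, h1⟩ := Metric.isOpen_iff.1 hU u hu
  obtain ⟨e2, he2, h2⟩ := Metric.isOpen_iff.1 hV w hw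
  obtain ⟨δ, hδ, hs⟩ := TM.chainShadow hsh (show 0 < min e1 e2 / 2 by positivity)
  have h3 : w ∈ Rch f δ u := by rw [h u δ hδ]; exact mem_univ _
  obtain ⟨m, s, h0, hm, hc⟩ := h3
  obtain ⟨z, hz1, hz2⟩ := hs (m + 1) s hc
  rw [h0] at hz1
  rw [hm] at hz2
  have hz3 := TM.Sp_dist hz1
  have hz4 := TM.Sp_dist hz2
  have hm1 := min_le_left e1 e2
  have hm2 := min_le_right e1 e2
  have hm3 : 0 < min e1 e2 := lt_min he1 he2
  refine ⟨m + 1, _, ⟨z, h1 ?_, rfl⟩, h2 ?_⟩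
  · rw [Metric.mem_ball]
    linarith
  · rw [TM.ev_nat] at hz4
    rw [Metric.mem_ball]
    linarith

theorem wl_symm {g : M ≃ₜ M} {ε : ℝ} {x y : M} (h : y ∈ Wl g ε x) : x ∈ Wl g ε y := fun k => by
  rw [dist_comm]
  exact h k

theorem wl_mono {g : M ≃ₜ M} {ε ε' : ℝ} {x y : M} (hε : ε ≤ ε') (h : y ∈ Wl g ε x) :
    y ∈ Wl g ε' x := fun k => (h k).trans hε

theorem wl_trans {g : M ≃ₜ M} {ε ε' : ℝ} {x y z : M} (h : y ∈ Wl g ε x) (h' : z ∈ Wl g ε' y) :
    z ∈ Wl g (ε + ε') x := fun k => by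
  have h1 := dist_triangle (g^[k] z) (g^[k] y) (g^[k] x)
  have h2 := h k
  have h3 := h' k
  linarith

/-- Chains from cheap points end in cheap points. -/
theorem chain_mem [CompactSpace M] (hsh : Shadowing f) {β r : ℝ} (hC : Cprop f β r)
    {x : M} (hx : x ∈ Cset f β r) : ∃ d : ℝ, 0 < d ∧ Rch f d x ⊆ Cset f β r := by
  obtain ⟨δ, Λ, hδ, hx⟩ := hx
  obtain ⟨δ', hδ', hsat⟩ := hC.sat
  obtain ⟨d, hd, hs⟩ := TM.chainShadow hsh (show 0 < min (δ / 2) δ' by positivity)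
  refine ⟨d, hd, ?_⟩
  rintro y ⟨m, s, h0, hm, hc⟩
  obtain ⟨z, hz1, hz2⟩ := hs (m + 1) s hc
  rw [N3.Sp_eq_Wl, h0] at hz1
  rw [N3.Sp_eq_Wl, TM.ev_nat, hm] at hz2
  have hz3 : z ∈ Cset f β r := by
    refine ⟨δ / 2, Λ, half_pos hδ, fun y hy y' hy' => hx y ?_ y' ?_⟩
    · have h1 := wl_trans (wl_mono (min_le_left (δ / 2) δ') hz1) hy
      rwa [add_halves] at h1
    · have h1 := wl_trans (wl_mono (min_le_left (δ / 2) δ') hz1) hy'
      rwa [add_halves] at h1
  have hz4 : ∀ n : ℕ, f^[n] z ∈ Cset f β r := by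
    intro n
    induction n with
    | zero => exact hz3
    | succ n ih =>
      rw [iterate_succ_apply']
      exact (hC.inv _).2 ih
  exact hsat _ (hz4 (m + 1)) _ (wl_symm (wl_mono (min_le_right _ _) hz2))

/-- A trapping region with cheap closure. -/
theorem exists_trap [CompactSpace M] (hsh : Shadowing f) (hnt : ¬ TopTransitive f) {β r : ℝ}
    (hC : Cprop f β r) (hne : (Cset f β r).Nonempty) :
    ∃ U : Set M, IsOpen U ∧ U.Nonempty ∧ U ≠ univ ∧ f '' closure U ⊆ U ∧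
      closure U ⊆ Cset f β r := by
  obtain ⟨x, hx⟩ := hne
  obtain ⟨d, hd, hxd⟩ := chain_mem hsh hC hx
  by_cases hU : Rch f (d / 2) x = univ
  · have hA : Cset f β r = univ := by
      refine eq_univ_of_univ_subset ?_
      rw [← hU]
      exact (subset_closure.trans (rch_closure hd x)).trans hxd
    by_contra hcon
    push Not at hcon
    refine hnt (transitive hsh fun x' d' hd' => ?_)
    by_contra h1
    exact hcon _ (rch_open x') ⟨_, rch_self hd' x'⟩ h1 (rch_trap hd' x')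
      (by rw [hA]; exact subset_univ _)
  · exact ⟨_, rch_open x, ⟨_, rch_self (half_pos hd) x⟩, hU, rch_trap (half_pos hd) x,
      (rch_closure hd x).trans hxd⟩

/-- Uniform cheapness on a compact set. -/
theorem unif_compact [CompactSpace M] {β r : ℝ} (hC : Cprop f β r) {S : Set M}
    (hS : IsCompact S) (hSA : S ⊆ Cset f β r) :
    ∃ e Λ : ℝ, 0 < e ∧ ∀ p ∈ S, ∀ q ∈ Wl f.symm e p, Chp f β r univ Λ p q := by
  refine hS.induction_on (p := fun S => ∃ e Λ : ℝ, 0 < e ∧ ∀ p ∈ S, ∀ q ∈ Wl f.symm e p,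
    Chp f β r univ Λ p q) ?_ ?_ ?_ ?_
  · exact ⟨1, 0, one_pos, fun p hp => absurd hp (notMem_empty p)⟩
  · rintro s t hst ⟨e, Λ, he, h⟩
    exact ⟨e, Λ, he, fun p hp => h p (hst hp)⟩
  · rintro s t ⟨e, Λ, he, h⟩ ⟨e', Λ', he', h'⟩
    have hle : ∀ (A B : ℝ) (m : ℕ), A ≤ B → A * Real.exp (β * m) ≤ B * Real.exp (β * m) :=
      fun A B m hAB => mul_le_mul_of_nonneg_right hAB (Real.exp_pos _).le
    refine ⟨min e e', max Λ Λ', lt_min he he', fun p hp q hq m => ?_⟩
    rcases hp with hp | hp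
    · obtain ⟨K, hK, hc⟩ := h p hp q (wl_mono (min_le_left _ _) hq) m
      exact ⟨K, hK.trans (hle _ _ _ (le_max_left _ _)), hc⟩
    · obtain ⟨K, hK, hc⟩ := h' p hp q (wl_mono (min_le_right _ _) hq) m
      exact ⟨K, hK.trans (hle _ _ _ (le_max_right _ _)), hc⟩
  · intro x hx
    obtain ⟨ρ, Λ, hρ, h⟩ := hC.unif x (hSA hx)
    refine ⟨Metric.ball x ρ, mem_nhdsWithin_of_mem_nhds (Metric.ball_mem_nhds x hρ), ρ, Λ, hρ,
      fun p hp q hq => h p (Metric.mem_ball.1 hp).le q hq⟩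

theorem reach_mono {P P' : Set M} {e e' b b' : ℝ} (h : N3.ReachW f P e' b) (he : e ≤ e')
    (hb : b ≤ b') (hP : P' ⊆ P) : N3.ReachW f P' e b' := by
  intro r hr
  obtain ⟨Λ, hΛ⟩ := h r hr
  refine ⟨|Λ|, fun m p hp q hq hpq => ?_⟩
  obtain ⟨K, x, hK, h1⟩ := hΛ m p (hP hp) q (hP hq) (wl_mono he hpq)
  refine ⟨K, x, hK.trans ?_, h1⟩
  refine mul_le_mul (le_abs_self _) ?_ (Real.exp_pos _).le (abs_nonneg _)
  exact Real.exp_le_exp.2 (mul_le_mul_of_nonneg_right hb (Nat.cast_nonneg m))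

end TrapM

open TrapM

theorem trap (href : SpecRef.{v}) (h0 : SpecReach0.{v}) : SpecTrap.{v} := by
  intro M _ _ _ f ε₀ C a as bs b₀ β c h hTM hnt
  obtain ⟨ρ₀, hρ₀, hrf⟩ := href f ε₀ C a as bs b₀ β h
  refine ⟨ρ₀, hρ₀, fun r hr hrρ hC => ?_⟩
  by_contra hne
  obtain ⟨U, hUo, hUn, hUu, hUt, hUA⟩ := exists_trap hTM.sh hnt hC
    (nonempty_iff_ne_empty.2 hne)
  obtain ⟨e₁, he₁, hr1, hr2⟩ := h0 f ε₀ C a as bs b₀ β h
  have hcpt : IsCompact (f ⁻¹' closure U) :=
    (isClosed_closure.preimage f.continuous).isCompact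
  obtain ⟨e, Λ, he, hch⟩ := unif_compact hC hcpt fun y hy => (hC.inv y).1 (hUA hy)
  have hreach : N3.ReachW f (f ⁻¹' U) e β := by
    intro r' hr'
    obtain ⟨D, hD, hDr⟩ := hrf r' hr'
    refine ⟨D * Λ, fun m p hp q hq hpq => ?_⟩
    obtain ⟨K, hK, hc⟩ := hch p (subset_closure hp) q hpq m
    obtain ⟨x, hx0, hxK, -, hx⟩ := hDr r hrρ m K p q hc
    refine ⟨D * K, x, ?_, hx0, hxK, hx⟩
    rw [Nat.cast_mul, mul_assoc]
    exact mul_le_mul_of_nonneg_left hK (Nat.cast_nonneg D)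
  have hfr : (frontier U).Nonempty := by
    rw [nonempty_iff_ne_empty]
    intro h1
    have h2 : IsClopen U := isClopen_iff_frontier_eq_empty.2 h1
    rcases isClopen_iff.1 h2 with h3 | h3
    · rw [h3] at hUn
      exact absurd hUn not_nonempty_empty
    · exact hUu h3
  have hexp : ∀ (A : ℝ) (n : ℕ), Real.exp (-A) ^ n = Real.exp (-(A * n)) := fun A n => by
    rw [← Real.exp_nat_mul]
    congr 1
    ring
  have hun : ∀ p, ∀ q ∈ Wl f.symm ε₀ p, ∀ j : ℕ,
      dist (f.symm^[j] q) (f.symm^[j] p) ≤ C * Real.exp (-(a * j)) * dist q p := by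
    intro p q hq j
    rw [← hexp]
    exact h.bwd.dec p q hq j
  have hβ : 0 < β := h.a_pos.trans_le h.a_le
  have hbs : 0 < bs := h.as_pos.trans_le h.as_le
  have key := N3.principle (f := f) (U := U) (ε₀ := ε₀) (e₁ := min e e₁) (C := C) (a := a)
    (aA := a) (as := as) (b := β) (bs := bs) (b₀ := max b₀ bs) h.br.ε_pos h.br.one_le h.a_pos
    h.as_pos hun (fun p q hq i _ => hun p q hq i) (fun p q hq j => by
      rw [← hexp]
      exact h.fwd.dec p q hq j) h.br.exist hUo hUt hfr (lt_min he he₁) hβ hbs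
    (reach_mono hr1 (min_le_right _ _) (le_max_left _ _) subset_rfl)
    (reach_mono hr2 (min_le_right _ _) (le_max_right _ _) subset_rfl)
    (reach_mono hreach (min_le_left _ _) le_rfl subset_rfl)
    (reach_mono hr2 (min_le_right _ _) le_rfl (subset_univ _))
  exact absurd h.rate (not_lt.2 key)

end Pool.Agent.Lib.MP610fe3.T5
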