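import Pool.Agent.Lib.MP_610fe3_an.T5.Ref

/-!
# Module TRL: transport of cheap chains along stable sets
-/

open Set Filter Function
open scoped Topology

namespace Pool.Agent.Lib.MP610fe3.T5

open Cf H6 T4

universe v

namespace TrlM

open RefM

variable {M : Type v} [MetricSpace M] {f : M ≃ₜ M} {ε₀ C a as bs : ℝ}

theorem sym_it (f : M ≃ₜ M) {i n : ℕ} (h : i ≤ n) (x : M) :
    f^[i] (f.symm^[n] x) = f.symm^[n - i] x := by
  obtain ⟨k, rfl⟩ := Nat.exists_eq_add_of_le h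
  rw [Nat.add_sub_cancel_left, iterate_add_apply]
  exact Cf.H1.iter_symm_iter f i _

theorem it_sym (f : M ≃ₜ M) {i n : ℕ} (h : i ≤ n) (x : M) :
    f.symm^[i] (f^[n] x) = f^[n - i] x := by
  obtain ⟨k, rfl⟩ := Nat.exists_eq_add_of_le h
  rw [Nat.add_sub_cancel_left, iterate_add_apply]
  exact Cf.H1.symm_iter_iter f i _

theorem sym_it' (f : M ≃ₜ M) {i n : ℕ} (h : n ≤ i) (x : M) :
    f^[i] (f.symm^[n] x) = f^[i - n] x := by
  obtain ⟨k, rfl⟩ := Nat.exists_eq_add_of_le h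
  rw [Nat.add_sub_cancel_left, add_comm n k, iterate_add_apply, Cf.H1.iter_symm_iter]

theorem it_sym' (f : M ≃ₜ M) {i n : ℕ} (h : n ≤ i) (x : M) :
    f.symm^[i] (f^[n] x) = f.symm^[i - n] x := by
  obtain ⟨k, rfl⟩ := Nat.exists_eq_add_of_le h
  rw [Nat.add_sub_cancel_left, add_comm n k, iterate_add_apply, Cf.H1.symm_iter_iter]

theorem dec_le {l : ℝ} (hD : Dec f ε₀ C l) {x z : M} (hz : z ∈ Wl f ε₀ x) (k : ℕ) :
    dist (f^[k] z) (f^[k] x) ≤ C * dist z x :=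
  wl_of_dist hD hz k

/-- the chain number `j` -/
def Ch (f : M ≃ₜ M) (ε₀ : ℝ) (m K : ℕ) (w : ℕ → M) (p q : M) (t : ℝ) : Prop :=
  w 0 = p ∧ w K = q ∧ ∀ l < K, f^[m] (w (l + 1)) ∈ Wl f.symm ε₀ (f^[m] (w l)) ∧
    dist (f^[m] (w (l + 1))) (f^[m] (w l)) ≤ t

/-- All points of a chain are close to the first point at the time `-n`. -/
theorem spread {θ : ℝ} (hD : Dec f.symm ε₀ C θ) {m n K : ℕ} {w : ℕ → M} {p q : M} {t s : ℝ}
    (ht : 0 ≤ t) (h : Ch f ε₀ m K w p q t) (hs : K * (C * θ ^ (m + n) * t) ≤ s) :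
    ∀ l ≤ K, f.symm^[n] (w l) ∈ Wl f.symm s (f.symm^[n] (w 0)) := by
  have hC := hD.one_le
  have hθ := hD.l_pos
  have hA : 0 ≤ C * θ ^ (m + n) * t := by positivity
  have key : ∀ l ≤ K, ∀ k : ℕ, dist (f.symm^[k] (f.symm^[n] (w l)))
      (f.symm^[k] (f.symm^[n] (w 0))) ≤ l * (C * θ ^ (m + n) * t) := by
    intro l
    induction l with
    | zero => intro _ k; simp
    | succ l ih =>
      intro hl k
      have h1 := ih (by omega) k
      obtain ⟨h2, h3⟩ := h.2.2 l (by omega)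
      have h4 := hD.dec _ _ h2 (m + (n + k))
      rw [it_sym' f (show m ≤ m + (n + k) by omega), it_sym' f (show m ≤ m + (n + k) by omega),
        show m + (n + k) - m = k + n by omega, iterate_add_apply, iterate_add_apply] at h4
      have h5 : θ ^ (m + (n + k)) ≤ θ ^ (m + n) :=
        pow_le_pow_of_le_one hθ.le hD.l_lt.le (by omega)
      have h6 : dist (f.symm^[k] (f.symm^[n] (w (l + 1)))) (f.symm^[k] (f.symm^[n] (w l))) ≤
          C * θ ^ (m + n) * t := by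
        refine h4.trans ?_
        gcongr
      calc dist (f.symm^[k] (f.symm^[n] (w (l + 1)))) (f.symm^[k] (f.symm^[n] (w 0)))
          ≤ C * θ ^ (m + n) * t + l * (C * θ ^ (m + n) * t) :=
            (dist_triangle _ (f.symm^[k] (f.symm^[n] (w l))) _).trans (add_le_add h6 h1)
        _ = ((l + 1 : ℕ) : ℝ) * (C * θ ^ (m + n) * t) := by push_cast; ring
  intro l hl k
  refine (key l hl k).trans (le_trans ?_ hs)
  have : (l : ℝ) ≤ K := by exact_mod_cast hl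
  gcongr

/-- One step of the transport. -/
theorem step (hD : Dec f ε₀ C (Real.exp (-as))) (hD' : Dec f.symm ε₀ C (Real.exp (-a)))
    (hB : Br f ε₀ C) {ε δe s : ℝ} (hs : 0 < s) (hsε : s ≤ ε) (hε : 8 * ε ≤ ε₀)
    (hex : ∀ x y, dist x y < δe → ∃ z, z ∈ Wl f ε x ∧ z ∈ Wl f.symm ε y)
    (hsδ : 2 * s < δe) (hC2 : 4 * C ^ 2 * s ≤ ε) {m n K : ℕ} {r t : ℝ} (hr : 2 * C * r ≤ ε)
    (ht : 0 ≤ t) (htr : t ≤ 2 * r)
    {w : ℕ → M} {y₁ y₂ z₁ z₂ y' : M} (hw : Ch f ε₀ m K w y₁ z₁ t)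
    (hK : K * (C * Real.exp (-a) ^ (m + n) * (2 * r)) ≤ s)
    (hy : f.symm^[n] y₂ ∈ Wl f s (f.symm^[n] y₁))
    (hz₁ : z₁ ∈ Wl f ε y') (hz₁' : z₁ ∈ Wl f.symm ε y₁)
    (hz₂ : z₂ ∈ Wl f ε y') (hz₂' : z₂ ∈ Wl f.symm ε y₂) :
    ∃ w', Ch f ε₀ m K w' y₂ z₂ (t + 2 * (C * Real.exp (-as) ^ (n + m) * (C * (2 * s)))) := by
  have hC := hD.one_le
  have hC0 : 0 < C := by linarith
  have hε₀ := hD.ε_pos
  have hr0 : 0 ≤ r := by linarith
  have hsp := spread hD' ht hw (n := n) (s := s) (by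
    refine le_trans ?_ hK
    have : (0 : ℝ) ≤ K := Nat.cast_nonneg K
    have := Real.exp_pos (-a)
    gcongr)
  have hw0 := hw.1
  have hwK := hw.2.1
  -- the brackets
  have hd : ∀ l ≤ K, dist (f.symm^[n] (w l)) (f.symm^[n] y₂) ≤ 2 * s := by
    intro l hl
    have h1 := Cf.H1.wl_dist (hsp l hl)
    have h2 := Cf.H1.wl_dist hy
    rw [hw0] at h1
    rw [dist_comm] at h2
    linarith [dist_triangle (f.symm^[n] (w l)) (f.symm^[n] y₁) (f.symm^[n] y₂)]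
  have hex' : ∀ l, ∃ v, l ≤ K → v ∈ Wl f ε (f.symm^[n] (w l)) ∧ v ∈ Wl f.symm ε (f.symm^[n] y₂) := by
    intro l
    by_cases hl : l ≤ K
    · obtain ⟨z, hz1, hz2⟩ := hex _ _ ((hd l hl).trans_lt hsδ)
      exact ⟨z, fun _ => ⟨hz1, hz2⟩⟩
    · exact ⟨y₁, fun h => absurd h hl⟩
  choose v hv using hex'
  have hεε₀ : ε ≤ ε₀ := by linarith [hs.le.trans hsε]
  have hdisp : ∀ l ≤ K, ∀ i : ℕ, dist (f^[i] (v l)) (f^[i] (f.symm^[n] (w l))) ≤
      C * Real.exp (-as) ^ i * (C * (2 * s)) := by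
    intro l hl i
    obtain ⟨h1, h2⟩ := hv l hl
    refine (hD.dec _ _ (Cf.H1.wl_mono h1 hεε₀) i).trans ?_
    have h3 := hB.left _ _ _ (Cf.H1.wl_mono h1 hεε₀) (Cf.H1.wl_mono h2 hεε₀)
    have h4 := hd l hl
    have := Real.exp_pos (-as)
    gcongr
    exact h3.trans (by gcongr)
  have hdisp' : ∀ l ≤ K, ∀ i : ℕ, dist (f^[i] (v l)) (f^[i] (f.symm^[n] (w l))) ≤ ε / 2 := by
    intro l hl i
    refine (hdisp l hl i).trans ?_
    have h1 : Real.exp (-as) ^ i ≤ 1 := pow_le_one₀ hD.l_pos.le hD.l_lt.le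
    calc C * Real.exp (-as) ^ i * (C * (2 * s)) ≤ C * 1 * (C * (2 * s)) := by gcongr
      _ = 4 * C ^ 2 * s / 2 := by ring
      _ ≤ ε / 2 := by linarith
  refine ⟨fun l => f^[n] (v l), ?_, ?_, ?_⟩
  · -- the first point
    obtain ⟨h1, h2⟩ := hv 0 (Nat.zero_le K)
    rw [hw0] at h1
    have h3 : v 0 = f.symm^[n] y₂ := hB.unique _ _ _ _ (Cf.H1.wl_mono h1 hεε₀)
      (Cf.H1.wl_mono h2 hεε₀) (Cf.H1.wl_mono hy (hsε.trans hεε₀)) (Cf.H1.wl_self hε₀.le _)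
    show f^[n] (v 0) = y₂
    rw [h3, Cf.H1.iter_symm_iter]
  · -- the last point
    obtain ⟨h1, h2⟩ := hv K le_rfl
    rw [hwK] at h1
    have h4 : f.symm^[n] z₂ ∈ Wl f ε₀ (f.symm^[n] z₁) := by
      intro i
      rcases le_total n i with hni | hin
      · rw [sym_it' f hni, sym_it' f hni]
        have h5 := hz₂ (i - n)
        have h6 := hz₁ (i - n)
        rw [dist_comm] at h6
        linarith [dist_triangle (f^[i - n] z₂) (f^[i - n] y') (f^[i - n] z₁)]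
      · have h5 := hz₂' (n - i)
        have h6 := hz₁' (n - i)
        have h7 := hy i
        rw [sym_it f hin, sym_it f hin] at h7 ⊢
        rw [dist_comm] at h6
        linarith [dist_triangle (f.symm^[n - i] z₂) (f.symm^[n - i] y₂) (f.symm^[n - i] z₁),
          dist_triangle (f.symm^[n - i] y₂) (f.symm^[n - i] y₁) (f.symm^[n - i] z₁)]
    have h3 : v K = f.symm^[n] z₂ := hB.unique _ _ _ _ (Cf.H1.wl_mono h1 hεε₀)
      (Cf.H1.wl_mono h2 hεε₀) h4 (Cf.H1.wl_mono (Cf.H1.wl_iter hz₂' n) hεε₀)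
    show f^[n] (v K) = z₂
    rw [h3, Cf.H1.iter_symm_iter]
  · -- the steps
    intro l hl
    obtain ⟨h1, h2⟩ := hw.2.2 l hl
    have hfw : ∀ i : ℕ, ∀ l ≤ K, dist (f^[i] (f^[n] (v l))) (f^[i] (w l)) ≤
        C * Real.exp (-as) ^ (i + n) * (C * (2 * s)) := by
      intro i l hl
      have h3 := hdisp l hl (i + n)
      rwa [iterate_add_apply, iterate_add_apply, Cf.H1.iter_symm_iter] at h3
    refine ⟨fun k => ?_, ?_⟩
    · rcases le_total k (m + n) with hk | hk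
      · have e1 : ∀ l, f.symm^[k] (f^[m] (f^[n] (v l))) = f^[m + n - k] (v l) := by
          intro l
          rw [← iterate_add_apply, it_sym f hk]
        have e2 : ∀ l, f.symm^[k] (f^[m] (w l)) = f^[m + n - k] (f.symm^[n] (w l)) := by
          intro l
          have : w l = f^[n] (f.symm^[n] (w l)) := (Cf.H1.iter_symm_iter f n _).symm
          conv_lhs => rw [this]
          rw [← iterate_add_apply, it_sym f hk]
        have h3 := hdisp' l (by omega) (m + n - k)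
        have h4 := hdisp' (l + 1) (by omega) (m + n - k)
        have h5 := dec_le hD' h1 k
        rw [e2, e2] at h5
        rw [e1, e1]
        have h6 : C * dist (f^[m] (w (l + 1))) (f^[m] (w l)) ≤ 2 * C * r := by
          calc C * dist (f^[m] (w (l + 1))) (f^[m] (w l)) ≤ C * (2 * r) := by
                gcongr
                exact h2.trans htr
            _ = 2 * C * r := by ring
        rw [dist_comm] at h3
        have h7 := dist_triangle (f^[m + n - k] (v (l + 1)))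
          (f^[m + n - k] (f.symm^[n] (w (l + 1)))) (f^[m + n - k] (v l))
        have h8 := dist_triangle (f^[m + n - k] (f.symm^[n] (w (l + 1))))
          (f^[m + n - k] (f.symm^[n] (w l))) (f^[m + n - k] (v l))
        linarith
      · have e1 : ∀ l, f.symm^[k] (f^[m] (f^[n] (v l))) = f.symm^[k - (m + n)] (v l) := by
          intro l
          rw [← iterate_add_apply, it_sym' f hk]
        rw [e1, e1]
        have h3 := (hv l (by omega)).2 (k - (m + n))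
        have h4 := (hv (l + 1) (by omega)).2 (k - (m + n))
        rw [dist_comm] at h3
        linarith [dist_triangle (f.symm^[k - (m + n)] (v (l + 1)))
          (f.symm^[k - (m + n)] (f.symm^[n] y₂)) (f.symm^[k - (m + n)] (v l))]
    · have h3 := hfw m l (by omega)
      have h4 := hfw m (l + 1) (by omega)
      rw [add_comm m n] at h3 h4
      rw [dist_comm] at h3
      have h7 := dist_triangle (f^[m] (f^[n] (v (l + 1)))) (f^[m] (w (l + 1)))
        (f^[m] (f^[n] (v l)))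
      have h8 := dist_triangle (f^[m] (w (l + 1))) (f^[m] (w l)) (f^[m] (f^[n] (v l)))
      show dist (f^[m] (f^[n] (v (l + 1)))) (f^[m] (f^[n] (v l))) ≤ _
      linarith

/-- The transport along the whole path. -/
theorem transport (hD : Dec f ε₀ C (Real.exp (-as))) (hD' : Dec f.symm ε₀ C (Real.exp (-a)))
    (hB : Br f ε₀ C) {ε δe s ε₁ Λ : ℝ} (hs : 0 < s) (hsε : s ≤ ε) (hε : 8 * ε ≤ ε₀)
    (hex : ∀ x y, dist x y < δe → ∃ z, z ∈ Wl f ε x ∧ z ∈ Wl f.symm ε y)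
    (hsδ : 2 * s < δe) (hC2 : 4 * C ^ 2 * s ≤ ε) (hε₁ : ε₁ ≤ ε) (hbs : 0 ≤ bs) (hΛ : 0 ≤ Λ)
    {m n K Ks : ℕ} {r δ : ℝ} (hr : 2 * C * r ≤ ε) (hr0 : 0 < r) (hδ : δ ≤ ε)
    (hδe : δ + ε₁ < δe)
    {x : ℕ → M} {y y' p q : M} (hx0 : x 0 = y) (hxK : x K = y')
    (hx : ∀ l < K, f^[m] (x (l + 1)) ∈ Wl f.symm r (f^[m] (x l)))
    (hy' : y' ∈ Wl f.symm δ y) (hqp : q ∈ Wl f.symm δ p) (hqy' : q ∈ Wl f δ y')
    {σ : ℝ → M} (hσ0 : σ 0 = y) (hσ1 : σ 1 = p)
    (hσ : ∀ t ∈ Icc (0 : ℝ) 1, ∀ t' ∈ Icc (0 : ℝ) 1, σ t ∈ Wl f ε₁ (σ t'))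
    (hσd : ∀ k : ℕ, ∀ t ∈ Icc (0 : ℝ) 1, ∀ t' ∈ Icc (0 : ℝ) 1,
      dist (f.symm^[k] (σ t)) (f.symm^[k] (σ t')) ≤ Λ * Real.exp bs ^ k * |t - t'|)
    (hK : K * (C * Real.exp (-a) ^ (m + n) * (2 * r)) ≤ s)
    (hKs : 0 < Ks) (hKs1 : C * Λ * Real.exp bs ^ n / Ks ≤ s)
    (hKs2 : Ks * (2 * (C * Real.exp (-as) ^ (n + m) * (C * (2 * s)))) ≤ r) :
    Chm f (2 * C * r) m univ K p q := by
  have hC := hD.one_le
  have hC0 : 0 < C := by linarith
  have hε₀ := hD.ε_pos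
  have hεε₀ : ε ≤ ε₀ := by linarith [hs.le.trans hsε]
  have hKs' : (0 : ℝ) < Ks := by exact_mod_cast hKs
  have hmem : ∀ j ≤ Ks, (j : ℝ) / Ks ∈ Icc (0 : ℝ) 1 := by
    intro j hj
    refine ⟨by positivity, ?_⟩
    rw [div_le_one hKs']
    exact_mod_cast hj
  have h0m : (0 : ℝ) ∈ Icc (0 : ℝ) 1 := ⟨le_rfl, zero_le_one⟩
  have hE1 : 1 ≤ Real.exp bs := Real.one_le_exp hbs
  -- the points of the path
  have hyj : ∀ j < Ks, f.symm^[n] (σ ((j + 1 : ℕ) / Ks)) ∈ Wl f s (f.symm^[n] (σ ((j : ℕ) / Ks))) := by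
    intro j hj i
    have hj1 := hmem (j + 1) hj
    have hj0 := hmem j hj.le
    have hstep : |((j + 1 : ℕ) : ℝ) / Ks - (j : ℝ) / Ks| = 1 / Ks := by
      rw [← sub_div]
      push_cast
      rw [add_sub_cancel_left, abs_of_pos (by positivity)]
    rcases le_total n i with hni | hin
    · rw [sym_it' f hni, sym_it' f hni]
      refine (dec_le hD (Cf.H1.wl_mono (hσ _ hj1 _ hj0) (hε₁.trans hεε₀)) (i - n)).trans ?_
      have h1 := hσd 0 _ hj1 _ hj0
      rw [hstep] at h1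
      simp only [iterate_zero, id_eq, pow_zero, mul_one] at h1
      refine le_trans ?_ hKs1
      have h2 : (1 : ℝ) ≤ Real.exp bs ^ n := one_le_pow₀ hE1
      calc C * dist (σ ((j + 1 : ℕ) / Ks)) (σ ((j : ℕ) / Ks)) ≤ C * (Λ * (1 / Ks)) := by gcongr
        _ = C * Λ * 1 / Ks := by ring
        _ ≤ C * Λ * Real.exp bs ^ n / Ks := by gcongr
    · rw [sym_it f hin, sym_it f hin]
      have h1 := hσd (n - i) _ hj1 _ hj0
      rw [hstep] at h1
      refine h1.trans (le_trans ?_ hKs1)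
      have h2 : Real.exp bs ^ (n - i) ≤ Real.exp bs ^ n := pow_le_pow_right₀ hE1 (by omega)
      have h3 : Λ ≤ C * Λ := le_mul_of_one_le_left hΛ hC
      calc Λ * Real.exp bs ^ (n - i) * (1 / Ks) = Λ * Real.exp bs ^ (n - i) / Ks := by ring
        _ ≤ C * Λ * Real.exp bs ^ n / Ks := by gcongr
  have hyy : ∀ j ≤ Ks, dist y' (σ ((j : ℕ) / Ks)) < δe := by
    intro j hj
    have h1 := Cf.H1.wl_dist (hσ 0 h0m _ (hmem j hj))
    rw [hσ0] at h1
    have h2 := Cf.H1.wl_dist hy'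
    linarith [dist_triangle y' y (σ ((j : ℕ) / Ks))]
  -- the main induction
  have main : ∀ j ≤ Ks, ∃ (w : ℕ → M) (z : M), z ∈ Wl f ε y' ∧
      z ∈ Wl f.symm ε (σ ((j : ℕ) / Ks)) ∧ Ch f ε₀ m K w (σ ((j : ℕ) / Ks)) z
      (r + j * (2 * (C * Real.exp (-as) ^ (n + m) * (C * (2 * s))))) := by
    intro j
    induction j with
    | zero =>
      intro _
      refine ⟨x, y', Cf.H1.wl_self (hs.le.trans hsε) _, ?_, ?_, ?_, ?_⟩
      · simp only [Nat.cast_zero, zero_div, hσ0]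
        exact Cf.H1.wl_mono hy' hδ
      · simp only [Nat.cast_zero, zero_div, hσ0, hx0]
      · exact hxK
      · intro l hl
        have h1 := hx l hl
        have h2 : r ≤ ε₀ := by nlinarith
        refine ⟨Cf.H1.wl_mono h1 h2, ?_⟩
        simp only [Nat.cast_zero, zero_mul, add_zero]
        exact Cf.H1.wl_dist h1
    | succ j ih =>
      intro hj
      obtain ⟨w, z₁, hz1, hz1', hw⟩ := ih (by omega)
      obtain ⟨z₂, hz2, hz2'⟩ := hex _ _ (hyy (j + 1) hj)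
      have hη : 0 ≤ 2 * (C * Real.exp (-as) ^ (n + m) * (C * (2 * s))) := by positivity
      have ht : r + j * (2 * (C * Real.exp (-as) ^ (n + m) * (C * (2 * s)))) ≤ 2 * r := by
        have h1 : (j : ℝ) ≤ Ks := by exact_mod_cast (by omega : j ≤ Ks)
        have h2 := mul_le_mul_of_nonneg_right h1 hη
        linarith
      obtain ⟨w', hw'⟩ := step hD hD' hB hs hsε hε hex hsδ hC2 hr (by positivity) ht hw hK
        (hyj j (by omega)) hz1 hz1' hz2 hz2'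
      refine ⟨w', z₂, hz2, hz2', ?_⟩
      convert hw' using 1
      push_cast
      ring
  obtain ⟨w, z, hz, hz', hw⟩ := main Ks le_rfl
  rw [div_self hKs'.ne', hσ1] at hw hz'
  have hzq : z = q := hB.unique _ _ _ _ (Cf.H1.wl_mono hz hεε₀) (Cf.H1.wl_mono hz' hεε₀)
    (Cf.H1.wl_mono hqy' (hδ.trans hεε₀)) (Cf.H1.wl_mono hqp (hδ.trans hεε₀))
  rw [hzq] at hw
  refine ⟨w, hw.1, hw.2.1, fun _ _ => mem_univ _, fun l hl => ?_⟩
  obtain ⟨h1, h2⟩ := hw.2.2 l hl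
  refine Cf.H1.wl_mono (wl_of_dist hD' h1) ?_
  calc C * dist (f^[m] (w (l + 1))) (f^[m] (w l)) ≤ C * (r + r) := by
        gcongr
        exact h2.trans (by linarith)
    _ = 2 * C * r := by ring

/-- The choice of `n` and `Ks`. -/
theorem numeric {β A₁ A₂ r : ℝ} (ha : 0 < a) (hbs : as ≤ bs) (hβ : a ≤ β)
    (hrate : (β - a) * (bs - as) < a * as) (hA₂ : 0 ≤ A₂) (hr : 0 < r) :
    ∃ m₁ : ℕ, ∀ m : ℕ, m₁ ≤ m → ∃ n : ℕ,
      A₁ * Real.exp (β * m) * Real.exp (-a) ^ (m + n) ≤ 1 ∧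
      A₂ * Real.exp bs ^ n * Real.exp (-as) ^ (n + m) ≤ r := by
  set c₁ : ℝ := Real.log (max A₁ 1) with hc₁
  have hc₁0 : 0 ≤ c₁ := Real.log_nonneg (le_max_right _ _)
  set γ : ℝ := as - (bs - as) * (β - a) / a with hγ
  have hγ0 : 0 < γ := by
    rw [hγ, sub_pos, div_lt_iff₀ ha]
    linarith
  set c₂ : ℝ := (bs - as) * (c₁ + a) / a with hc₂
  have hlim : Tendsto (fun m : ℕ => A₂ * (Real.exp c₂ * Real.exp (-(γ * m)))) atTop (𝓝 0) := by
    have h1 : Tendsto (fun m : ℕ => γ * (m : ℝ)) atTop atTop :=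
      tendsto_natCast_atTop_atTop.const_mul_atTop hγ0
    have h2 := (Real.tendsto_exp_neg_atTop_nhds_zero.comp h1).const_mul (Real.exp c₂)
    have h3 := h2.const_mul A₂
    rw [mul_zero, mul_zero] at h3
    exact h3
  obtain ⟨m₁, hm₁⟩ := eventually_atTop.1 (hlim.eventually (gt_mem_nhds hr))
  refine ⟨m₁, fun m hm => ?_⟩
  set X : ℝ := ((β - a) * m + c₁) / a with hX
  have hβa : 0 ≤ β - a := by linarith
  have hX0 : 0 ≤ X := by positivity
  refine ⟨⌈X⌉₊, ?_, ?_⟩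
  · have h1 : X ≤ (⌈X⌉₊ : ℝ) := Nat.le_ceil _
    have h2 : (β - a) * m + c₁ ≤ a * (⌈X⌉₊ : ℝ) := by
      rw [hX, div_le_iff₀ ha] at h1
      linarith
    have h3 : Real.exp (-a) ^ (m + ⌈X⌉₊) = Real.exp (-(a * m) - a * ⌈X⌉₊) := by
      rw [← Real.exp_nat_mul]
      congr 1
      push_cast
      ring
    rw [h3, mul_assoc, ← Real.exp_add]
    have h4 : β * m + (-(a * m) - a * (⌈X⌉₊ : ℝ)) ≤ -c₁ := by linarith
    have hmax : 0 < max A₁ 1 := lt_max_of_lt_right one_pos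
    calc A₁ * Real.exp (β * m + (-(a * m) - a * (⌈X⌉₊ : ℝ)))
        ≤ max A₁ 1 * Real.exp (-c₁) := by
          gcongr
          exact le_max_left _ _
      _ = 1 := by
          rw [Real.exp_neg, hc₁, Real.exp_log hmax, mul_inv_cancel₀ hmax.ne']
  · have h1 : (⌈X⌉₊ : ℝ) ≤ X + 1 := (Nat.ceil_lt_add_one hX0).le
    have h3 : Real.exp bs ^ ⌈X⌉₊ * Real.exp (-as) ^ (⌈X⌉₊ + m) =
        Real.exp ((bs - as) * ⌈X⌉₊ - as * m) := by
      rw [← Real.exp_nat_mul, ← Real.exp_nat_mul, ← Real.exp_add]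
      congr 1
      push_cast
      ring
    have h4 : (bs - as) * (⌈X⌉₊ : ℝ) - as * m ≤ c₂ + -(γ * m) := by
      have h5 : (bs - as) * (⌈X⌉₊ : ℝ) ≤ (bs - as) * (X + 1) :=
        mul_le_mul_of_nonneg_left h1 (by linarith)
      have h6 : (bs - as) * (X + 1) = (bs - as) * (β - a) / a * m + c₂ := by
        rw [hX, hc₂]
        field_simp
        ring
      have h7 : γ * m = as * m - (bs - as) * (β - a) / a * m := by
        rw [hγ]
        ring
      linarith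
    calc A₂ * Real.exp bs ^ ⌈X⌉₊ * Real.exp (-as) ^ (⌈X⌉₊ + m)
        = A₂ * Real.exp ((bs - as) * ⌈X⌉₊ - as * m) := by rw [mul_assoc, h3]
      _ ≤ A₂ * Real.exp (c₂ + -(γ * m)) := by gcongr
      _ = A₂ * (Real.exp c₂ * Real.exp (-(γ * m))) := by rw [Real.exp_add]
      _ ≤ r := (hm₁ m hm).le

end TrlM

open TrlM RefM

/-- Module TRL. -/
theorem trl : SpecTrl.{v} := by
  intro M _ _ f ε₀ C a as bs b₀ β H
  have hC := H.br.one_le
  have hC0 : 0 < C := by linarith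
  have hε₀ := H.br.ε_pos
  have hbs : 0 ≤ bs := H.as_pos.le.trans H.as_le
  set ε : ℝ := ε₀ / 8 with hε
  have hε0 : 0 < ε := by positivity
  obtain ⟨δe, hδe, hex⟩ := H.br.exist ε hε0
  set s : ℝ := min ε δe / (8 * C ^ 2) with hs
  have hmin : 0 < min ε δe := lt_min hε0 hδe
  have hs0 : 0 < s := by positivity
  have hC2 : 1 ≤ C ^ 2 := one_le_pow₀ hC
  have hsm : 8 * C ^ 2 * s = min ε δe := by
    rw [hs]
    field_simp
  have hs8 : 8 * s ≤ min ε δe := by nlinarith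
  have hsε : s ≤ ε := by linarith [min_le_left ε δe]
  have hsδ : 2 * s < δe := by linarith [min_le_right ε δe]
  have hC2s : 4 * C ^ 2 * s ≤ ε := by linarith [min_le_left ε δe]
  set ε₁ : ℝ := min ε (δe / 4) with hε₁
  have hε₁0 : 0 < ε₁ := lt_min hε0 (by positivity)
  obtain ⟨ρ, Λ, hρ, hΛ, hslow⟩ := H.slow ε₁ hε₁0
  set δ₀ : ℝ := min (min ρ ε) (δe / 4) with hδ₀
  have hδ₀0 : 0 < δ₀ := lt_min (lt_min hρ hε0) (by positivity)
  refine ⟨ε / (2 * C), δ₀, by positivity, hδ₀0, fun r hr hr₀ L => ?_⟩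
  have hrε : 2 * C * r ≤ ε := by
    rw [le_div_iff₀ (by positivity)] at hr₀
    linarith
  set A₁ : ℝ := max L 0 * (C * (2 * r)) / s with hA₁
  have hA₁0 : 0 ≤ A₁ := by
    have := le_max_right L 0
    positivity
  set A₂ : ℝ := (C * Λ / s + 2) * (2 * (C * (C * (2 * s)))) with hA₂
  have hA₂0 : 0 ≤ A₂ := by positivity
  obtain ⟨m₁, hm₁⟩ := numeric (A₁ := A₁) H.a_pos H.as_le H.a_le H.rate hA₂0 hr
  refine ⟨m₁, fun m hm y y' p q K hy' hp hqp hqy' hKL hch => ?_⟩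
  obtain ⟨x, hx0, hxK, -, hx⟩ := hch
  obtain ⟨n, hn1, hn2⟩ := hm₁ m hm
  obtain ⟨Ks, hKs, hKs1, hKs2⟩ := exists_pieces (A := C * Λ) (r := s)
    (B := Real.exp bs ^ n) (by positivity) hs0 (one_le_pow₀ (Real.one_le_exp hbs))
  obtain ⟨σ, -, hσ0, hσ1, hσ, hσd⟩ := hslow y p
    (Cf.H1.wl_mono hp ((min_le_left _ _).trans (min_le_left _ _)))
  refine transport H.fwd H.bwd H.br hs0 hsε (by linarith) hex hsδ hC2s (min_le_left _ _) hbs hΛ
    hrε hr ((min_le_left _ _).trans (min_le_right _ _)) ?_ hx0 hxK hx hy' hqp hqy' hσ0 hσ1 hσ hσd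
    (n := n) (Ks := Ks) ?_ hKs hKs1 ?_
  · have h1 : δ₀ ≤ δe / 4 := min_le_right _ _
    have h2 : ε₁ ≤ δe / 4 := min_le_right _ _
    linarith
  · have h1 : (K : ℝ) ≤ max L 0 * Real.exp (β * m) :=
      hKL.trans (mul_le_mul_of_nonneg_right (le_max_left _ _) (Real.exp_pos _).le)
    have h2 : 0 ≤ C * Real.exp (-a) ^ (m + n) * (2 * r) := by positivity
    calc K * (C * Real.exp (-a) ^ (m + n) * (2 * r))
        ≤ max L 0 * Real.exp (β * m) * (C * Real.exp (-a) ^ (m + n) * (2 * r)) := by gcongr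
      _ = s * (A₁ * Real.exp (β * m) * Real.exp (-a) ^ (m + n)) := by
          rw [hA₁]
          field_simp
      _ ≤ s * 1 := by gcongr
      _ = s := mul_one s
  · calc Ks * (2 * (C * Real.exp (-as) ^ (n + m) * (C * (2 * s))))
        ≤ (C * Λ / s + 2) * Real.exp bs ^ n *
          (2 * (C * Real.exp (-as) ^ (n + m) * (C * (2 * s)))) := by gcongr
      _ = A₂ * Real.exp bs ^ n * Real.exp (-as) ^ (n + m) := by
          rw [hA₂]
          ring
      _ ≤ r := hn2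

end Pool.Agent.Lib.MP610fe3.T5
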