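import Pool.Agent.Lib.MP_610fe3_an.T5.Spec
import Pool.Agent.Lib.MP_610fe3_an.Cf.H1Wl
import Pool.Agent.Lib.MP_610fe3_an.Commute

/-!
# Module VRT: vertical lines (helper78)
-/

open Set Filter Function
open scoped Topology

namespace Pool.Agent.Lib.MP610fe3.T5

open Cf H6 T4

universe u v

namespace VrtM

section

variable {M : Type v} [MetricSpace M] {W : Type u} [NormedAddCommGroup W] [NormedSpace ℝ W]
  {J : Emb M W} {f : M ≃ₜ M} {s : Split J f} {Ψ : M → W → M} {ε R₁ K₁ : ℝ}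

theorem U_phi (s : Split J f) (x z : M) : s.U x (phi s x z) = phi s x z := by
  have h := congrArg (fun g : W →L[ℝ] W => g (J.e z - J.e x)) (s.UU x)
  simpa [phi] using h

theorem norm_U_sub {Ku : ℝ} (hK : ∀ x, ‖s.U x‖ ≤ Ku) (x p z : M) :
    ‖s.U x (J.e p - J.e z)‖ ≤ Ku * dist p z := by
  refine ((s.U x).le_opNorm _).trans ?_
  rw [← dist_eq_norm, J.isom.dist_eq]
  gcongr
  exact hK x

theorem phi_sub (s : Split J f) (x p z : M) :
    phi s x p - phi s x z = s.U x (J.e p - J.e z) := by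
  unfold phi
  rw [← map_sub]
  congr 1
  abel

theorem norm_phi_sub {Ku : ℝ} (hK : ∀ x, ‖s.U x‖ ≤ Ku) (x p z : M) :
    ‖phi s x p - phi s x z‖ ≤ Ku * dist p z := by
  rw [phi_sub]
  exact norm_U_sub hK x p z

theorem phi_self (s : Split J f) (x : M) : phi s x x = 0 := by simp [phi]

theorem norm_phi_le {Ku : ℝ} (hK : ∀ x, ‖s.U x‖ ≤ Ku) (x z : M) :
    ‖phi s x z‖ ≤ Ku * dist z x := by
  have h := norm_phi_sub hK x z x
  rwa [phi_self, sub_zero] at h

theorem psi_phi (hΨ : Psi s Ψ ε R₁ K₁) {x z : M} (hz : z ∈ Wl f.symm ε x)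
    (hn : ‖phi s x z‖ ≤ R₁) : Ψ x (phi s x z) = z := by
  have h1 := hΨ.mem x _ (U_phi s x z) hn
  have h2 := hΨ.eq x _ (U_phi s x z) hn
  have h3 := hΨ.inj x _ h1 z hz
  have h4 : s.U x (J.e (Ψ x (phi s x z)) - J.e z) = 0 := by
    rw [← phi_sub]
    unfold phi at h2 ⊢
    rw [h2, sub_self]
  rw [h4, norm_zero, mul_zero] at h3
  exact dist_le_zero.1 h3

theorem wl_dist_mul {g : M ≃ₜ M} {ε₀ C κ : ℝ} (hD : Dec g ε₀ C κ) {z z' : M}
    (h : z ∈ Wl g ε₀ z') : z ∈ Wl g (C * dist z z') z' := by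
  intro k
  refine (hD.dec z' z h k).trans ?_
  have h1 : κ ^ k ≤ 1 := pow_le_one₀ hD.l_pos.le hD.l_lt.le
  have h2 : 0 ≤ C := le_trans zero_le_one hD.one_le
  have h3 : 0 ≤ κ ^ k := pow_nonneg hD.l_pos.le _
  calc C * κ ^ k * dist z z' ≤ C * 1 * dist z z' := by gcongr
    _ = _ := by ring

theorem wl_psi {ε₀ C κ : ℝ} (hΨ : Psi s Ψ ε R₁ K₁) (hD : Dec f.symm ε₀ C κ) (hε : 2 * ε ≤ ε₀)
    {x : M} {u v : W} (hu : s.U x u = u) (hu1 : ‖u‖ ≤ R₁) (hv : s.U x v = v) (hv1 : ‖v‖ ≤ R₁) :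
    Ψ x u ∈ Wl f.symm (C * K₁ * ‖u - v‖) (Ψ x v) := by
  have h1 := hΨ.mem x u hu hu1
  have h2 := hΨ.mem x v hv hv1
  have h3 : Ψ x u ∈ Wl f.symm ε₀ (Ψ x v) :=
    H1.wl_mono (H1.wl_trans h1 (H1.wl_symm h2)) (by linarith)
  refine H1.wl_mono (wl_dist_mul hD h3) ?_
  have h4 := hΨ.lip x u v hu hu1 hv hv1
  have h5 : 0 ≤ C := le_trans zero_le_one hD.one_le
  calc C * dist (Ψ x u) (Ψ x v) ≤ C * (K₁ * ‖u - v‖) := by gcongr
    _ = _ := by ring

theorem cont_phi [CompactSpace M] [FiniteDimensional ℝ W] (hs : s.Hyperbolic) :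
    Continuous fun b : M × M => phi s b.1 b.2 := by
  have h1 : Continuous fun b : M × M => s.U b.1 := (s.continuous_U hs).comp continuous_fst
  have h2 : Continuous fun b : M × M => J.e b.2 - J.e b.1 :=
    (J.isom.continuous.comp continuous_snd).sub (J.isom.continuous.comp continuous_fst)
  exact h1.clm_apply h2

end

end VrtM

open VrtM

theorem vrt : SpecVrt.{u, v} := by
  intro M _ _ W _ _ _ J f s F n Mi e θ K δ η Ψ ε R₁ K₁ ε₀ C κ hs hF hΨ hD hε
  obtain ⟨Ku0, hKu0⟩ := s.bdd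
  obtain ⟨Ku, hKu, hKu1⟩ : ∃ Ku : ℝ, (∀ x, ‖s.U x‖ ≤ Ku) ∧ 1 ≤ Ku :=
    ⟨max Ku0 1, fun x => (hKu0 x).2.trans (le_max_left _ _), le_max_right _ _⟩
  have hK := hF.one_le
  have hK₁ := hΨ.one_le
  have hC := hD.one_le
  have hR₁ := hΨ.R₁_pos
  have hε0 := hΨ.ε_pos
  have e1 : 1 ≤ C * K₁ := one_le_mul_of_one_le_of_one_le hC hK₁
  have e2 : 1 ≤ K * Ku := one_le_mul_of_one_le_of_one_le hK hKu1
  have e3 : 1 ≤ C * K₁ * (K * Ku) := one_le_mul_of_one_le_of_one_le e1 e2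
  have hK0 : 0 ≤ K := by linarith
  have hKu0' : 0 ≤ Ku := by linarith
  have hC0 : 0 ≤ C := by linarith
  have hK₁0 : 0 ≤ K₁ := by linarith
  refine ⟨C * K₁ * (K * Ku), min ε (R₁ / (Ku + K)), e3, by positivity, ?_⟩
  intro ρ R hρ hρm hR hRρ
  have hρε : ρ ≤ ε := hρm.trans (min_le_left _ _)
  have hρR : ρ * (Ku + K) ≤ R₁ := by
    have h := hρm.trans (min_le_right _ _)
    rwa [le_div_iff₀ (by positivity)] at h
  have hRle : R ≤ ρ := by nlinarith
  have key : ∀ i < n, ∀ x ∈ Mi i, ∀ p ∈ Wl f.symm R x, ∀ t ∈ Icc (-ρ) ρ,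
      s.U x (phi s x p + t • e i x) = phi s x p + t • e i x ∧
      ‖phi s x p + t • e i x‖ ≤ R₁ := by
    intro i hi x hx p hp t ht
    refine ⟨by rw [map_add, map_smul, U_phi, hF.e_U i hi x hx], ?_⟩
    have h1 := norm_phi_le hKu x p
    have h2 := H1.wl_dist hp
    have h3 : |t| ≤ ρ := abs_le.2 ht
    have h4 := hF.e_le i hi x hx
    calc ‖phi s x p + t • e i x‖ ≤ ‖phi s x p‖ + ‖t • e i x‖ := norm_add_le _ _
      _ ≤ Ku * R + ρ * K := by
        rw [norm_smul, Real.norm_eq_abs]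
        refine add_le_add (h1.trans (by gcongr)) (by gcongr)
      _ ≤ Ku * ρ + ρ * K := by gcongr
      _ = ρ * (Ku + K) := by ring
      _ ≤ R₁ := hρR
  refine ⟨hR, hρ, e3, hF.closed, hF.cover, ?_, ?_, ?_, ?_⟩
  · intro i hi x hx p hp
    have h1 := key i hi x hx p hp 0 ⟨by linarith, hρ.le⟩
    simp only [zero_smul, add_zero] at h1 ⊢
    exact psi_phi hΨ (H1.wl_mono hp (hRle.trans hρε)) h1.2
  · intro i hi x hx p hp t ht t' ht'
    obtain ⟨h1, h2⟩ := key i hi x hx p hp t ht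
    obtain ⟨h3, h4⟩ := key i hi x hx p hp t' ht'
    refine H1.wl_mono (wl_psi hΨ hD hε h1 h2 h3 h4) ?_
    have h5 : phi s x p + t • e i x - (phi s x p + t' • e i x) = (t - t') • e i x := by
      rw [sub_smul]; abel
    rw [h5, norm_smul, Real.norm_eq_abs]
    have h6 := hF.e_le i hi x hx
    calc C * K₁ * (|t - t'| * ‖e i x‖) ≤ C * K₁ * (|t - t'| * (K * Ku)) := by
          gcongr
          exact h6.trans (le_mul_of_one_le_right hK0 hKu1)
      _ = _ := by ring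
  · intro i hi x hx p hp t ht t' ht'
    obtain ⟨h1, h2⟩ := key i hi x hx p hp t ht
    obtain ⟨h3, h4⟩ := key i hi x hx p hp t' ht'
    have h5 := hΨ.eq x _ h1 h2
    have h6 := hΨ.eq x _ h3 h4
    have h7 : s.U x (J.e (Ψ x (phi s x p + t • e i x)) -
        J.e (Ψ x (phi s x p + t' • e i x))) = (t - t') • e i x := by
      have h8 : J.e (Ψ x (phi s x p + t • e i x)) - J.e (Ψ x (phi s x p + t' • e i x)) =
          (J.e (Ψ x (phi s x p + t • e i x)) - J.e x) -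
          (J.e (Ψ x (phi s x p + t' • e i x)) - J.e x) := by abel
      rw [h8, map_sub, h5, h6, sub_smul]
      abel
    have h9 : θ i (s.U x (J.e (Ψ x (phi s x p + t • e i x)) -
        J.e (Ψ x (phi s x p + t' • e i x)))) = t - t' := by
      rw [h7, map_smul, hF.θ_e i hi x hx, smul_eq_mul, mul_one]
    calc |t - t'| = ‖θ i (s.U x (J.e (Ψ x (phi s x p + t • e i x)) -
        J.e (Ψ x (phi s x p + t' • e i x))))‖ := by rw [h9, Real.norm_eq_abs]
      _ ≤ ‖θ i‖ * ‖s.U x (J.e (Ψ x (phi s x p + t • e i x)) -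
        J.e (Ψ x (phi s x p + t' • e i x)))‖ := (θ i).le_opNorm _
      _ ≤ K * (Ku * dist (Ψ x (phi s x p + t • e i x)) (Ψ x (phi s x p + t' • e i x))) := by
        gcongr
        · exact hF.θ_le i hi
        · exact norm_U_sub hKu _ _ _
      _ ≤ C * K₁ * (K * Ku) * dist (Ψ x (phi s x p + t • e i x))
          (Ψ x (phi s x p + t' • e i x)) := by
        rw [← mul_assoc K Ku]
        exact mul_le_mul_of_nonneg_right
          (le_mul_of_one_le_left (mul_nonneg hK0 hKu0') e1) dist_nonneg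
  · intro i hi
    have h1 : ContinuousOn (fun b : M × M × ℝ =>
        (b.1, phi s b.1 b.2.1 + b.2.2 • e i b.1))
        {b | b.1 ∈ Mi i ∧ b.2.1 ∈ Wl f.symm R b.1 ∧ b.2.2 ∈ Icc (-ρ) ρ} := by
      refine continuousOn_fst.prodMk (ContinuousOn.add ?_ ?_)
      · exact ((cont_phi hs).comp (continuous_fst.prodMk
          (continuous_fst.comp continuous_snd))).continuousOn
      · refine ContinuousOn.smul (continuous_snd.comp continuous_snd).continuousOn ?_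
        exact (hF.e_cont i hi).comp continuousOn_fst fun b hb => hb.1
    exact hΨ.cont.comp h1 fun b hb => key i hi b.1 hb.1 b.2.1 hb.2.1 b.2.2 hb.2.2

end Pool.Agent.Lib.MP610fe3.T5
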