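import Pool.Agent.Lib.MP_610fe3_an.T5.MainC
import Pool.Agent.Lib.MP_610fe3_an.T5.Ref
import Pool.Agent.Lib.MP_610fe3_an.T5.Reach0
import Pool.Agent.Lib.MP_610fe3_an.T5.Cset
import Pool.Agent.Lib.MP_610fe3_an.T5.Ord
import Pool.Agent.Lib.MP_610fe3_an.T5.Eul
import Pool.Agent.Lib.MP_610fe3_an.T5.Tanc
import Pool.Agent.Lib.MP_610fe3_an.T5.Scales
import Pool.Agent.Lib.MP_610fe3_an.T5.Cvch
import Pool.Agent.Lib.MP_610fe3_an.T5.Hts
import Pool.Agent.Lib.MP_610fe3_an.T5.Eiff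
import Pool.Agent.Lib.MP_610fe3_an.T5.Equi
import Pool.Agent.Lib.MP_610fe3_an.T5.Inv
import Pool.Agent.Lib.MP_610fe3_an.T5.Conn
import Pool.Agent.Lib.MP_610fe3_an.T5.Loc2
import Pool.Agent.Lib.MP_610fe3_an.T5.Psi
import Pool.Agent.Lib.MP_610fe3_an.T5.Estep
import Pool.Agent.Lib.MP_610fe3_an.T5.Vrt
import Pool.Agent.Lib.MP_610fe3_an.T5.Pow2
import Pool.Agent.Lib.MP_610fe3_an.T5.Clo
import Pool.Agent.Lib.MP_610fe3_an.T5.Trl
import Pool.Agent.Lib.MP_610fe3_an.T5.Trap
import Pool.Agent.Lib.MP_610fe3_an.T5.Frm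
import Pool.Agent.Lib.MP_610fe3_an.T5.Slp
import Pool.Agent.Lib.MP_610fe3_an.T5.Poly

/-!
# The hyperplane field theorem
-/

namespace Pool.Agent.Lib.MP610fe3.T5

universe u v

theorem main : SpecMain.{u, v} :=
  MainC.specMain
    { cset := cset ref reach0 trl
      trap := trap ref reach0
      ord := ord
      eul := eul
      tanc := tanc
      scales := scales
      loc2 := loc2 hts (eiff holc cvch lemU hts) (equi cvch hts) (inv cvch lemU) conn
      frm := frm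
      slp := slp
      psi := psi
      estep := estep
      vrt := vrt
      poly := poly } pow2 clo

end Pool.Agent.Lib.MP610fe3.T5
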