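import Pool.Agent.Lib.MP_610fe3_an.T5.Defs
import Pool.Agent.Lib.MP_610fe3_an.TM.Edge

/-!
# Hyperplane fields in the unstable bundle: modules

Text of the proof: `/team-store/MP_610fe3_an_T5_PROOF.md`.
-/

open Set Filter Function Bundle
open scoped Topology Manifold ContDiff

namespace Pool.Agent.Lib.MP610fe3.T5

open Cf H6 T4

universe u v w

/-! ### Part A: a cheap steep pair gives a contradiction -/

/-- Module REF: steps of size `r ≤ ρ₀` are divided into steps of size `r'`. -/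
def SpecRef : Prop :=
  ∀ {M : Type v} [MetricSpace M] [CompactSpace M] (f : M ≃ₜ M) (ε₀ C a as bs b₀ β : ℝ),
    Hyb f ε₀ C a as bs b₀ β → ∃ ρ₀ : ℝ, 0 < ρ₀ ∧ ∀ r' : ℝ, 0 < r' → ∃ D : ℕ, 0 < D ∧
      ∀ r ≤ ρ₀, ∀ (m K : ℕ) (p q : M), Chm f r m univ K p q → Chm f r' m univ (D * K) p q

/-- Module REACH0: the crude reachability. -/
def SpecReach0 : Prop :=
  ∀ {M : Type v} [MetricSpace M] [CompactSpace M] (f : M ≃ₜ M) (ε₀ C a as bs b₀ β : ℝ),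
    Hyb f ε₀ C a as bs b₀ β → ∃ e₁ : ℝ, 0 < e₁ ∧ N3.ReachW f univ e₁ b₀ ∧
      N3.ReachW f.symm univ e₁ bs

/-- Module TRL: transport of cheap chains along stable sets, with given end points. -/
def SpecTrl : Prop :=
  ∀ {M : Type v} [MetricSpace M] [CompactSpace M] (f : M ≃ₜ M) (ε₀ C a as bs b₀ β : ℝ),
    Hyb f ε₀ C a as bs b₀ β → ∃ r₀ δ₀ : ℝ, 0 < r₀ ∧ 0 < δ₀ ∧ ∀ r, 0 < r → r ≤ r₀ → ∀ L : ℝ,
      ∃ m₁ : ℕ, ∀ m ≥ m₁, ∀ (y y' p q : M) (K : ℕ), y' ∈ Wl f.symm δ₀ y → p ∈ Wl f δ₀ y →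
        q ∈ Wl f.symm δ₀ p → q ∈ Wl f δ₀ y' → (K : ℝ) ≤ L * Real.exp (β * m) →
        Chm f r m univ K y y' → Chm f (2 * C * r) m univ K p q

/-- The properties of the set of cheap points. -/
structure Cprop {M : Type*} [MetricSpace M] (f : M ≃ₜ M) (β r : ℝ) : Prop where
  isOpen : IsOpen (Cset f β r)
  inv : ∀ x, f x ∈ Cset f β r ↔ x ∈ Cset f β r
  sat : ∃ δ : ℝ, 0 < δ ∧ ∀ x ∈ Cset f β r, ∀ y ∈ Wl f δ x, y ∈ Cset f β r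
  unif : ∀ x ∈ Cset f β r, ∃ ρ Λ : ℝ, 0 < ρ ∧ ∀ y, dist y x ≤ ρ → ∀ y' ∈ Wl f.symm ρ y,
    Chp f β r univ Λ y y'

/-- Module CSET: the set of cheap points is open, invariant and saturated by stable sets. Prove
`theorem cset (href : SpecRef.{v}) (h0 : SpecReach0.{v}) (htrl : SpecTrl.{v}) : SpecCset.{v}`. -/
def SpecCset : Prop :=
  ∀ {M : Type v} [MetricSpace M] [CompactSpace M] (f : M ≃ₜ M) (ε₀ C a as bs b₀ β : ℝ),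
    Hyb f ε₀ C a as bs b₀ β → ∃ rC : ℝ, 0 < rC ∧ ∀ r, 0 < r → r ≤ rC → Cprop f β r

/-- Module TRAP: the set of cheap points is empty if `f` is not transitive. Prove
`theorem trap (href : SpecRef.{v}) (h0 : SpecReach0.{v}) : SpecTrap.{v}`. -/
def SpecTrap : Prop :=
  ∀ {M : Type v} [MetricSpace M] [CompactSpace M] [ConnectedSpace M] (f : M ≃ₜ M)
    (ε₀ C a as bs b₀ β c : ℝ), Hyb f ε₀ C a as bs b₀ β → TM.Hyp f c → ¬ TopTransitive f →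
    ∃ rT : ℝ, 0 < rT ∧ ∀ r, 0 < r → r ≤ rT → Cprop f β r → Cset f β r = ∅

/-- Module ORD: a cheap steep pair gives a cheap point. -/
def SpecOrd : Prop :=
  ∀ {M : Type v} [MetricSpace M] [CompactSpace M] (f : M ≃ₜ M) (ε₀ C a as bs b₀ β : ℝ) (n : ℕ)
    (Mi : ℕ → Set M) (V : ℕ → M → M → ℝ → M) (R ρ K : ℝ), Hyb f ε₀ C a as bs b₀ β →
    Vrt f n Mi V R ρ K → Eul f β n Mi V R ρ K → ∀ rC : ℝ, 0 < rC → ∃ r₁ : ℝ, 0 < r₁ ∧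
      ∀ r, 0 < r → r ≤ r₁ → ¬ NoSteep f β r n Mi V R ρ → (Cset f β rC).Nonempty

/-! ### Part B: polygons and curves -/

/-- Module EUL: from polygons to chains. -/
def SpecEul : Prop :=
  ∀ {M : Type v} [MetricSpace M] [CompactSpace M] (f : M ≃ₜ M) (ε₀ C a as bs b₀ β : ℝ) (n : ℕ)
    (Mi : ℕ → Set M) (V : ℕ → M → M → ℝ → M) (R ρ K : ℝ) (P : ℕ → M → M → ℕ → M → ℕ → M)
    (T : ℕ → M → M → ℕ → M → ℝ) (L : ℝ), Hyb f ε₀ C a as bs b₀ β →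
    Vrt f n Mi V R ρ K → Poly f β n Mi V R ρ K P T L → 2 * (K * R) ≤ ε₀ →
    Eul f β n Mi V R ρ K

/-- Module TANC: limit curves of the polygons. -/
def SpecTanc : Prop :=
  ∀ {M : Type v} [MetricSpace M] [CompactSpace M] (f : M ≃ₜ M) (ε₀ C a as bs b₀ β : ℝ) (n : ℕ)
    (Mi : ℕ → Set M) (V : ℕ → M → M → ℝ → M) (R ρ K : ℝ) (P : ℕ → M → M → ℕ → M → ℕ → M)
    (T : ℕ → M → M → ℕ → M → ℝ) (L : ℝ), Hyb f ε₀ C a as bs b₀ β →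
    Vrt f n Mi V R ρ K → Poly f β n Mi V R ρ K P T L → Tanc f β n Mi V R ρ

/-- Module SCALES: the choice of the scales of the second case. -/
def SpecScales : Prop :=
  ∀ {M : Type v} [MetricSpace M] [CompactSpace M] (f : M ≃ₜ M) (ε₀ C a as bs b₀ β : ℝ) (n : ℕ)
    (Mi : ℕ → Set M) (V : ℕ → M → M → ℝ → M) (R ρ K r : ℝ), Hyb f ε₀ C a as bs b₀ β →
    Vrt f n Mi V R ρ K → Tanc f β n Mi V R ρ → 8 * (R + K * (2 * ρ)) ≤ ε₀ → 0 < r → r ≤ R →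
    NoSteep f β r n Mi V R ρ → ∃ (εb δb ε L R' εh δh rB : ℝ) (idx : M → ℕ),
      C2 f ε₀ C a as bs b₀ β n Mi V R ρ K r εb δb ε L R' εh δh rB idx

/-! ### Part C: the plaque relation -/

/-- Module HOLC: transport of a chain by brackets. -/
def SpecHolc : Prop :=
  ∀ {M : Type v} [MetricSpace M] (f : M ≃ₜ M) (ε₀ C r' εb : ℝ), Br f ε₀ C → εb ≤ ε₀ →
    ∀ (m K : ℕ) (D : Set M) (x p q p' q' : M),
    (∀ c ∈ D, ∃ c', c' ∈ Wl f εb c ∧ c' ∈ Wl f.symm εb x) → Chm f r' m D K p q →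
    p' ∈ Wl f εb p → p' ∈ Wl f.symm εb x → q' ∈ Wl f εb q → q' ∈ Wl f.symm εb x →
    Chm f (r' + 2 * εb) m (Wl f.symm εb x) K p' q'

/-- Module CVCH: curves give cheap chains. -/
def SpecCvch : Prop :=
  ∀ {M : Type v} [MetricSpace M] (f : M ≃ₜ M) (ε₀ C θ β : ℝ), Dec f.symm ε₀ C θ → 0 ≤ β →
    ∀ ε L r' : ℝ, ε ≤ ε₀ → 0 ≤ L → 0 < r' → ∃ Λ : ℝ, 0 ≤ Λ ∧ ∀ p z : M, Cv f β ε L p z →
      Chp f β r' (Wl f.symm ε p) Λ p z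

/-- Module LEMU: cheap pairs are joined by curves. -/
def SpecLemU : Prop :=
  ∀ {M : Type v} [MetricSpace M] [CompactSpace M] (f : M ≃ₜ M) (ε₀ C a as bs b₀ β : ℝ) (n : ℕ)
    (Mi : ℕ → Set M) (V : ℕ → M → M → ℝ → M) (R ρ K r εb δb ε L R' εh δh rB : ℝ)
    (idx : M → ℕ), C2 f ε₀ C a as bs b₀ β n Mi V R ρ K r εb δb ε L R' εh δh rB idx →
    ∀ i < n, ∀ x ∈ Mi i, ∀ p ∈ Wl f.symm R' x, ∀ z ∈ Wl f.symm R' x, ∀ Λ : ℝ,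
      Chp f β r (Wl f.symm (R / 4) x) Λ p z → Cv f β ε L p z

/-- Module HTS: existence and uniqueness of the height. -/
def SpecHts : Prop :=
  ∀ {M : Type v} [MetricSpace M] [CompactSpace M] (f : M ≃ₜ M) (ε₀ C a as bs b₀ β : ℝ) (n : ℕ)
    (Mi : ℕ → Set M) (V : ℕ → M → M → ℝ → M) (R ρ K r εb δb ε L R' εh δh rB : ℝ)
    (idx : M → ℕ), C2 f ε₀ C a as bs b₀ β n Mi V R ρ K r εb δb ε L R' εh δh rB idx →
    (∀ x p, dist p x ≤ δh → ∃ τ, Hts f β εh ε L ρ V idx x p τ) ∧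
    ∀ x p τ τ', Hts f β εh ε L ρ V idx x p τ → Hts f β εh ε L ρ V idx x p τ' → τ = τ'

/-- Module EIFF: the plaques are the level sets of the height. -/
def SpecEiff : Prop :=
  ∀ {M : Type v} [MetricSpace M] [CompactSpace M] (f : M ≃ₜ M) (ε₀ C a as bs b₀ β : ℝ) (n : ℕ)
    (Mi : ℕ → Set M) (V : ℕ → M → M → ℝ → M) (R ρ K r εb δb ε L R' εh δh rB : ℝ)
    (idx : M → ℕ), C2 f ε₀ C a as bs b₀ β n Mi V R ρ K r εb δb ε L R' εh δh rB idx →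
    ∀ x p q, dist p x ≤ rB → dist q x ≤ rB → (Erel f β εh ε L p q ↔
      Hgh f β εh ε L ρ V idx x p = Hgh f β εh ε L ρ V idx x q)

/-- Module EQUI: the heights are equicontinuous. -/
def SpecEqui : Prop :=
  ∀ {M : Type v} [MetricSpace M] [CompactSpace M] (f : M ≃ₜ M) (ε₀ C a as bs b₀ β : ℝ) (n : ℕ)
    (Mi : ℕ → Set M) (V : ℕ → M → M → ℝ → M) (R ρ K r εb δb ε L R' εh δh rB : ℝ)
    (idx : M → ℕ), C2 f ε₀ C a as bs b₀ β n Mi V R ρ K r εb δb ε L R' εh δh rB idx →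
    ∀ η : ℝ, 0 < η → ∃ δ : ℝ, 0 < δ ∧ ∀ x p q, dist p x ≤ rB → dist q x ≤ rB →
      dist p q ≤ δ → |Hgh f β εh ε L ρ V idx x p - Hgh f β εh ε L ρ V idx x q| ≤ η

/-- Module INV: the plaque relation is invariant. -/
def SpecInv : Prop :=
  ∀ {M : Type v} [MetricSpace M] [CompactSpace M] (f : M ≃ₜ M) (ε₀ C a as bs b₀ β : ℝ) (n : ℕ)
    (Mi : ℕ → Set M) (V : ℕ → M → M → ℝ → M) (R ρ K r εb δb ε L R' εh δh rB : ℝ)
    (idx : M → ℕ), C2 f ε₀ C a as bs b₀ β n Mi V R ρ K r εb δb ε L R' εh δh rB idx →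
    ∀ p q, dist p q ≤ rB → dist (f p) (f q) ≤ rB →
      (Erel f β εh ε L p q ↔ Erel f β εh ε L (f p) (f q))

/-- Module CONN: points of a plaque are joined by small steps in the plaque. -/
def SpecConn : Prop :=
  ∀ {M : Type v} [MetricSpace M] [CompactSpace M] (f : M ≃ₜ M) (ε₀ C a as bs b₀ β : ℝ) (n : ℕ)
    (Mi : ℕ → Set M) (V : ℕ → M → M → ℝ → M) (R ρ K r εb δb ε L R' εh δh rB : ℝ)
    (idx : M → ℕ), C2 f ε₀ C a as bs b₀ β n Mi V R ρ K r εb δb ε L R' εh δh rB idx →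
    ∀ η : ℝ, 0 < η → ∃ D : ℕ, ∀ p q, Erel f β εh ε L p q → ∃ c : ℕ → M, c 0 = p ∧
      c D = q ∧ ∀ i < D, dist (c i) (c (i + 1)) ≤ η ∧ Erel f β εh ε L (c i) (c (i + 1))

/-- Module LOC2 (assembly of Part C). -/
def SpecLoc2 : Prop :=
  ∀ {M : Type v} [MetricSpace M] [CompactSpace M] (f : M ≃ₜ M) (ε₀ C a as bs b₀ β : ℝ) (n : ℕ)
    (Mi : ℕ → Set M) (V : ℕ → M → M → ℝ → M) (R ρ K r εb δb ε L R' εh δh rB : ℝ)
    (idx : M → ℕ), C2 f ε₀ C a as bs b₀ β n Mi V R ρ K r εb δb ε L R' εh δh rB idx →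
    Loc f (Erel f β εh ε L) (Hgh f β εh ε L ρ V idx) (fun x t => V (idx x) x x t) rB
      (min ρ (εh / K)) ∧
    ∀ x, ∀ y ∈ Wl f.symm rB x, Erel f β εh ε L x y → Cv f β ε L x y

/-! ### Part D: the smooth side -/

/-- Module FRM: frames. -/
def SpecFrm : Prop :=
  ∀ {M : Type v} [MetricSpace M] [CompactSpace M] {W : Type u} [NormedAddCommGroup W]
    [NormedSpace ℝ W] [FiniteDimensional ℝ W] {J : Emb M W} {f : M ≃ₜ M} (s : Split J f)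
    (F : M → Submodule ℝ W), s.Hyperbolic → Fld s F → ∃ K : ℝ, 1 ≤ K ∧ ∀ η : ℝ, 0 < η →
      ∃ (n : ℕ) (Mi : ℕ → Set M) (e : ℕ → M → W) (θ : ℕ → W →L[ℝ] ℝ) (δ : ℝ),
        Frm s F n Mi e θ K δ η

/-- Module SLP: slopes. -/
def SpecSlp : Prop :=
  ∀ {M : Type v} [MetricSpace M] [CompactSpace M] {W : Type u} [NormedAddCommGroup W]
    [NormedSpace ℝ W] [FiniteDimensional ℝ W] {J : Emb M W} {f : M ≃ₜ M} (s : Split J f)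
    (F : M → Submodule ℝ W), s.Hyperbolic → Fld s F → ∀ K : ℝ, 1 ≤ K → ∃ η : ℝ, 0 < η ∧
      ∀ (n : ℕ) (Mi : ℕ → Set M) (e : ℕ → M → W) (θ : ℕ → W →L[ℝ] ℝ) (δ : ℝ),
        Frm s F n Mi e θ K δ η → ∃ (α : ℕ → M → M → W → ℝ) (δ' : ℝ), Slp s F n Mi e θ α δ'

/-- Module PSI: coordinates. -/
def SpecPsi : Prop :=
  ∀ {M : Type v} [MetricSpace M] [CompactSpace M] {W : Type u} [NormedAddCommGroup W]
    [NormedSpace ℝ W] [FiniteDimensional ℝ W] {J : Emb M W} {f : M ≃ₜ M} (s : Split J f),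
    s.Hyperbolic → ∃ K εc : ℝ, 1 ≤ K ∧ 0 < εc ∧ ∀ ε : ℝ, 0 < ε → ε ≤ εc →
      ∃ (Ψ : M → W → M) (R₁ : ℝ), Psi s Ψ ε R₁ K

/-- Module ESTEP: the growth of one small step tangent to the field. -/
def SpecEstep : Prop :=
  ∀ {M : Type v} [MetricSpace M] [CompactSpace M] {W : Type u} [NormedAddCommGroup W]
    [NormedSpace ℝ W] [FiniteDimensional ℝ W] {J : Emb M W} {f : M ≃ₜ M} (s : Split J f)
    (F : M → Submodule ℝ W) (n : ℕ) (Mi : ℕ → Set M) (e : ℕ → M → W) (θ : ℕ → W →L[ℝ] ℝ)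
    (K δ η : ℝ) (α : ℕ → M → M → W → ℝ) (δ' β C₀ : ℝ), s.Hyperbolic → Fld s F →
    Frm s F n Mi e θ K δ η → Slp s F n Mi e θ α δ' → 0 ≤ β → 0 ≤ C₀ →
    (∀ (k : ℕ) (x : M), ∀ w ∈ F x, ‖iterD s.D f k x w‖ ≤ C₀ * Real.exp (β * k) * ‖w‖) →
    ∃ εE : ℝ, 0 < εE ∧ ∀ (Ψ : M → W → M) (ε R₁ K₁ : ℝ), ε ≤ εE → Psi s Ψ ε R₁ K₁ →
      ∃ L : ℝ, 0 ≤ L ∧ Estep s n Mi e θ α Ψ R₁ β L

/-- Module VRT: vertical lines. -/
def SpecVrt : Prop :=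
  ∀ {M : Type v} [MetricSpace M] [CompactSpace M] {W : Type u} [NormedAddCommGroup W]
    [NormedSpace ℝ W] [FiniteDimensional ℝ W] {J : Emb M W} {f : M ≃ₜ M} (s : Split J f)
    (F : M → Submodule ℝ W) (n : ℕ) (Mi : ℕ → Set M) (e : ℕ → M → W) (θ : ℕ → W →L[ℝ] ℝ)
    (K δ η : ℝ) (Ψ : M → W → M) (ε R₁ K₁ ε₀ C κ : ℝ), s.Hyperbolic →
    Frm s F n Mi e θ K δ η → Psi s Ψ ε R₁ K₁ → Dec f.symm ε₀ C κ → 2 * ε ≤ ε₀ →
    ∃ K' ρm : ℝ, 1 ≤ K' ∧ 0 < ρm ∧ ∀ ρ R : ℝ, 0 < ρ → ρ ≤ ρm → 0 < R → K' * R ≤ ρ →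
      Vrt f n Mi (fun i x p t => Ψ x (phi s x p + t • e i x)) R ρ K'

/-- Module POLY: polygons. -/
def SpecPoly : Prop :=
  ∀ {M : Type v} [MetricSpace M] [CompactSpace M] {W : Type u} [NormedAddCommGroup W]
    [NormedSpace ℝ W] [FiniteDimensional ℝ W] {J : Emb M W} {f : M ≃ₜ M} (s : Split J f)
    (F : M → Submodule ℝ W) (n : ℕ) (Mi : ℕ → Set M) (e : ℕ → M → W) (θ : ℕ → W →L[ℝ] ℝ)
    (K δ η : ℝ) (α : ℕ → M → M → W → ℝ) (δ' : ℝ) (Ψ : M → W → M) (ε R₁ K₁ β L ε₀ C κ : ℝ),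
    s.Hyperbolic → Frm s F n Mi e θ K δ η → Slp s F n Mi e θ α δ' → Psi s Ψ ε R₁ K₁ →
    ε ≤ δ' → Dec f.symm ε₀ C κ → 2 * ε ≤ ε₀ → 0 ≤ L → Estep s n Mi e θ α Ψ R₁ β L →
    ∃ K' ρm : ℝ, 1 ≤ K' ∧ 0 < ρm ∧ ∀ ρ R : ℝ, 0 < ρ → ρ ≤ ρm → 0 < R → K' * R ≤ ρ →
      ∃ L' : ℝ, Poly f β n Mi (fun i x p t => Ψ x (phi s x p + t • e i x)) R ρ K'
        (fun i x p N z j => Ψ x (Epol α e Ψ i x ((1 / (N : ℝ)) •
          (hor e θ i x (phi s x p) - hor e θ i x (phi s x z))) j (phi s x z)))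
        (fun i x p N z => θ i (Epol α e Ψ i x ((1 / (N : ℝ)) •
          (hor e θ i x (phi s x p) - hor e θ i x (phi s x z))) N (phi s x z) - phi s x p)) L'

/-! ### Part E: manifolds -/

/-- Module POW2: powers of an Anosov diffeomorphism. -/
def SpecPow2 : Prop :=
  ∀ {V : Type u} [NormedAddCommGroup V] [NormedSpace ℝ V] [FiniteDimensional ℝ V]
    {M : Type v} [TopologicalSpace M] [CompactSpace M] [T2Space M]
    [ChartedSpace V M] [IsManifold 𝓘(ℝ, V) ∞ M]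
    [RiemannianBundle (fun x : M => TangentSpace 𝓘(ℝ, V) x)]
    (f : M ≃ₘ^1⟮𝓘(ℝ, V), 𝓘(ℝ, V)⟯ M)
    (Es Eu Ew : ∀ x : M, Submodule ℝ (TangentSpace 𝓘(ℝ, V) x)) (C l₁ l₂ m b : ℝ) (n : ℕ),
    0 < n → Gen.IsAnosovSplitting f Es Eu → Rates f Es Eu Ew C l₁ l₂ m b →
    ∃ g : M ≃ₘ^1⟮𝓘(ℝ, V), 𝓘(ℝ, V)⟯ M, (⇑g = (⇑f)^[n]) ∧ (⇑g.symm = (⇑f.symm)^[n]) ∧
      Gen.IsAnosovSplitting g Es Eu ∧
      Rates g Es Eu Ew C (l₁ ^ n) (l₂ ^ n) (m ^ n) (b ^ n)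

/-- Module CLO: a closed field in the tangent bundle is closed in the ambient space. -/
def SpecClo : Prop :=
  ∀ {V : Type u} [NormedAddCommGroup V] [NormedSpace ℝ V] [FiniteDimensional ℝ V] {N : ℕ}
    {M : Type v} [MetricSpace M] [CompactSpace M] [ChartedSpace V M] [IsManifold 𝓘(ℝ, V) ∞ M]
    (e : M → EuclideanSpace ℝ (Fin N)), ContMDiff 𝓘(ℝ, V) (𝓡 N) ∞ e →
    (∀ x, Injective (mfderiv 𝓘(ℝ, V) (𝓡 N) e x)) →
    ∀ Ew : ∀ x : M, Submodule ℝ (TangentSpace 𝓘(ℝ, V) x),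
    IsClosed {p : TangentBundle 𝓘(ℝ, V) M | p.2 ∈ Ew p.1} →
    IsClosed {p : M × EuclideanSpace ℝ (Fin N) |
      ∃ v ∈ Ew p.1, mfderiv 𝓘(ℝ, V) (𝓡 N) e p.1 v = p.2}

/-- The main theorem. -/
def SpecMain : Prop :=
  ∀ {V : Type u} [NormedAddCommGroup V] [NormedSpace ℝ V] [FiniteDimensional ℝ V]
    {M : Type v} [TopologicalSpace M] [CompactSpace M] [T2Space M] [ConnectedSpace M]
    [ChartedSpace V M] [IsManifold 𝓘(ℝ, V) ∞ M]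
    [RiemannianBundle (fun x : M => TangentSpace 𝓘(ℝ, V) x)]
    [IsContinuousRiemannianBundle V (fun x : M => TangentSpace 𝓘(ℝ, V) x)]
    (f : M ≃ₘ^1⟮𝓘(ℝ, V), 𝓘(ℝ, V)⟯ M)
    (Es Eu Ew : ∀ x : M, Submodule ℝ (TangentSpace 𝓘(ℝ, V) x)),
    Gen.IsAnosovSplitting f Es Eu → (∀ x, IsHyperplane (Ew x) (Eu x)) →
    IsClosed {p : TangentBundle 𝓘(ℝ, V) M | p.2 ∈ Ew p.1} →
    ∀ C l₁ l₂ m b : ℝ, 0 < l₁ → l₁ ≤ l₂ → l₂ < 1 → 1 < m → m ≤ b →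
    Rates f Es Eu Ew C l₁ l₂ m b →
    (Real.log l₁ / Real.log l₂ - 1) * (Real.log b / Real.log m - 1) < 1 → TopTransitive f

end Pool.Agent.Lib.MP610fe3.T5
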