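import Pool.Agent.Lib.MP_610fe3_an.T4.Spec2
import Pool.Agent.Lib.MP_610fe3_an.N3.Wrap

/-!
# Hyperplane fields in the unstable bundle: definitions

`f` is a homeomorphism of a compact metric space. Stable sets are `Wl f _ _`, unstable sets
`Wl f.symm _ _`. A pair of points of an unstable set is cheap if at all times `m` it is joined by
at most `Λ exp (β m)` unstable steps of size `r`.
-/

open Set Filter Function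
open scoped Topology

namespace Pool.Agent.Lib.MP610fe3.T5

open Cf H6 T4

section Metric

variable {M : Type*} [MetricSpace M]

/-- Chains of `K` steps from `p` to `q` in `D`; the steps are unstable, of size `r` at time `m`. -/
def Chm (f : M ≃ₜ M) (r : ℝ) (m : ℕ) (D : Set M) (K : ℕ) (p q : M) : Prop :=
  ∃ c : ℕ → M, c 0 = p ∧ c K = q ∧ (∀ i ≤ K, c i ∈ D) ∧
    ∀ i < K, f^[m] (c (i + 1)) ∈ Wl f.symm r (f^[m] (c i))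

/-- Cheap pairs. -/
def Chp (f : M ≃ₜ M) (β r : ℝ) (D : Set M) (Λ : ℝ) (p q : M) : Prop :=
  ∀ m : ℕ, ∃ K : ℕ, (K : ℝ) ≤ Λ * Real.exp (β * m) ∧ Chm f r m D K p q

/-- Points with a cheap neighbourhood in their unstable set. -/
def Cset (f : M ≃ₜ M) (β r : ℝ) : Set M :=
  {x | ∃ δ Λ : ℝ, 0 < δ ∧ ∀ y ∈ Wl f.symm δ x, ∀ y' ∈ Wl f.symm δ x, Chp f β r univ Λ y y'}

/-- Hyperbolicity with rates: `a` is a lower unstable rate, `as` a lower and `bs` an upper stable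
rate, `b₀` a (large) upper unstable rate, `β` the rate of cheap pairs. -/
structure Hyb (f : M ≃ₜ M) (ε₀ C a as bs b₀ β : ℝ) : Prop where
  fwd : Dec f ε₀ C (Real.exp (-as))
  bwd : Dec f.symm ε₀ C (Real.exp (-a))
  br : Br f ε₀ C
  a_pos : 0 < a
  as_pos : 0 < as
  a_le : a ≤ β
  as_le : as ≤ bs
  b₀_nonneg : 0 ≤ b₀
  rate : (β - a) * (bs - as) < a * as
  slow : ∀ ε₁ : ℝ, 0 < ε₁ → ∃ ρ Λ : ℝ, 0 < ρ ∧ 0 ≤ Λ ∧ Slow f ρ ε₁ Λ (Real.exp bs)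
  slow' : ∀ ε₁ : ℝ, 0 < ε₁ → ∃ ρ Λ : ℝ, 0 < ρ ∧ 0 ≤ Λ ∧ Slow f.symm ρ ε₁ Λ (Real.exp b₀)

/-! ### Vertical lines and polygons -/

/-- Vertical lines in unstable sets. `V i x p t` is the point at height `t` over `p`, in the chart
number `i` at `x`, which exists for `x` in the closed set `Mi i`. -/
structure Vrt (f : M ≃ₜ M) (n : ℕ) (Mi : ℕ → Set M) (V : ℕ → M → M → ℝ → M) (R ρ K : ℝ) :
    Prop where
  R_pos : 0 < R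
  ρ_pos : 0 < ρ
  one_le : 1 ≤ K
  closed : ∀ i < n, IsClosed (Mi i)
  cover : ∀ x, ∃ i < n, x ∈ Mi i
  zero : ∀ i < n, ∀ x ∈ Mi i, ∀ p ∈ Wl f.symm R x, V i x p 0 = p
  wl : ∀ i < n, ∀ x ∈ Mi i, ∀ p ∈ Wl f.symm R x, ∀ t ∈ Icc (-ρ) ρ, ∀ t' ∈ Icc (-ρ) ρ,
    V i x p t ∈ Wl f.symm (K * |t - t'|) (V i x p t')
  low : ∀ i < n, ∀ x ∈ Mi i, ∀ p ∈ Wl f.symm R x, ∀ t ∈ Icc (-ρ) ρ, ∀ t' ∈ Icc (-ρ) ρ,
    |t - t'| ≤ K * dist (V i x p t) (V i x p t')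
  cont : ∀ i < n, ContinuousOn (fun b : M × M × ℝ => V i b.1 b.2.1 b.2.2)
    {b | b.1 ∈ Mi i ∧ b.2.1 ∈ Wl f.symm R b.1 ∧ b.2.2 ∈ Icc (-ρ) ρ}

/-- Polygons with `N` sides which are almost tangent to the hyperplane field, from `z` to the
vertical line through `p`. `P i x p N z j` is the vertex number `j`; `T i x p N z` is the height of
the end point. -/
structure Poly (f : M ≃ₜ M) (β : ℝ) (n : ℕ) (Mi : ℕ → Set M) (V : ℕ → M → M → ℝ → M)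
    (R ρ K : ℝ) (P : ℕ → M → M → ℕ → M → ℕ → M) (T : ℕ → M → M → ℕ → M → ℝ) (L : ℝ) :
    Prop where
  L_nonneg : 0 ≤ L
  start : ∀ i < n, ∀ x ∈ Mi i, ∀ p ∈ Wl f.symm R x, ∀ z ∈ Wl f.symm R x, ∀ N, 0 < N →
    P i x p N z 0 = z
  stop : ∀ i < n, ∀ x ∈ Mi i, ∀ p ∈ Wl f.symm R x, ∀ z ∈ Wl f.symm R x, ∀ N, 0 < N →
    P i x p N z N = V i x p (T i x p N z)
  T_mem : ∀ i < n, ∀ x ∈ Mi i, ∀ p ∈ Wl f.symm R x, ∀ z ∈ Wl f.symm R x, ∀ N, 0 < N →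
    T i x p N z ∈ Icc (-ρ) ρ
  T_near : ∀ i < n, ∀ x ∈ Mi i, ∀ p ∈ Wl f.symm R x, ∀ z ∈ Wl f.symm R x, ∀ N, 0 < N →
    ∀ t ∈ Icc (-ρ) ρ, |T i x p N z - t| ≤ K * dist z (V i x p t)
  T_cont : ∀ i < n, ∀ x ∈ Mi i, ∀ p ∈ Wl f.symm R x, ∀ N, 0 < N →
    ContinuousOn (T i x p N) (Wl f.symm R x)
  mem : ∀ i < n, ∀ x ∈ Mi i, ∀ R' ≤ R, ∀ p ∈ Wl f.symm R' x, ∀ z ∈ Wl f.symm R' x, ∀ N, 0 < N →
    ∀ j ≤ N, P i x p N z j ∈ Wl f.symm (K * R') x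
  step : ∀ m : ℕ, ∃ N₀ : ℕ, ∀ N ≥ N₀, 0 < N → ∀ i < n, ∀ x ∈ Mi i, ∀ p ∈ Wl f.symm R x,
    ∀ z ∈ Wl f.symm R x, ∀ k ≤ m, ∀ j < N,
    dist (f^[k] (P i x p N z (j + 1))) (f^[k] (P i x p N z j)) ≤ L * Real.exp (β * k) * (1 / N)

/-- Every point is joined cheaply to the vertical line through `p`, at time `m`, and the height
`T` of the end point depends continuously on the point. -/
def Eul (f : M ≃ₜ M) (β : ℝ) (n : ℕ) (Mi : ℕ → Set M) (V : ℕ → M → M → ℝ → M) (R ρ K : ℝ) :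
    Prop :=
  ∀ r : ℝ, 0 < r → ∃ L₀ : ℝ, 0 ≤ L₀ ∧ ∀ i < n, ∀ x ∈ Mi i, ∀ p ∈ Wl f.symm R x, ∀ m : ℕ,
    ∃ T : M → ℝ, ContinuousOn T (Wl f.symm R x) ∧ ∀ z ∈ Wl f.symm R x, T z ∈ Icc (-ρ) ρ ∧
      (∀ t ∈ Icc (-ρ) ρ, |T z - t| ≤ K * dist z (V i x p t)) ∧
      ∃ k : ℕ, (k : ℝ) ≤ L₀ * Real.exp (β * m) ∧ Chm f r m univ k z (V i x p (T z))

/-- Curves from `z` to the vertical line through `p` whose forward iterates grow like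
`exp (β n)`. -/
def Tanc (f : M ≃ₜ M) (β : ℝ) (n : ℕ) (Mi : ℕ → Set M) (V : ℕ → M → M → ℝ → M) (R ρ : ℝ) :
    Prop :=
  ∀ ε : ℝ, 0 < ε → ∃ R' L : ℝ, 0 < R' ∧ R' ≤ R ∧ 0 ≤ L ∧ ∀ i < n, ∀ x ∈ Mi i,
    ∀ p ∈ Wl f.symm R' x, ∀ z ∈ Wl f.symm R' x, ∃ (γ : ℝ → M) (τ : ℝ), τ ∈ Icc (-ρ) ρ ∧
      γ 0 = z ∧ γ 1 = V i x p τ ∧ (∀ t ∈ Icc (0 : ℝ) 1, γ t ∈ Wl f.symm ε x) ∧
      ∀ t ∈ Icc (0 : ℝ) 1, ∀ t' ∈ Icc (0 : ℝ) 1, ∀ k : ℕ,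
        dist (f^[k] (γ t)) (f^[k] (γ t')) ≤ L * Real.exp (β * k) * |t - t'|

/-- Different points of a vertical line are not cheap. -/
def NoSteep (f : M ≃ₜ M) (β r : ℝ) (n : ℕ) (Mi : ℕ → Set M) (V : ℕ → M → M → ℝ → M)
    (R ρ : ℝ) : Prop :=
  ∀ i < n, ∀ x ∈ Mi i, ∀ p ∈ Wl f.symm R x, ∀ t ∈ Icc (-ρ) ρ, ∀ t' ∈ Icc (-ρ) ρ, ∀ Λ : ℝ,
    Chp f β r (Wl f.symm (R / 2) x) Λ (V i x p t) (V i x p t') → t = t'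

/-! ### The second case: no steep pair is cheap -/

/-- Curves whose forward iterates grow like `exp (β n)`. -/
def Cv (f : M ≃ₜ M) (β ε L : ℝ) (p z : M) : Prop :=
  ∃ γ : ℝ → M, γ 0 = p ∧ γ 1 = z ∧ ∀ t ∈ Icc (0 : ℝ) 1, ∀ t' ∈ Icc (0 : ℝ) 1,
    γ t ∈ Wl f.symm ε (γ t') ∧ ∀ k : ℕ,
      dist (f^[k] (γ t)) (f^[k] (γ t')) ≤ L * Real.exp (β * k) * |t - t'|

/-- The plaque relation. -/
def Erel (f : M ≃ₜ M) (β εh ε L : ℝ) (p q : M) : Prop :=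
  ∃ z, z ∈ Wl f εh q ∧ z ∈ Wl f.symm εh p ∧ Cv f β ε L p z

/-- The height of `p` over `x` is `τ`. -/
def Hts (f : M ≃ₜ M) (β εh ε L ρ : ℝ) (V : ℕ → M → M → ℝ → M) (idx : M → ℕ) (x p : M)
    (τ : ℝ) : Prop :=
  τ ∈ Icc (-ρ) ρ ∧ ∃ q, q ∈ Wl f εh p ∧ q ∈ Wl f.symm εh x ∧
    Cv f β ε L q (V (idx x) x x τ)

open Classical in
/-- The height. -/
noncomputable def Hgh (f : M ≃ₜ M) (β εh ε L ρ : ℝ) (V : ℕ → M → M → ℝ → M) (idx : M → ℕ)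
    (x p : M) : ℝ :=
  if h : ∃ τ, Hts f β εh ε L ρ V idx x p τ then h.choose else 0

/-- Everything about the second case. The scales are
`rB, δh ≪ εh ≤ R' ≪ ε ≪ δb ≪ εb ≪ r ≤ R ≪ ε₀`. -/
structure C2 (f : M ≃ₜ M) (ε₀ C a as bs b₀ β : ℝ) (n : ℕ) (Mi : ℕ → Set M)
    (V : ℕ → M → M → ℝ → M) (R ρ K r εb δb ε L R' εh δh rB : ℝ) (idx : M → ℕ) : Prop where
  hyb : Hyb f ε₀ C a as bs b₀ β
  vrt : Vrt f n Mi V R ρ K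
  nos : NoSteep f β r n Mi V R ρ
  idx_lt : ∀ x, idx x < n
  idx_mem : ∀ x, x ∈ Mi (idx x)
  R_le : 8 * (R + K * (2 * ρ)) ≤ ε₀
  r_le : r ≤ R
  r_pos : 0 < r
  εb_pos : 0 < εb
  εb_le : 16 * εb ≤ r
  δb_pos : 0 < δb
  br_b : ∀ x y, dist x y ≤ δb → ∃ z, z ∈ Wl f εb x ∧ z ∈ Wl f.symm εb y
  δb_le : δb ≤ εb
  ε_pos : 0 < ε
  ε_le : 16 * ε ≤ δb
  L_nonneg : 0 ≤ L
  tan : ∀ i < n, ∀ x ∈ Mi i, ∀ p ∈ Wl f.symm R' x, ∀ z ∈ Wl f.symm R' x,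
    ∃ τ ∈ Icc (-ρ) ρ, Cv f β ε L z (V i x p τ)
  R'_pos : 0 < R'
  R'_le : R' ≤ ε
  unif : ∀ x y, dist x y ≤ 4 * ε → dist (f x) (f y) ≤ εb ∧ dist (f.symm x) (f.symm y) ≤ εb
  εh_pos : 0 < εh
  εh_le : εh ≤ R'
  δh_pos : 0 < δh
  br_h : ∀ x y, dist x y ≤ δh → ∃ z, z ∈ Wl f εh x ∧ z ∈ Wl f.symm εh y
  δh_le : δh ≤ εh
  slow_h : ∃ Λs : ℝ, 0 ≤ Λs ∧ Slow f εh (ε₀ / 2) Λs (Real.exp bs)
  rB_pos : 0 < rB
  rB_le : 4 * rB ≤ δh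

end Metric

/-! ### The smooth side -/

section Smooth

variable {M : Type*} {W : Type*} [MetricSpace M] [NormedAddCommGroup W] [NormedSpace ℝ W]
  {J : Emb M W} {f : M ≃ₜ M}

/-- A closed field of hyperplanes of the unstable bundle. -/
structure Fld (s : Split J f) (F : M → Submodule ℝ W) : Prop where
  sub : ∀ x, ∀ w ∈ F x, s.U x w = w
  hyp : ∀ x, ∃ e : W, s.U x e = e ∧ e ∉ F x ∧ ∀ u, s.U x u = u → ∃ c : ℝ, u - c • e ∈ F x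
  closed : IsClosed {p : M × W | p.2 ∈ F p.1}

/-- Frames: `e i x` is an unstable vector transversal to the field, `θ i` a functional which almost
vanishes on the field near `x`. -/
structure Frm (s : Split J f) (F : M → Submodule ℝ W) (n : ℕ) (Mi : ℕ → Set M)
    (e : ℕ → M → W) (θ : ℕ → W →L[ℝ] ℝ) (K δ η : ℝ) : Prop where
  one_le : 1 ≤ K
  closed : ∀ i < n, IsClosed (Mi i)
  cover : ∀ x, ∃ i < n, x ∈ Mi i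
  e_cont : ∀ i < n, ContinuousOn (e i) (Mi i)
  e_U : ∀ i < n, ∀ x ∈ Mi i, s.U x (e i x) = e i x
  e_le : ∀ i < n, ∀ x ∈ Mi i, ‖e i x‖ ≤ K
  θ_e : ∀ i < n, ∀ x ∈ Mi i, θ i (e i x) = 1
  θ_le : ∀ i < n, ‖θ i‖ ≤ K
  δ_pos : 0 < δ
  slope : ∀ i < n, ∀ x ∈ Mi i, ∀ y, dist y x ≤ δ → ∀ w ∈ F y, |θ i w| ≤ η * ‖w‖

/-- Slopes of the field: over the horizontal vector `h` lies the vector `v` of the field at `z`. -/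
structure Slp (s : Split J f) (F : M → Submodule ℝ W) (n : ℕ) (Mi : ℕ → Set M)
    (e : ℕ → M → W) (θ : ℕ → W →L[ℝ] ℝ) (α : ℕ → M → M → W → ℝ) (δ : ℝ) : Prop where
  δ_pos : 0 < δ
  le : ∀ i < n, ∀ x ∈ Mi i, ∀ z, dist z x ≤ δ → ∀ h, s.U x h = h → θ i h = 0 →
    |α i x z h| ≤ ‖h‖
  ex : ∀ i < n, ∀ x ∈ Mi i, ∀ z, dist z x ≤ δ → ∀ h, s.U x h = h → θ i h = 0 →
    ∃ v ∈ F z, s.U x v = h + α i x z h • e i x ∧ ‖v‖ ≤ 4 * ‖h‖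
  cont : ∀ i < n, ∀ x ∈ Mi i, ContinuousOn (fun b : M × W => α i x b.1 b.2)
    {b | dist b.1 x ≤ δ ∧ s.U x b.2 = b.2 ∧ θ i b.2 = 0}

/-- Coordinates of the unstable sets. -/
structure Psi (s : Split J f) (Ψ : M → W → M) (ε R₁ K : ℝ) : Prop where
  ε_pos : 0 < ε
  R₁_pos : 0 < R₁
  one_le : 1 ≤ K
  mem : ∀ x u, s.U x u = u → ‖u‖ ≤ R₁ → Ψ x u ∈ Wl f.symm ε x
  eq : ∀ x u, s.U x u = u → ‖u‖ ≤ R₁ → s.U x (J.e (Ψ x u) - J.e x) = u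
  lip : ∀ x u v, s.U x u = u → ‖u‖ ≤ R₁ → s.U x v = v → ‖v‖ ≤ R₁ →
    dist (Ψ x u) (Ψ x v) ≤ K * ‖u - v‖
  inj : ∀ x, ∀ z ∈ Wl f.symm ε x, ∀ z' ∈ Wl f.symm ε x,
    dist z z' ≤ K * ‖s.U x (J.e z - J.e z')‖
  cont : ContinuousOn (fun b : M × W => Ψ b.1 b.2) {b | s.U b.1 b.2 = b.2 ∧ ‖b.2‖ ≤ R₁}

/-- One small step tangent to the field; `L` does not depend on the time `m`. -/
def Estep (s : Split J f) (n : ℕ) (Mi : ℕ → Set M) (e : ℕ → M → W) (θ : ℕ → W →L[ℝ] ℝ)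
    (α : ℕ → M → M → W → ℝ) (Ψ : M → W → M) (R₁ β L : ℝ) : Prop :=
  ∀ m : ℕ, ∃ ρm : ℝ, 0 < ρm ∧ ∀ i < n, ∀ x ∈ Mi i, ∀ u h : W, s.U x u = u → ‖u‖ ≤ R₁ / 2 →
    s.U x h = h → θ i h = 0 → ‖h‖ ≤ ρm → ∀ k ≤ m,
    dist (f^[k] (Ψ x (u + h + α i x (Ψ x u) h • e i x))) (f^[k] (Ψ x u)) ≤
      L * Real.exp (β * k) * ‖h‖

/-- The coordinate of `z` in the chart at `x`. -/
def phi (s : Split J f) (x z : M) : W := s.U x (J.e z - J.e x)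

/-- The horizontal part of a coordinate. -/
def hor (e : ℕ → M → W) (θ : ℕ → W →L[ℝ] ℝ) (i : ℕ) (x : M) (u : W) : W :=
  u - θ i u • e i x

/-- Euler polygons in coordinates: `j` steps `h`, starting at `u`. -/
noncomputable def Epol (α : ℕ → M → M → W → ℝ) (e : ℕ → M → W) (Ψ : M → W → M) (i : ℕ)
    (x : M) (h : W) : ℕ → W → W
  | 0, u => u
  | (j + 1), u => Epol α e Ψ i x h j u + h +
      α i x (Ψ x (Epol α e Ψ i x h j u)) h • e i x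

end Smooth

end Pool.Agent.Lib.MP610fe3.T5
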