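import Pool.Agent.Lib.MP_610fe3_an.T5.Spec
import Pool.Agent.Lib.MP_610fe3_an.T5.Ch

/-!
# Module EIFF: the plaques are the level sets of the height (helper19)
-/

open Set Filter Function
open scoped Topology

namespace Pool.Agent.Lib.MP610fe3.T5

open Cf Cf.H1 H6 T4 ChM

universe v

theorem eiff (hholc : SpecHolc.{v}) (hcvch : SpecCvch.{v}) (hlemu : SpecLemU.{v})
    (hhts : SpecHts.{v}) : SpecEiff.{v} := by
  intro M _ _ f ε₀ C a as bs b₀ β n Mi V R ρ K r εb δb ε L R' εh δh rB idx hC2 x p q hp hq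
  obtain ⟨s1, s2, s3, s4, s5, s6, s7, s8, s9, prB, pδh, pεh, pR', pε, pδb, pεb, pr, pR, pε₀, pρ,
    hK1⟩ := C2.scales hC2
  obtain ⟨hex, huniq⟩ := hhts f ε₀ C a as bs b₀ β n Mi V R ρ K r εb δb ε L R' εh δh rB idx hC2
  have hβ : 0 ≤ β := hC2.hyb.a_pos.le.trans hC2.hyb.a_le
  have hεε₀ : ε ≤ ε₀ := by linarith
  obtain ⟨Λ₁, hΛ₁, hch₁⟩ := hcvch f ε₀ C (Real.exp (-a)) β hC2.hyb.bwd hβ ε L (r / 2) hεε₀
    hC2.L_nonneg (by linarith)
  have hHp := hgh_spec (hex x p (by linarith))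
  have hHq := hgh_spec (hex x q (by linarith))
  obtain ⟨hτp, ph, hph1, hph2, hphc⟩ := hHp
  obtain ⟨hτq, qh, hqh1, hqh2, hqhc⟩ := hHq
  set τp := Hgh f β εh ε L ρ V idx x p with hτpdef
  set τq := Hgh f β εh ε L ρ V idx x q with hτqdef
  -- chains from the projections to the vertical line
  have hcp : Chp f β (r / 2) (Wl f.symm (ε + εh) x) Λ₁ ph (V (idx x) x x τp) :=
    chp_mono (hch₁ _ _ hphc) le_rfl (wl_sub hph2) le_rfl
  have hcq : Chp f β (r / 2) (Wl f.symm (ε + εh) x) Λ₁ qh (V (idx x) x x τq) :=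
    chp_mono (hch₁ _ _ hqhc) le_rfl (wl_sub hqh2) le_rfl
  have hsubR : Wl f.symm (ε + εh) x ⊆ Wl f.symm (R / 2) x := fun z hz =>
    wl_mono hz (by linarith)
  have hxR : x ∈ Wl f.symm R x := wl_self pR.le x
  constructor
  · rintro ⟨z, hz1, hz2, hzc⟩
    have hpz := hch₁ _ _ hzc
    have hhol : Chp f β r (Wl f.symm (R / 2) x) Λ₁ ph qh := fun m => by
      obtain ⟨k, hk, hc⟩ := hpz m
      refine ⟨k, hk, ?_⟩
      have h1 := hholc f ε₀ C (r / 2) εb hC2.hyb.br (by linarith) m k (Wl f.symm ε p) x p z ph qh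
        (fun c hc => ?_) hc (wl_mono hph1 (by linarith)) (wl_mono hph2 (by linarith))
        (wl_mono (wl_trans hqh1 (wl_symm hz1)) (by linarith)) (wl_mono hqh2 (by linarith))
      · exact chm_mono h1 (by linarith) (fun z hz => wl_mono hz (by linarith))
      · refine hC2.br_b c x ?_
        have h2 := wl_dist hc
        have h3 := dist_triangle c p x
        linarith
    have htot : Chp f β r (Wl f.symm (R / 2) x) (Λ₁ + Λ₁ + Λ₁) (V (idx x) x x τp)
        (V (idx x) x x τq) :=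
      chp_trans (chp_trans (chp_symm (chp_mono hcp (by linarith) hsubR le_rfl)) hhol)
        (chp_mono hcq (by linarith) hsubR le_rfl)
    exact hC2.nos (idx x) (hC2.idx_lt x) x (hC2.idx_mem x) x hxR τp hτp τq hτq _ htot
  · intro hτ
    rw [← hτ] at hcq
    obtain ⟨z, hz1, hz2⟩ := hC2.br_h q p (by
      have := dist_triangle_right q p x
      linarith)
    refine ⟨z, hz1, hz2, ?_⟩
    have htot : Chp f β (r / 2) (Wl f.symm (ε + εh) x) (Λ₁ + Λ₁) ph qh :=
      chp_trans hcp (chp_symm hcq)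
    have hhol : Chp f β r (Wl f.symm (R / 4) p) (Λ₁ + Λ₁) p z := fun m => by
      obtain ⟨k, hk, hc⟩ := htot m
      refine ⟨k, hk, ?_⟩
      have h1 := hholc f ε₀ C (r / 2) εb hC2.hyb.br (by linarith) m k (Wl f.symm (ε + εh) x) p
        ph qh p z (fun c hc => ?_) hc (wl_mono (wl_symm hph1) (by linarith))
        (wl_self pεb.le p) (wl_mono (wl_trans hz1 (wl_symm hqh1)) (by linarith))
        (wl_mono hz2 (by linarith))
      · exact chm_mono h1 (by linarith) (fun z hz => wl_mono hz (by linarith))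
      · refine hC2.br_b c p ?_
        have h2 := wl_dist hc
        have h3 := dist_triangle_right c p x
        linarith
    exact hlemu f ε₀ C a as bs b₀ β n Mi V R ρ K r εb δb ε L R' εh δh rB idx hC2 (idx p)
      (hC2.idx_lt p) p (hC2.idx_mem p) p (wl_self pR'.le p) z (wl_mono hz2 s3) _ hhol

end Pool.Agent.Lib.MP610fe3.T5
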