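import Pool.Agent.Lib.MP_610fe3_an.T5.Spec
import Pool.Agent.Lib.MP_610fe3_an.Commute

/-!
# Hyperplane fields: frames
-/

open Set Filter Function
open scoped Topology

namespace Pool.Agent.Lib.MP610fe3.T5

open Cf H6 T4

universe u v

namespace FrmM

section lin

variable {W : Type*} [NormedAddCommGroup W] [NormedSpace ℝ W] [FiniteDimensional ℝ W]

/-- A functional vanishing on a hyperplane, with a good transversal vector. -/
theorem exists_frame (F : Submodule ℝ W) {e : W} (he : e ∉ F) :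
    ∃ (w : W) (c : ℝ) (θ : W →L[ℝ] ℝ), w ∈ F ∧ ‖θ‖ ≤ 1 ∧ ‖c • (e + w)‖ < 2 ∧
      θ (c • (e + w)) = 1 ∧ ∀ v ∈ F, θ v = 0 := by
  have hcl : IsClosed (F : Set W) := F.closed_of_finiteDimensional
  have hne : (F.mkQ e) ≠ 0 := by
    intro h
    exact he ((Submodule.Quotient.mk_eq_zero F).1 h)
  obtain ⟨g, hg1, hg2⟩ := exists_dual_vector ℝ (F.mkQ e) (norm_ne_zero_iff.2 hne)
  have hd : 0 < ‖F.mkQ e‖ := norm_pos_iff.2 hne
  obtain ⟨m, hm, hlt⟩ := QuotientAddGroup.exists_norm_mk_lt (S := F.toAddSubgroup) (F.mkQ e) hd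
  have hm' : F.mkQ m = F.mkQ e := hm
  have hlt' : ‖m‖ < ‖F.mkQ e‖ + ‖F.mkQ e‖ := hlt
  have hmk : ∀ x : W, ‖F.mkQ x‖ ≤ ‖x‖ := fun x => QuotientAddGroup.norm_mk_le_norm
  have hsub : m - e ∈ F := by
    rw [← Submodule.Quotient.mk_eq_zero, Submodule.Quotient.mk_sub, sub_eq_zero]
    exact hm'
  refine ⟨m - e, ‖F.mkQ e‖⁻¹, LinearMap.mkContinuous (g.toLinearMap ∘ₗ F.mkQ) 1 ?_, hsub, ?_, ?_,
    ?_, ?_⟩
  · intro x
    rw [one_mul]
    calc ‖g (F.mkQ x)‖ ≤ ‖g‖ * ‖F.mkQ x‖ := g.le_opNorm _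
      _ ≤ ‖x‖ := by rw [hg1, one_mul]; exact hmk x
  · exact LinearMap.mkContinuous_norm_le _ zero_le_one _
  · rw [norm_smul, norm_inv, norm_norm, add_sub_cancel, inv_mul_lt_iff₀ hd]
    linarith
  · rw [add_sub_cancel]
    change g (F.mkQ (‖F.mkQ e‖⁻¹ • m)) = 1
    rw [map_smul, map_smul, hm', hg2, smul_eq_mul]
    exact inv_mul_cancel₀ hd.ne'
  · intro v hv
    change g (F.mkQ v) = 0
    have : F.mkQ v = 0 := (Submodule.Quotient.mk_eq_zero F).2 hv
    rw [this, map_zero]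

/-- Positive functions have a positive lower bound on a finite set. -/
theorem exists_pos_le {ι : Type*} (t : Finset ι) (r : ι → ℝ) (hr : ∀ i, 0 < r i) :
    ∃ δ : ℝ, 0 < δ ∧ ∀ i ∈ t, δ ≤ r i := by
  classical
  induction t using Finset.induction_on with
  | empty => exact ⟨1, one_pos, by simp⟩
  | insert a t _ ih =>
    obtain ⟨δ, hδ, h⟩ := ih
    refine ⟨min δ (r a), lt_min hδ (hr a), fun i hi => ?_⟩
    rcases Finset.mem_insert.1 hi with rfl | hi
    · exact min_le_right _ _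
    · exact (min_le_left _ _).trans (h i hi)

end lin

section local_frames

variable {M : Type v} [MetricSpace M] [CompactSpace M] {W : Type u} [NormedAddCommGroup W]
  [NormedSpace ℝ W] [FiniteDimensional ℝ W] {J : Emb M W} {f : M ≃ₜ M}

/-- A functional vanishing on `F x₀` almost vanishes on `F y`, `y` close to `x₀`. -/
theorem exists_slope (F : M → Submodule ℝ W) (hcl : IsClosed {p : M × W | p.2 ∈ F p.1}) (x₀ : M)
    (θ : W →L[ℝ] ℝ) (hθ : ∀ v ∈ F x₀, θ v = 0) {η : ℝ} (hη : 0 < η) :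
    ∀ᶠ y in 𝓝 x₀, ∀ w ∈ F y, |θ w| ≤ η * ‖w‖ := by
  have hK : IsCompact ((univ : Set M) ×ˢ Metric.sphere (0 : W) 1) :=
    isCompact_univ.prod (isCompact_sphere 0 1)
  have hB : IsClosed {p : M × W | p.2 ∈ F p.1 ∧ η ≤ |θ p.2|} := by
    refine hcl.inter ?_
    exact isClosed_le continuous_const ((θ.continuous.comp continuous_snd).abs)
  have hC : IsCompact (((univ : Set M) ×ˢ Metric.sphere (0 : W) 1)
      ∩ {p : M × W | p.2 ∈ F p.1 ∧ η ≤ |θ p.2|}) := hK.inter_right hB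
  have hP : IsClosed (Prod.fst '' (((univ : Set M) ×ˢ Metric.sphere (0 : W) 1)
      ∩ {p : M × W | p.2 ∈ F p.1 ∧ η ≤ |θ p.2|})) := (hC.image continuous_fst).isClosed
  have hx : x₀ ∈ (Prod.fst '' (((univ : Set M) ×ˢ Metric.sphere (0 : W) 1)
      ∩ {p : M × W | p.2 ∈ F p.1 ∧ η ≤ |θ p.2|}))ᶜ := by
    rintro ⟨⟨a, b⟩, ⟨-, h1, h2⟩, rfl⟩
    have h3 := hθ b h1
    simp only at h2
    rw [h3, abs_zero] at h2
    exact absurd h2 (not_le.2 hη)
  filter_upwards [hP.isOpen_compl.mem_nhds hx] with y hy w hw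
  by_contra hcon
  rw [not_le] at hcon
  have hw0 : w ≠ 0 := by
    rintro rfl
    simp at hcon
  have hn : 0 < ‖w‖ := norm_pos_iff.2 hw0
  refine hy ⟨(y, ‖w‖⁻¹ • w), ⟨⟨mem_univ _, ?_⟩, ?_, ?_⟩, rfl⟩
  · rw [mem_sphere_zero_iff_norm, norm_smul, norm_inv, norm_norm]
    exact inv_mul_cancel₀ hn.ne'
  · exact (F y).smul_mem _ hw
  · simp only [map_smul, smul_eq_mul, abs_mul, abs_inv, abs_norm]
    rw [le_inv_mul_iff₀ hn]
    linarith

/-- Local frames. -/
theorem exists_local (s : Split J f) (F : M → Submodule ℝ W) (hs : s.Hyperbolic) (hF : Fld s F)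
    {η : ℝ} (hη : 0 < η) (x₀ : M) : ∃ (e₀ : W) (θ : W →L[ℝ] ℝ) (r : ℝ), 0 < r ∧ ‖θ‖ ≤ 1 ∧
      ∀ y, dist y x₀ ≤ 2 * r → 1 / 2 ≤ θ (s.U y e₀) ∧ ‖s.U y e₀‖ ≤ 2 ∧
        ∀ w ∈ F y, |θ w| ≤ η * ‖w‖ := by
  obtain ⟨e, he, heF, -⟩ := hF.hyp x₀
  obtain ⟨w, c, θ, hw, hθ, hn, h1, h0⟩ := exists_frame (F x₀) heF
  have hU : s.U x₀ (c • (e + w)) = c • (e + w) := by
    rw [map_smul, map_add, he, hF.sub x₀ w hw]
  have hc : Continuous fun y => s.U y (c • (e + w)) :=
    (s.continuous_U hs).clm_apply continuous_const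
  have e1 : ∀ᶠ y in 𝓝 x₀, 1 / 2 < θ (s.U y (c • (e + w))) := by
    refine (θ.continuous.comp hc).continuousAt.eventually (lt_mem_nhds ?_)
    simp only [comp_apply]
    rw [hU, h1]
    norm_num
  have e2 : ∀ᶠ y in 𝓝 x₀, ‖s.U y (c • (e + w))‖ < 2 := by
    refine hc.norm.continuousAt.eventually (gt_mem_nhds ?_)
    change ‖s.U x₀ (c • (e + w))‖ < 2
    rw [hU]
    exact hn
  obtain ⟨r, hr, h⟩ := Metric.eventually_nhds_iff.1
    ((e1.and e2).and (exists_slope F hF.closed x₀ θ h0 hη))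
  refine ⟨c • (e + w), θ, r / 3, by positivity, hθ, fun y hy => ?_⟩
  obtain ⟨⟨a, b⟩, c'⟩ := h (show dist y x₀ < r by linarith)
  exact ⟨a.le, b.le, c'⟩

end local_frames

end FrmM

open FrmM in
/-- Module FRM. -/
theorem frm : SpecFrm.{u, v} := by
  intro M _ _ W _ _ _ J f s F hs hF
  refine ⟨4, by norm_num, fun η hη => ?_⟩
  rcases isEmpty_or_nonempty M with hM | ⟨⟨x₁⟩⟩
  · exact ⟨0, fun _ => ∅, fun _ _ => 0, fun _ => 0, 1,
      { one_le := by norm_num
        closed := fun i hi => absurd hi (Nat.not_lt_zero _)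
        cover := fun x => (hM.false x).elim
        e_cont := fun i hi => absurd hi (Nat.not_lt_zero _)
        e_U := fun i hi => absurd hi (Nat.not_lt_zero _)
        e_le := fun i hi => absurd hi (Nat.not_lt_zero _)
        θ_e := fun i hi => absurd hi (Nat.not_lt_zero _)
        θ_le := fun i hi => absurd hi (Nat.not_lt_zero _)
        δ_pos := one_pos
        slope := fun i hi => absurd hi (Nat.not_lt_zero _) }⟩
  choose e₀ θ r hr hθ hloc using exists_local s F hs hF hη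
  obtain ⟨t, ht⟩ := isCompact_univ.elim_nhds_subcover (fun x => Metric.ball x (r x))
    (fun x _ => Metric.ball_mem_nhds x (hr x))
  obtain ⟨δ, hδ, hδr⟩ := exists_pos_le t r hr
  let g := t.equivFin
  let c : ℕ → M := fun i => if h : i < t.card then (g.symm ⟨i, h⟩ : M) else x₁
  have hct : ∀ i < t.card, c i ∈ t := by
    intro i hi
    simp only [c, dif_pos hi]
    exact (g.symm ⟨i, hi⟩).2
  have hpos : ∀ i, ∀ x ∈ Metric.closedBall (c i) (r (c i)),
      1 / 2 ≤ θ (c i) (s.U x (e₀ (c i))) ∧ ‖s.U x (e₀ (c i))‖ ≤ 2 := by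
    intro i x hx
    have h := hloc (c i) x (by
      have := Metric.mem_closedBall.1 hx
      linarith [hr (c i)])
    exact ⟨h.1, h.2.1⟩
  refine ⟨t.card, fun i => Metric.closedBall (c i) (r (c i)),
    fun i x => (θ (c i) (s.U x (e₀ (c i))))⁻¹ • s.U x (e₀ (c i)), fun i => θ (c i), δ, ?_⟩
  refine
    { one_le := by norm_num
      closed := fun i _ => Metric.isClosed_closedBall
      cover := ?_
      e_cont := ?_
      e_U := ?_
      e_le := ?_
      θ_e := ?_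
      θ_le := fun i _ => (hθ (c i)).trans (by norm_num)
      δ_pos := hδ
      slope := ?_ }
  · intro x
    have hx := ht.2 (mem_univ x)
    simp only [mem_iUnion, exists_prop] at hx
    obtain ⟨y, hy, hxy⟩ := hx
    refine ⟨(g ⟨y, hy⟩ : ℕ), (g ⟨y, hy⟩).2, ?_⟩
    have hcy : c (g ⟨y, hy⟩ : ℕ) = y := by
      simp only [c, dif_pos (g ⟨y, hy⟩).2]
      simp
    rw [hcy]
    exact Metric.ball_subset_closedBall hxy
  · intro i _
    have hc : Continuous fun x => s.U x (e₀ (c i)) :=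
      (s.continuous_U hs).clm_apply continuous_const
    refine ContinuousOn.smul (ContinuousOn.inv₀ ?_ ?_) hc.continuousOn
    · exact ((θ (c i)).continuous.comp hc).continuousOn
    · intro x hx
      have := (hpos i x hx).1
      linarith
  · intro i _ x _
    rw [map_smul]
    congr 1
    have := s.UU x
    exact congrArg (fun L : W →L[ℝ] W => L (e₀ (c i))) this
  · intro i _ x hx
    obtain ⟨h1, h2⟩ := hpos i x hx
    rw [norm_smul, norm_inv, Real.norm_eq_abs, abs_of_pos (by linarith)]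
    have h3 : (θ (c i) (s.U x (e₀ (c i))))⁻¹ ≤ 2 := by
      rw [inv_le_comm₀ (by linarith) (by norm_num)]
      linarith
    have h4 : 0 ≤ (θ (c i) (s.U x (e₀ (c i))))⁻¹ := inv_nonneg.2 (by linarith)
    calc (θ (c i) (s.U x (e₀ (c i))))⁻¹ * ‖s.U x (e₀ (c i))‖ ≤ 2 * 2 :=
          mul_le_mul h3 h2 (norm_nonneg _) (by norm_num)
      _ = 4 := by norm_num
  · intro i _ x hx
    have h1 := (hpos i x hx).1
    rw [map_smul, smul_eq_mul]
    exact inv_mul_cancel₀ (by linarith)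
  · intro i hi x hx y hy w hw
    have h1 : dist y (c i) ≤ 2 * r (c i) := by
      have h2 := dist_triangle y x (c i)
      have h3 := Metric.mem_closedBall.1 hx
      have h4 := hδr (c i) (hct i hi)
      linarith
    exact (hloc (c i) y h1).2.2 w hw

end Pool.Agent.Lib.MP610fe3.T5
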