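import Pool.Agent.Lib.MP_610fe3_an.T5.Spec
import Pool.Agent.Lib.MP_610fe3_an.Cf.H1Wl

/-!
# Hyperplane fields in the unstable bundle: assembly of the geometric part
-/

open Set Filter Function
open scoped Topology

namespace Pool.Agent.Lib.MP610fe3.T5

open Cf H6 T4

universe u v

section

variable {M : Type v} [MetricSpace M] {f : M ≃ₜ M}

/-- Everything depends monotonically on the constant `K`. -/
theorem Vrt.mono {n : ℕ} {Mi : ℕ → Set M} {V : ℕ → M → M → ℝ → M} {R ρ K K' : ℝ}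
    (h : Vrt f n Mi V R ρ K) (hK : K ≤ K') : Vrt f n Mi V R ρ K' where
  R_pos := h.R_pos
  ρ_pos := h.ρ_pos
  one_le := h.one_le.trans hK
  closed := h.closed
  cover := h.cover
  zero := h.zero
  wl := fun i hi x hx p hp t ht t' ht' => Cf.H1.wl_mono (h.wl i hi x hx p hp t ht t' ht')
    (mul_le_mul_of_nonneg_right hK (abs_nonneg _))
  low := fun i hi x hx p hp t ht t' ht' => (h.low i hi x hx p hp t ht t' ht').trans
    (mul_le_mul_of_nonneg_right hK dist_nonneg)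
  cont := h.cont

theorem Poly.mono {β : ℝ} {n : ℕ} {Mi : ℕ → Set M} {V : ℕ → M → M → ℝ → M} {R ρ K K' L : ℝ}
    {P : ℕ → M → M → ℕ → M → ℕ → M} {T : ℕ → M → M → ℕ → M → ℝ}
    (h : Poly f β n Mi V R ρ K P T L) (hK : K ≤ K') : Poly f β n Mi V R ρ K' P T L where
  L_nonneg := h.L_nonneg
  start := h.start
  stop := h.stop
  T_mem := h.T_mem
  T_near := fun i hi x hx p hp z hz N hN t ht => (h.T_near i hi x hx p hp z hz N hN t ht).trans
    (mul_le_mul_of_nonneg_right hK dist_nonneg)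
  T_cont := h.T_cont
  mem := fun i hi x hx R' hR' p hp z hz N hN j hj => Cf.H1.wl_mono
    (h.mem i hi x hx R' hR' p hp z hz N hN j hj)
    (mul_le_mul_of_nonneg_right hK (dist_nonneg.trans (Cf.H1.wl_dist hp)))
  step := h.step

/-- Case 1: if `f` is not transitive then no steep pair is cheap. -/
theorem exists_noSteep [CompactSpace M] [ConnectedSpace M] (hcset : SpecCset.{v})
    (htrap : SpecTrap.{v}) (hord : SpecOrd.{v}) {ε₀ C a as bs b₀ β c : ℝ} {n : ℕ}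
    {Mi : ℕ → Set M} {V : ℕ → M → M → ℝ → M} {R ρ K : ℝ} (H : Hyb f ε₀ C a as bs b₀ β)
    (hV : Vrt f n Mi V R ρ K) (hE : Eul f β n Mi V R ρ K) (hT : TM.Hyp f c)
    (hnt : ¬ TopTransitive f) : ∃ r : ℝ, 0 < r ∧ r ≤ R ∧ NoSteep f β r n Mi V R ρ := by
  obtain ⟨rC, hrC, h1⟩ := hcset f ε₀ C a as bs b₀ β H
  obtain ⟨rT, hrT, h2⟩ := htrap f ε₀ C a as bs b₀ β c H hT hnt
  have hmin : 0 < min rC rT := lt_min hrC hrT
  have h3 := h2 (min rC rT) hmin (min_le_right _ _) (h1 _ hmin (min_le_left _ _))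
  obtain ⟨r₁, hr₁, h4⟩ := hord f ε₀ C a as bs b₀ β n Mi V R ρ K H hV hE (min rC rT) hmin
  refine ⟨min r₁ R, lt_min hr₁ hV.R_pos, min_le_right _ _, ?_⟩
  by_contra hns
  have h5 := h4 (min r₁ R) (lt_min hr₁ hV.R_pos) (min_le_left _ _) hns
  rw [h3] at h5
  exact Set.not_nonempty_empty h5

end

/-- The geometric data: vertical lines and polygons, at a small scale. -/
theorem exists_geo (hfrm : SpecFrm.{u, v}) (hslp : SpecSlp.{u, v}) (hpsi : SpecPsi.{u, v})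
    (hestep : SpecEstep.{u, v}) (hvrt : SpecVrt.{u, v}) (hpoly : SpecPoly.{u, v})
    {M : Type v} [MetricSpace M] [CompactSpace M] {W : Type u} [NormedAddCommGroup W]
    [NormedSpace ℝ W] [FiniteDimensional ℝ W] {J : Emb M W} {f : M ≃ₜ M} (s : Split J f)
    (F : M → Submodule ℝ W) (hs : s.Hyperbolic) (hF : Fld s F) {β C₀ ε₀ C κ : ℝ} (hβ : 0 ≤ β)
    (hC₀ : 0 ≤ C₀)
    (hg : ∀ (k : ℕ) (x : M), ∀ w ∈ F x, ‖iterD s.D f k x w‖ ≤ C₀ * Real.exp (β * k) * ‖w‖)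
    (hD : Dec f.symm ε₀ C κ) :
    ∃ (n : ℕ) (Mi : ℕ → Set M) (V : ℕ → M → M → ℝ → M) (R ρ K : ℝ)
      (P : ℕ → M → M → ℕ → M → ℕ → M) (T : ℕ → M → M → ℕ → M → ℝ) (L : ℝ),
      Vrt f n Mi V R ρ K ∧ Poly f β n Mi V R ρ K P T L ∧ 8 * (R + K * (2 * ρ)) ≤ ε₀ ∧
        2 * (K * R) ≤ ε₀ := by
  have hε₀ := hD.ε_pos
  obtain ⟨K, hK, hfr⟩ := hfrm s F hs hF
  obtain ⟨η, hη, hsl⟩ := hslp s F hs hF K hK
  obtain ⟨n, Mi, e, θ, δ, hFr⟩ := hfr η hη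
  obtain ⟨α, δ', hSl⟩ := hsl n Mi e θ δ hFr
  obtain ⟨K₁, εc, hK₁, hεc, hps⟩ := hpsi s hs
  obtain ⟨εE, hεE, hes⟩ := hestep s F n Mi e θ K δ η α δ' β C₀ hs hF hFr hSl hβ hC₀ hg
  set ε : ℝ := min (min εc εE) (min δ' (ε₀ / 2)) with hε
  have hεpos : 0 < ε := lt_min (lt_min hεc hεE) (lt_min hSl.δ_pos (by positivity))
  have hε1 : ε ≤ εc := (min_le_left _ _).trans (min_le_left _ _)
  have hε2 : ε ≤ εE := (min_le_left _ _).trans (min_le_right _ _)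
  have hε3 : ε ≤ δ' := (min_le_right _ _).trans (min_le_left _ _)
  have hε4 : 2 * ε ≤ ε₀ := by
    have : ε ≤ ε₀ / 2 := (min_le_right _ _).trans (min_le_right _ _)
    linarith
  obtain ⟨Ψ, R₁, hPs⟩ := hps ε hεpos hε1
  obtain ⟨L, hL, hEs⟩ := hes Ψ ε R₁ K₁ hε2 hPs
  obtain ⟨Kv, ρv, hKv, hρv, hvr⟩ := hvrt s F n Mi e θ K δ η Ψ ε R₁ K₁ ε₀ C κ hs hFr hPs hD hε4
  obtain ⟨Kp, ρp, hKp, hρp, hpo⟩ := hpoly s F n Mi e θ K δ η α δ' Ψ ε R₁ K₁ β L ε₀ C κ hs hFr hSl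
    hPs hε3 hD hε4 hL hEs
  set K' : ℝ := max Kv Kp with hK'
  have hK'1 : 1 ≤ K' := hKv.trans (le_max_left _ _)
  have hK'0 : 0 < K' := by linarith
  set ρ : ℝ := min (min ρv ρp) (ε₀ / (32 * K')) with hρ
  have hρ0 : 0 < ρ := lt_min (lt_min hρv hρp) (by positivity)
  set R : ℝ := min (ρ / K') (ε₀ / (16 * K')) with hR
  have hR0 : 0 < R := lt_min (by positivity) (by positivity)
  have hR1 : K' * R ≤ ρ := by
    have : R ≤ ρ / K' := min_le_left _ _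
    rwa [le_div_iff₀ hK'0, mul_comm] at this
  have hR2 : 16 * (K' * R) ≤ ε₀ := by
    have : R ≤ ε₀ / (16 * K') := min_le_right _ _
    rw [le_div_iff₀ (by positivity)] at this
    linarith
  have hρ2 : 32 * (K' * ρ) ≤ ε₀ := by
    have : ρ ≤ ε₀ / (32 * K') := min_le_right _ _
    rw [le_div_iff₀ (by positivity)] at this
    linarith
  have hRK : R ≤ K' * R := by nlinarith
  have hv := hvr ρ R hρ0 ((min_le_left _ _).trans (min_le_left _ _)) hR0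
    ((mul_le_mul_of_nonneg_right (le_max_left _ _) hR0.le).trans hR1)
  obtain ⟨L', hp⟩ := hpo ρ R hρ0 ((min_le_left _ _).trans (min_le_right _ _)) hR0
    ((mul_le_mul_of_nonneg_right (le_max_right _ _) hR0.le).trans hR1)
  exact ⟨n, Mi, _, R, ρ, K', _, _, L', hv.mono (le_max_left _ _), hp.mono (le_max_right _ _),
    by linarith, by linarith⟩

/-- The local data of the second case. -/
theorem exists_case2 (hscales : SpecScales.{v}) (hloc2 : SpecLoc2.{v}) {M : Type v}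
    [MetricSpace M] [CompactSpace M] {f : M ≃ₜ M} {ε₀ C a as bs b₀ β : ℝ} {n : ℕ}
    {Mi : ℕ → Set M} {V : ℕ → M → M → ℝ → M} {R ρ K r : ℝ} (H : Hyb f ε₀ C a as bs b₀ β)
    (hV : Vrt f n Mi V R ρ K) (hT : Tanc f β n Mi V R ρ) (hR : 8 * (R + K * (2 * ρ)) ≤ ε₀)
    (hr : 0 < r) (hrR : r ≤ R) (hns : NoSteep f β r n Mi V R ρ) :
    ∃ (E : M → M → Prop) (Hf : M → M → ℝ) (Q : M → ℝ → M) (r₀ ρ₀ L ε : ℝ),
      Loc f E Hf Q r₀ ρ₀ ∧ 0 ≤ L ∧ 0 < ε ∧ ε ≤ ε₀ ∧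
      ∀ x, ∀ y ∈ Wl f.symm r₀ x, E x y → Cv f β ε L x y := by
  obtain ⟨εb, δb, ε, L, R', εh, δh, rB, idx, h⟩ :=
    hscales f ε₀ C a as bs b₀ β n Mi V R ρ K r H hV hT hR hr hrR hns
  obtain ⟨h1, h2⟩ := hloc2 f ε₀ C a as bs b₀ β n Mi V R ρ K r εb δb ε L R' εh δh rB idx h
  refine ⟨_, _, _, rB, _, L, ε, h1, h.L_nonneg, h.ε_pos, ?_, h2⟩
  have e1 := h.ε_le
  have e2 := h.δb_le
  have e3 := h.εb_le
  have e4 := h.r_le
  have e5 := h.R_le
  have e6 := h.ε_pos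
  have e7 := h.vrt.ρ_pos
  have e8 := h.vrt.one_le
  have e9 := h.vrt.R_pos
  have e10 : 0 ≤ K * (2 * ρ) := by positivity
  linarith

end Pool.Agent.Lib.MP610fe3.T5
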