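import Pool.Agent.Lib.MP_610fe3_an.T5.MainB
import Pool.Agent.Lib.MP_610fe3_an.T4.MainC

/-!
# Hyperplane fields in the unstable bundle: the theorem for manifolds
-/

open Set Filter Function Bundle
open scoped Manifold ContDiff Topology

namespace Pool.Agent.Lib.MP610fe3.T5

open Cf H6 T4

universe u v w

namespace MainC

open T4.MainA T4.MainB T4.MainC Gen Mfd

/-- If a power is transitive then the homeomorphism is transitive. -/
theorem transitive_of_pow {X : Type*} [TopologicalSpace X] {f g : X → X} {n : ℕ}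
    (hg : g = f^[n]) (h : TopTransitive g) : TopTransitive f := by
  intro U V hU hV hU' hV'
  obtain ⟨k, hk⟩ := h U V hU hV hU' hV'
  refine ⟨n * k, ?_⟩
  rwa [iterate_mul, ← hg]

/-- The theorem for metric spaces. -/
theorem main_metric (hmods : MainB.Mods.{0, v}) (specPow2 : SpecPow2.{u, v})
    (specClo : SpecClo.{u, v})
    {V : Type u} [NormedAddCommGroup V] [NormedSpace ℝ V] [FiniteDimensional ℝ V] {N : ℕ}
    {M : Type v} [MetricSpace M] [CompactSpace M] [ConnectedSpace M]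
    [ChartedSpace V M] [IsManifold 𝓘(ℝ, V) ∞ M]
    [RiemannianBundle (fun x : M => TangentSpace 𝓘(ℝ, V) x)]
    [IsContinuousRiemannianBundle V (fun x : M => TangentSpace 𝓘(ℝ, V) x)]
    (e : M → EuclideanSpace ℝ (Fin N)) (hiso : Isometry e)
    (he : ContMDiff 𝓘(ℝ, V) (𝓡 N) ∞ e)
    (hinj : ∀ x, Injective (mfderiv 𝓘(ℝ, V) (𝓡 N) e x))
    (f : M ≃ₘ^1⟮𝓘(ℝ, V), 𝓘(ℝ, V)⟯ M)
    (Es Eu Ew : ∀ x : M, Submodule ℝ (TangentSpace 𝓘(ℝ, V) x))
    (hA : Gen.IsAnosovSplitting f Es Eu) (hW : ∀ x, IsHyperplane (Ew x) (Eu x))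
    (hclo : IsClosed {p : TangentBundle 𝓘(ℝ, V) M | p.2 ∈ Ew p.1})
    (C l₁ l₂ m b : ℝ) (hl₁ : 0 < l₁) (hl : l₁ ≤ l₂) (hl₂ : l₂ < 1) (hm : 1 < m) (hmb : m ≤ b)
    (hR : Rates f Es Eu Ew C l₁ l₂ m b)
    (hpinch : (Real.log l₁ / Real.log l₂ - 1) * (Real.log b / Real.log m - 1) < 1) :
    TopTransitive f := by
  by_contra hnt
  obtain ⟨E, hE, hEP, hr⟩ := Gen.exists_emb e hiso he hinj
  subst hE
  -- the power
  obtain ⟨s₀, hs₀, -, -⟩ := Gen.exists_split E he hinj hr f Es Eu hA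
  obtain ⟨c, hc0, hc⟩ := s₀.expansive hs₀
  have hTM : TM.Hyp f.toHomeomorph c := ⟨hc0, hc, s₀.shadowing hs₀⟩
  obtain ⟨n, A, R, hn, hedge⟩ := hTM.exists_edge hnt
  obtain ⟨g, hg, hg', hAg, hRg⟩ := specPow2 f Es Eu Ew C l₁ l₂ m b n hn hA hR
  obtain ⟨rA, hrA, hattr⟩ := exists_attr (g := g.toHomeomorph) hTM hn hg hg' hedge
  have hntg : ¬ TopTransitive g := fun h => hnt (transitive_of_pow hg h)
  obtain ⟨s, hs, hsS, hsU⟩ := Gen.exists_split E he hinj hr g Es Eu hAg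
  obtain ⟨c', hc'0, hc'⟩ := s.expansive hs
  have hTMg : TM.Hyp g.toHomeomorph c' := ⟨hc'0, hc', s.shadowing hs⟩
  obtain ⟨K, hK1, hK⟩ := s.exists_bdd
  have hK0 : 0 ≤ K := by linarith
  have hC0 : 0 ≤ max C 0 := le_max_right _ _
  have hup : ∀ {κ : ℝ} (k : ℕ) {t u : ℝ}, 0 ≤ κ → 0 ≤ t → u ≤ C * κ ^ k * t →
      u ≤ max C 0 * κ ^ k * t := by
    intro κ k t u hκ ht h
    refine h.trans ?_
    have : 0 ≤ κ ^ k := pow_nonneg hκ k
    gcongr
    exact le_max_left _ _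
  have hl₂0 : 0 < l₂ := hl₁.trans_le hl
  have hm0 : 0 < m := by linarith
  have hb0 : 0 < b := by linarith
  set l₁' : ℝ := l₁ ^ n with hl₁'
  set l₂' : ℝ := l₂ ^ n with hl₂'
  set m' : ℝ := m ^ n with hm'
  set b' : ℝ := b ^ n with hb'
  have pl₁ : 0 < l₁' := by positivity
  have pl₂ : 0 < l₂' := by positivity
  have pm : 0 < m' := by positivity
  have pb : 0 < b' := by positivity
  obtain ⟨C₁, hC₁, H₁⟩ := rate_transfer E he hinj hEP g.contMDiff s.hD hK0 (fun x => (hK x).1)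
    hsS hC0 pl₂.le (fun k x v hv => hup k pl₂.le (norm_nonneg _) (hRg.s_fwd k x v hv))
  obtain ⟨C₂, hC₂, H₂⟩ := rate_transfer E he hinj hEP g.symm.contMDiff s.hDi hK0
    (fun x => (hK x).1) hsS hC0 (inv_nonneg.2 pl₁.le)
    (fun k x v hv => hup k (inv_nonneg.2 pl₁.le) (norm_nonneg _) (hRg.s_bwd k x v hv))
  obtain ⟨C₃, hC₃, H₃⟩ := rate_transfer E he hinj hEP g.symm.contMDiff s.hDi hK0
    (fun x => (hK x).2) hsU hC0 (inv_nonneg.2 pm.le)
    (fun k x v hv => hup k (inv_nonneg.2 pm.le) (norm_nonneg _) (hRg.u_bwd k x v hv))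
  obtain ⟨C₄, hC₄, H₄⟩ := rate_sub E he hinj hEP g.contMDiff s.hD (F := Ew) hC0 pb.le
    (fun k x v hv => hup k pb.le (norm_nonneg _) (hRg.w_fwd k x v hv))
  set C' : ℝ := max (max C₁ C₂) (max C₃ C₄) with hC'
  have hC'0 : 0 ≤ C' := hC₁.trans ((le_max_left _ _).trans (le_max_left _ _))
  have hup' : ∀ {κ c : ℝ} (k : ℕ) {t u : ℝ}, c ≤ C' → 0 ≤ κ → 0 ≤ t → u ≤ c * κ ^ k * t →
      u ≤ C' * κ ^ k * t := by
    intro κ c k t u hc hκ ht h
    refine h.trans ?_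
    have : 0 ≤ κ ^ k := pow_nonneg hκ k
    gcongr
  have G₁ : ∀ (k : ℕ) (x : M) (w : EuclideanSpace ℝ (Fin N)),
      ‖iterD s.D g.toHomeomorph k x (s.S x w)‖ ≤ C' * l₂' ^ k * ‖w‖ := fun k x w =>
    hup' k ((le_max_left _ _).trans (le_max_left _ _)) pl₂.le (norm_nonneg _) (H₁ k x w)
  have G₂ : ∀ (k : ℕ) (x : M) (w : EuclideanSpace ℝ (Fin N)),
      ‖iterD s.Di g.toHomeomorph.symm k x (s.S x w)‖ ≤ C' * l₁'⁻¹ ^ k * ‖w‖ := fun k x w =>
    hup' k ((le_max_right _ _).trans (le_max_left _ _)) (inv_nonneg.2 pl₁.le) (norm_nonneg _)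
      (H₂ k x w)
  have G₃ : ∀ (k : ℕ) (x : M) (w : EuclideanSpace ℝ (Fin N)),
      ‖iterD s.Di g.toHomeomorph.symm k x (s.U x w)‖ ≤ C' * m'⁻¹ ^ k * ‖w‖ := fun k x w =>
    hup' k ((le_max_left _ _).trans (le_max_right _ _)) (inv_nonneg.2 pm.le) (norm_nonneg _)
      (H₃ k x w)
  set F : M → Submodule ℝ (EuclideanSpace ℝ (Fin N)) :=
    fun x => (Ew x).map (mfderiv 𝓘(ℝ, V) (𝓡 N) E.e x).toLinearMap with hF
  have G₄ : ∀ (k : ℕ) (x : M), ∀ w ∈ F x,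
      ‖iterD s.D g.toHomeomorph k x w‖ ≤ C' * b' ^ k * ‖w‖ := fun k x w hw =>
    hup' k ((le_max_right _ _).trans (le_max_right _ _)) pb.le (norm_nonneg _)
      (H₄ k x w (by
        obtain ⟨v, hv, hvw⟩ := hw
        exact ⟨v, hv, hvw⟩))
  -- the field
  have hFU : ∀ x, ∀ w ∈ F x, s.U x w = w := by
    intro x w hw
    obtain ⟨v, hv, hvw⟩ := hw
    obtain ⟨e', he'1, he'2, he'3⟩ := hW x
    have h1 : v ∈ Eu x := by
      rw [he'3]
      exact Submodule.mem_sup_left hv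
    have h2 : w ∈ (s.U x).range := by
      rw [hsU x]
      exact ⟨v, h1, hvw⟩
    obtain ⟨u, hu⟩ := h2
    have hu' : s.U x u = w := hu
    rw [← hu']
    exact s.UU_apply x u
  have hhyp : ∀ x, ∃ e : EuclideanSpace ℝ (Fin N), s.U x e = e ∧ e ∉ F x ∧
      ∀ u, s.U x u = u → ∃ c : ℝ, u - c • e ∈ F x := by
    intro x
    obtain ⟨e', he'1, he'2, he'3⟩ := hW x
    refine ⟨dE V E.e x e', ?_, ?_, fun u hu => ?_⟩
    · have h2 : dE V E.e x e' ∈ (s.U x).range := by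
        rw [hsU x]
        exact ⟨e', he'1, rfl⟩
      obtain ⟨u, hu⟩ := h2
      have hu' : s.U x u = dE V E.e x e' := hu
      rw [← hu']
      exact s.UU_apply x u
    · rintro ⟨v, hv, hve⟩
      have : v = e' := hinj x hve
      rw [this] at hv
      exact he'2 hv
    · have h2 : u ∈ (s.U x).range := ⟨u, hu⟩
      rw [hsU x] at h2
      obtain ⟨v, hv, hvu⟩ := h2
      have hv' : v ∈ Eu x := hv
      rw [he'3, Submodule.mem_sup] at hv'
      obtain ⟨y, hy, z, hz, hyz⟩ := hv'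
      obtain ⟨c, hc⟩ := Submodule.mem_span_singleton.1 hz
      have hvu' : dE V E.e x v = u := hvu
      have h3 : dE V E.e x y = u - c • dE V E.e x e' := by
        rw [← hvu', ← hyz, ← hc, map_add, map_smul]
        abel
      exact ⟨c, y, hy, h3⟩
  have hFld : Fld s F :=
    { sub := hFU
      hyp := hhyp
      closed := specClo E.e he hinj Ew hclo }
  have hl₂1 : l₂' < 1 := pow_lt_one₀ hl₂0.le hl₂ hn.ne'
  have hm1 : 1 < m' := one_lt_pow₀ hm hn.ne'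
  obtain ⟨r, hr1, hr2⟩ := MainB.basin_univ hmods s hs F hFld hC'0 pl₁
    (pow_le_pow_left₀ hl₁.le hl n) hl₂1 hm1
    (pow_le_pow_left₀ hm0.le hmb n) G₁ G₂ G₃ G₄ (pinch_pow hn hpinch) hTMg hntg A rA hrA
    (fun r hr => (hattr r hr).1)
  exact (hattr r hr1).2 hr2

/-- **The main theorem** from its modules. -/
theorem specMain (hmods : MainB.Mods.{0, v}) (specPow2 : SpecPow2.{u, v})
    (specClo : SpecClo.{u, v}) : SpecMain.{u, v} := by
  intro V _ _ _ M _ _ _ _ _ _ _ _ f Es Eu Ew hA hW hclo C l₁ l₂ m b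
    hl₁ hl hl₂ hm hmb hR hpinch
  obtain ⟨N, e, he, hemb, hinj⟩ := exists_embedding_euclidean_of_compact (I := 𝓘(ℝ, V)) (M := M)
  let _ : MetricSpace M := hemb.isEmbedding.comapMetricSpace e
  have hiso : Isometry e := hemb.isEmbedding.to_isometry
  exact main_metric hmods specPow2 specClo e hiso he hinj f Es Eu Ew hA hW hclo C l₁ l₂ m b hl₁
    hl hl₂ hm hmb hR hpinch

end MainC

end Pool.Agent.Lib.MP610fe3.T5
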